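import Mathlib

/-!
# Almost all partial orders have three layers: definitions and module statements
-/

namespace Pool.Agent.Lib.MP_5bc52d_co.KR

open Finset

/-- strict partial orders -/
def SO {V : Type*} (r : V → V → Prop) : Prop :=
  (∀ x, ¬ r x x) ∧ ∀ x y z, r x y → r y z → r x z

/-- `y` covers `x` -/
def Cov {V : Type*} (r : V → V → Prop) (x y : V) : Prop :=
  r x y ∧ ∀ z, r x z → ¬ r z y

/-- the relation or its dual -/
def sg {V : Type*} (s : Bool) (r : V → V → Prop) : V → V → Prop :=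
  fun x y => if s = true then r x y else r y x

/-- the dual -/
def dual {V : Type*} (r : V → V → Prop) : V → V → Prop := fun x y => r y x

open Classical in
/-- the number of strict partial orders on `Fin n` -/
noncomputable def numPO (n : ℕ) : ℕ :=
  (Finset.univ.filter fun r : Fin n → Fin n → Prop => SO r).card

open Classical in
/-- the number of orders on `Fin n` with a property -/
noncomputable def num (n : ℕ) (P : (Fin n → Fin n → Prop) → Prop) : ℕ :=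
  (Finset.univ.filter fun r : Fin n → Fin n → Prop => SO r ∧ P r).card

section sets

variable {V : Type*} [Fintype V] [DecidableEq V]

open Classical in
/-- the neighbours in the cover graph -/
noncomputable def Nb (r : V → V → Prop) (x : V) : Finset V :=
  Finset.univ.filter fun y => Cov r x y ∨ Cov r y x

open Classical in
/-- the upper (`s = true`) or lower (`s = false`) covers -/
noncomputable def Nbs (s : Bool) (r : V → V → Prop) (x : V) : Finset V :=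
  Finset.univ.filter fun y => Cov (sg s r) x y

open Classical in
/-- `s = true`: below all elements of `Q`; `s = false`: above all elements of `Q` -/
noncomputable def G1 (s : Bool) (r : V → V → Prop) (Q : Finset V) : Finset V :=
  Finset.univ.filter fun v => v ∉ Q ∧ ∀ q ∈ Q, sg s r v q

open Classical in
/-- incomparable to all elements of `Q` -/
noncomputable def G2 (r : V → V → Prop) (Q : Finset V) : Finset V :=
  Finset.univ.filter fun v => v ∉ Q ∧ ∀ q ∈ Q, ¬ r v q ∧ ¬ r q v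

/-- the candidates above (`t = true`) or below (`t = false`) an element `x` for which `Q` is a set
of upper (`s = true`) or lower (`s = false`) covers -/
noncomputable def Fs (t s : Bool) (r : V → V → Prop) (Q : Finset V) : Finset V :=
  if s = t then G2 r Q else G1 s r Q

/-- all candidates -/
noncomputable def FF (s : Bool) (r : V → V → Prop) (Q : Finset V) : Finset V :=
  G1 s r Q ∪ G2 r Q

/-- the other elements -/
noncomputable def RR (s : Bool) (r : V → V → Prop) (Q : Finset V) : Finset V :=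
  Finset.univ \ (Q ∪ FF s r Q)

/-- `Q` is a set of `K` upper (`s = true`) or lower covers of `x` -/
def OK (K : ℕ) (s : Bool) (r : V → V → Prop) (x : V) (Q : Finset V) : Prop :=
  Q.card = K ∧ ∀ q ∈ Q, Cov (sg s r) x q

open Classical in
/-- the elements which have at most three of the four possible pairs of relations to `x`, `y` -/
noncomputable def Bad (r : V → V → Prop) (x y : V) (s : Bool) (Q : Finset V) (s' : Bool)
    (Q' : Finset V) : Finset V :=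
  ((FF s r Q ∩ FF s' r Q') \ {x, y}).filter fun v =>
    (Cov r x y ∨ Cov r y x) ∨
    (r x y ∧ ¬ (v ∈ Fs true s r Q ∧ v ∈ Fs false s' r Q')) ∨
    (r y x ∧ ¬ (v ∈ Fs false s r Q ∧ v ∈ Fs true s' r Q')) ∨
    (¬ r x y ∧ ¬ r y x ∧ ((v ∈ Fs true s r Q ∧ v ∈ Fs false s' r Q') ∨
      (v ∈ Fs false s r Q ∧ v ∈ Fs true s' r Q')))

end sets

/-! ### The removal classes -/

/-- some element has few covers -/
def R0 (δ : ℝ) (n : ℕ) (r : Fin n → Fin n → Prop) : Prop :=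
  ∃ x, ((Nb r x).card : ℝ) < δ * n

/-- two sets of candidates for the same element have a small intersection -/
def R1 (ε : ℝ) (K n : ℕ) (r : Fin n → Fin n → Prop) : Prop :=
  ∃ x s Q s' Q', OK K s r x Q ∧ OK K s' r x Q' ∧
    ((FF s r Q ∩ FF s' r Q').card : ℝ) ≤ (1 / 2 - ε) * n

/-- too many candidates -/
def R2 (ε : ℝ) (K n : ℕ) (r : Fin n → Fin n → Prop) : Prop :=
  ∃ x s Q, OK K s r x Q ∧ ((RR s r Q).card : ℝ) ≤ (1 / 2 - ε) * n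

/-- pairs -/
def R3 (ε : ℝ) (K n : ℕ) (r : Fin n → Fin n → Prop) : Prop :=
  ∃ x y s Q s' Q', x ≠ y ∧ OK K s r x Q ∧ OK K s' r y Q' ∧ y ∉ Q ∧ x ∉ Q' ∧
    ((FF s r Q).card : ℝ) ≤ (1 / 2 + ε) * n ∧ ((FF s' r Q').card : ℝ) ≤ (1 / 2 + ε) * n ∧
    6 * ε * n ≤ ((Bad r x y s Q s' Q').card : ℝ)

/-- few neighbours of neighbours -/
def R4 (ε : ℝ) (K n : ℕ) (r : Fin n → Fin n → Prop) : Prop :=
  ∃ x s Q, OK K s r x Q ∧ ((Q.biUnion (Nb r)).card : ℝ) ≤ (1 / 2 - ε) * n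

/-- The class is small compared with the number of orders on fewer points. -/
def Rare (P : ∀ n : ℕ, (Fin n → Fin n → Prop) → Prop) : Prop :=
  ∃ (c : ℝ) (k N : ℕ), 0 < c ∧ 0 < k ∧ ∀ n ≥ N, k ≤ n →
    (num n (P n) : ℝ) ≤ (2 : ℝ) ^ (((k : ℝ) / 2 - c) * n) * numPO (n - k)

/-- K2 -/
def BR0 : Prop := ∃ δ₀ : ℝ, 0 < δ₀ ∧ ∀ δ, 0 < δ → δ ≤ δ₀ → Rare (R0 δ)

/-- K3 -/
def BR1 : Prop := ∀ (ε : ℝ) (K : ℕ), 0 < ε → 1 ≤ K → Rare (R1 ε K)

/-- K4 -/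
def BR2 : Prop := ∀ (ε : ℝ) (K : ℕ), 0 < ε → 3 ≤ ε * K → Rare (R2 ε K)

/-- K5 -/
def BR3 : Prop := ∀ (ε : ℝ) (K : ℕ), 0 < ε → ε ≤ 1 / 100 → 1 ≤ K → Rare (R3 ε K)

/-- K6 -/
def BR4 : Prop := ∀ (ε : ℝ) (K : ℕ), 0 < ε → 3 ≤ ε * K → Rare (R4 ε K)

/-- none of the removal classes -/
def Gen (δ ε : ℝ) (K n : ℕ) (r : Fin n → Fin n → Prop) : Prop :=
  SO r ∧ ¬ R0 δ n r ∧ ¬ R1 ε K n r ∧ ¬ R2 ε K n r ∧ ¬ R3 ε K n r ∧ ¬ R4 ε K n r

/-! ### Three layers and the other cases -/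

/-- `r` has (at most) three layers, the lowest one completely below the highest one -/
def Lay3 {V : Type*} (r : V → V → Prop) : Prop :=
  ∃ A B C : Finset V, (∀ x, x ∈ A ∨ x ∈ B ∨ x ∈ C) ∧ Disjoint A B ∧ Disjoint B C ∧
    Disjoint A C ∧
    (∀ x y, r x y → (x ∈ A ∧ y ∈ B) ∨ (x ∈ B ∧ y ∈ C) ∨ (x ∈ A ∧ y ∈ C)) ∧
    ∀ a ∈ A, ∀ c ∈ C, r a c

open Classical in
/-- Case C1: the classes `0, 1` form one side, the classes `2, 3` the other one. -/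
def C1 (θ κ : ℝ) (n : ℕ) (r : Fin n → Fin n → Prop) : Prop :=
  ∃ g : Fin n → Fin 4,
    (((θ * n ≤ ((Finset.univ.filter fun x => g x = 0).card : ℝ)) ∧
      (θ * n ≤ ((Finset.univ.filter fun x => g x = 2).card : ℝ))) ∨
     ((θ * n ≤ ((Finset.univ.filter fun x => g x = 1).card : ℝ)) ∧
      (θ * n ≤ ((Finset.univ.filter fun x => g x = 3).card : ℝ)))) ∧
    ((Finset.univ.filter fun p : Fin n × Fin n => Cov r p.1 p.2 ∧
      ¬ ((g p.1 = 0 ∧ g p.2 = 3) ∨ (g p.1 = 2 ∧ g p.2 = 1))).card : ℝ) ≤ κ * n ^ 2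

open Classical in
/-- Case C2: the classes `0, 1` form one side, the classes `2, 3` the other one, the classes `0`
and `3` are small. -/
def C2 (θ : ℝ) (n : ℕ) (r : Fin n → Fin n → Prop) : Prop :=
  ∃ g : Fin n → Fin 4,
    ((Finset.univ.filter fun x => g x = 0).card : ℝ) < θ * n ∧
    ((Finset.univ.filter fun x => g x = 3).card : ℝ) < θ * n ∧
    ∀ x y, Cov r x y → (g x = 0 ∧ g y = 2) ∨ (g x = 0 ∧ g y = 3) ∨ (g x = 2 ∧ g y = 1) ∨
      (g x = 1 ∧ g y = 3)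

/-- K7, K8: the structure of the generic orders -/
def Structure : Prop :=
  ∀ δ κ : ℝ, 0 < δ → δ ≤ 1 → 0 < κ → ∃ ε₀ : ℝ, 0 < ε₀ ∧ ∀ ε, 0 < ε → ε ≤ ε₀ → ∀ K : ℕ, 1 ≤ K →
    ∃ N : ℕ, ∀ n ≥ N, ∀ r : Fin n → Fin n → Prop, Gen δ ε K n r →
      Lay3 r ∨ C1 (δ / 4) κ n r ∨ C2 (δ / 4) n r

/-! ### Direct counts -/

/-- K9 -/
def CountC1 : Prop :=
  ∀ θ : ℝ, 0 < θ → ∃ κ : ℝ, 0 < κ ∧ ∃ N : ℕ, ∀ n ≥ N,
    (num n (C1 θ κ n) : ℝ) ≤ (2 : ℝ) ^ ((n : ℝ) ^ 2 / 4 + n)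

/-- K10 -/
def CountC2 : Prop :=
  ∃ θ₀ : ℝ, 0 < θ₀ ∧ ∀ θ, 0 < θ → θ ≤ θ₀ → ∃ N : ℕ, ∀ n ≥ N,
    (num n (C2 θ n) : ℝ) ≤ (2 : ℝ) ^ ((n : ℝ) ^ 2 / 4 + 5 / 4 * n)

/-- three layers of size at least `δ n`, the same as `AA.Layered` -/
def LayB (δ : ℝ) (n : ℕ) (r : Fin n → Fin n → Prop) : Prop :=
  ∃ A B C : Finset (Fin n), ((∀ x, x ∈ A ∨ x ∈ B ∨ x ∈ C) ∧ Disjoint A B ∧ Disjoint B C ∧
    Disjoint A C ∧ δ * n ≤ A.card ∧ δ * n ≤ B.card ∧ δ * n ≤ C.card) ∧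
    (∀ x y, r x y → (x ∈ A ∧ y ∈ B) ∨ (x ∈ B ∧ y ∈ C) ∨ (x ∈ A ∧ y ∈ C)) ∧
    ∀ a ∈ A, ∀ c ∈ C, r a c

/-- K10b: unbalanced layers -/
def CountD : Prop :=
  ∃ δ₁ : ℝ, 0 < δ₁ ∧ ∀ δ, 0 < δ → δ ≤ δ₁ → ∃ N : ℕ, ∀ n ≥ N,
    (num n (fun r => Lay3 r ∧ ¬ LayB δ n r) : ℝ) ≤ (2 : ℝ) ^ ((n : ℝ) ^ 2 / 4 + 5 / 4 * n)

/-- K11a: the lower bound -/
def Lower : Prop :=
  ∃ δ₂ : ℝ, 0 < δ₂ ∧ ∀ δ, 0 < δ → δ ≤ δ₂ → ∃ N : ℕ, ∀ n ≥ N,
    (2 : ℝ) ^ ((n : ℝ) ^ 2 / 4 + 11 / 8 * n) ≤ (num n (LayB δ n) : ℝ)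

/-- K11b: the ratio -/
def Ratio : Prop :=
  ∀ n : ℕ, (2 : ℝ) ^ ((n : ℝ) / 2) * (num n Lay3 : ℝ) ≤ (num (n + 1) Lay3 : ℝ)

/-- K12: the theorem of Kleitman and Rothschild, in the form needed here -/
def KleitmanRothschild : Prop :=
  ∃ δ₃ : ℝ, 0 < δ₃ ∧ ∀ δ, 0 < δ → δ ≤ δ₃ → ∀ ε : ℝ, 0 < ε → ∃ N : ℕ, ∀ n ≥ N,
    (num n (fun r => ¬ LayB δ n r) : ℝ) ≤ ε * (num n (LayB δ n) : ℝ)

end Pool.Agent.Lib.MP_5bc52d_co.KR
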