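import Mathlib
import Pool.Agent.Lib.MP_5bc52d_co.KR.Defs

/-!
# Almost all partial orders have three layers: assembly of the modules
-/

namespace Pool.Agent.Lib.MP_5bc52d_co.KR

open Finset

namespace Asm

theorem num_or {n : ℕ} {P Q R : (Fin n → Fin n → Prop) → Prop}
    (h : ∀ r, SO r → P r → Q r ∨ R r) : (num n P : ℝ) ≤ num n Q + num n R := by
  classical
  have : num n P ≤ num n Q + num n R := by
    unfold num
    refine le_trans (Finset.card_le_card ?_) (Finset.card_union_le _ _)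
    intro r hr
    rw [Finset.mem_filter] at hr
    rw [Finset.mem_union, Finset.mem_filter, Finset.mem_filter]
    rcases h r hr.2.1 hr.2.2 with h1 | h1
    · exact Or.inl ⟨hr.1, hr.2.1, h1⟩
    · exact Or.inr ⟨hr.1, hr.2.1, h1⟩
  exact_mod_cast this

theorem num_mono {n : ℕ} {P Q : (Fin n → Fin n → Prop) → Prop}
    (h : ∀ r, SO r → P r → Q r) : (num n P : ℝ) ≤ num n Q := by
  classical
  have : num n P ≤ num n Q := by
    unfold num
    refine Finset.card_le_card ?_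
    intro r hr
    rw [Finset.mem_filter] at hr ⊢
    exact ⟨hr.1, hr.2.1, h r hr.2.1 hr.2.2⟩
  exact_mod_cast this

theorem numPO_eq (n : ℕ) : numPO n = num n (fun _ => True) := by
  classical
  unfold numPO num
  congr 1
  ext r
  simp

theorem num_nonneg (n : ℕ) (P : (Fin n → Fin n → Prop) → Prop) : (0 : ℝ) ≤ num n P :=
  Nat.cast_nonneg _

/-- `2 ^ (a - c n)` is eventually small. -/
theorem exp_small (c a η : ℝ) (hc : 0 < c) (hη : 0 < η) :
    ∃ N : ℕ, ∀ n ≥ N, (2 : ℝ) ^ (-c * (n : ℝ) + a) ≤ η := by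
  obtain ⟨N, hN⟩ := exists_nat_ge ((a - Real.logb 2 η) / c)
  refine ⟨N, fun n hn => ?_⟩
  have h1 : (a - Real.logb 2 η) / c ≤ (n : ℝ) := le_trans hN (by exact_mod_cast hn)
  rw [div_le_iff₀ hc] at h1
  have h2 : -c * (n : ℝ) + a ≤ Real.logb 2 η := by nlinarith
  calc (2 : ℝ) ^ (-c * (n : ℝ) + a) ≤ (2 : ℝ) ^ (Real.logb 2 η) :=
        Real.rpow_le_rpow_of_exponent_le (by norm_num) h2
    _ = η := Real.rpow_logb (by norm_num) (by norm_num) hη

theorem lay3_of_layB {δ : ℝ} {n : ℕ} {r : Fin n → Fin n → Prop} (h : LayB δ n r) : Lay3 r := by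
  obtain ⟨A, B, C, ⟨h1, h2, h3, h4, _⟩, h5, h6⟩ := h
  exact ⟨A, B, C, h1, h2, h3, h4, h5, h6⟩

theorem lay3_pos (n : ℕ) : (1 : ℝ) ≤ num n Lay3 := by
  classical
  have : 1 ≤ num n Lay3 := by
    unfold num
    rw [Nat.one_le_iff_ne_zero, Ne, Finset.card_eq_zero]
    intro h
    have h2 : (fun _ _ => False : Fin n → Fin n → Prop) ∈
        (Finset.univ.filter fun r : Fin n → Fin n → Prop => SO r ∧ Lay3 r) := by
      rw [Finset.mem_filter]
      refine ⟨Finset.mem_univ _, ⟨fun x h => h, fun x y z h _ => h⟩, ∅, Finset.univ, ∅,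
        fun x => Or.inr (Or.inl (Finset.mem_univ x)), by simp, by simp, by simp, ?_, ?_⟩
      · intro x y h
        exact h.elim
      · intro a ha
        simp at ha
    rw [h] at h2
    simp at h2
  exact_mod_cast this

/-- the growth of the number of three-layer orders -/
theorem ratio_iter (hr : Ratio) (k : ℕ) : ∀ m : ℕ,
    (2 : ℝ) ^ ((k : ℝ) * ((m + k : ℕ) : ℝ) / 2 - (k : ℝ) * ((k : ℝ) + 1) / 4) * (num m Lay3 : ℝ) ≤
      (num (m + k) Lay3 : ℝ) := by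
  induction k with
  | zero => intro m; simp
  | succ k ih =>
    intro m
    have h1 := ih m
    have h2 := hr (m + k)
    have e : ((k + 1 : ℕ) : ℝ) * ((m + (k + 1) : ℕ) : ℝ) / 2 -
        ((k + 1 : ℕ) : ℝ) * (((k + 1 : ℕ) : ℝ) + 1) / 4 =
        ((m + k : ℕ) : ℝ) / 2 + ((k : ℝ) * ((m + k : ℕ) : ℝ) / 2 - (k : ℝ) * ((k : ℝ) + 1) / 4) := by
      push_cast
      ring
    rw [e, Real.rpow_add (by norm_num), mul_assoc]
    refine le_trans (mul_le_mul_of_nonneg_left h1 (by positivity)) ?_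
    exact h2

/-- rare classes are small compared with the three-layer orders, given the bound for all orders -/
theorem rare_bound (hr : Ratio) {P : ∀ n : ℕ, (Fin n → Fin n → Prop) → Prop} (hP : Rare P) :
    ∀ η : ℝ, 0 < η → ∃ N : ℕ, ∀ n ≥ N, 0 < n ∧ ∀ C : ℝ, 0 ≤ C →
      (∀ m < n, (numPO m : ℝ) ≤ C * num m Lay3) → (num n (P n) : ℝ) ≤ η * C * num n Lay3 := by
  obtain ⟨c, k, N, hc, hk, h⟩ := hP
  intro η hη
  obtain ⟨M, hM⟩ := exp_small c ((k : ℝ) * ((k : ℝ) + 1) / 4) η hc hη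
  refine ⟨max (max N k) (M + 1), fun n hn => ?_⟩
  have hnN : N ≤ n := le_trans (le_trans (le_max_left _ _) (le_max_left _ _)) hn
  have hnk : k ≤ n := le_trans (le_trans (le_max_right _ _) (le_max_left _ _)) hn
  have hnM : M + 1 ≤ n := le_trans (le_max_right _ _) hn
  refine ⟨by omega, fun C hC hm => ?_⟩
  have h1 := h n hnN hnk
  have h2 := hm (n - k) (by omega)
  have h3 := ratio_iter hr k (n - k)
  have hsub : n - k + k = n := by omega
  rw [hsub] at h3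
  have h4 := hM n (by omega)
  have l0 : (0 : ℝ) ≤ num (n - k) Lay3 := num_nonneg _ _
  have l1 : (0 : ℝ) ≤ num n Lay3 := num_nonneg _ _
  have e : (2 : ℝ) ^ (((k : ℝ) / 2 - c) * (n : ℝ)) =
      (2 : ℝ) ^ (-c * (n : ℝ) + (k : ℝ) * ((k : ℝ) + 1) / 4) *
        (2 : ℝ) ^ ((k : ℝ) * (n : ℝ) / 2 - (k : ℝ) * ((k : ℝ) + 1) / 4) := by
    rw [← Real.rpow_add (by norm_num)]
    congr 1
    ring
  calc (num n (P n) : ℝ) ≤ (2 : ℝ) ^ (((k : ℝ) / 2 - c) * (n : ℝ)) * (numPO (n - k) : ℝ) := h1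
    _ ≤ (2 : ℝ) ^ (((k : ℝ) / 2 - c) * (n : ℝ)) * (C * (num (n - k) Lay3 : ℝ)) :=
        mul_le_mul_of_nonneg_left h2 (by positivity)
    _ = C * ((2 : ℝ) ^ (-c * (n : ℝ) + (k : ℝ) * ((k : ℝ) + 1) / 4) *
          ((2 : ℝ) ^ ((k : ℝ) * (n : ℝ) / 2 - (k : ℝ) * ((k : ℝ) + 1) / 4) *
            (num (n - k) Lay3 : ℝ))) := by rw [e]; ring
    _ ≤ C * (η * (num n Lay3 : ℝ)) := by
        apply mul_le_mul_of_nonneg_left _ hC
        exact mul_le_mul h4 h3 (by positivity) hη.le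
    _ = η * C * num n Lay3 := by ring

/-- the direct counts are small compared with the number of three-layer orders -/
theorem direct_small {b : ℕ → ℝ} {N₀ : ℕ}
    (hb : ∀ n ≥ N₀, (2 : ℝ) ^ ((n : ℝ) ^ 2 / 4 + 11 / 8 * n) ≤ b n) (η : ℝ) (hη : 0 < η) :
    ∃ N : ℕ, ∀ n ≥ N, (2 : ℝ) ^ ((n : ℝ) ^ 2 / 4 + 5 / 4 * n) ≤ η * b n := by
  obtain ⟨M, hM⟩ := exp_small (1 / 8) 0 η (by norm_num) hη
  refine ⟨max N₀ M, fun n hn => ?_⟩
  have h1 := hb n (le_trans (le_max_left _ _) hn)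
  have h2 := hM n (le_trans (le_max_right _ _) hn)
  have e : (2 : ℝ) ^ ((n : ℝ) ^ 2 / 4 + 5 / 4 * n) =
      (2 : ℝ) ^ (-(1 / 8) * (n : ℝ) + 0) * (2 : ℝ) ^ ((n : ℝ) ^ 2 / 4 + 11 / 8 * n) := by
    rw [← Real.rpow_add (by norm_num)]
    congr 1
    ring
  rw [e]
  exact mul_le_mul h2 h1 (by positivity) hη.le

/-- all orders are generic, or in one of the removal classes -/
theorem gen_cases {δ ε : ℝ} {K n : ℕ} {r : Fin n → Fin n → Prop} (h : SO r) :
    Gen δ ε K n r ∨ R0 δ n r ∨ R1 ε K n r ∨ R2 ε K n r ∨ R3 ε K n r ∨ R4 ε K n r := by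
  by_cases h0 : R0 δ n r
  · tauto
  by_cases h1 : R1 ε K n r
  · tauto
  by_cases h2 : R2 ε K n r
  · tauto
  by_cases h3 : R3 ε K n r
  · tauto
  by_cases h4 : R4 ε K n r
  · tauto
  exact Or.inl ⟨h, h0, h1, h2, h3, h4⟩

theorem num_or8 {n : ℕ} {P Q0 Q1 Q2 Q3 Q4 Q5 Q6 Q7 : (Fin n → Fin n → Prop) → Prop}
    (h : ∀ r, SO r → P r → Q0 r ∨ Q1 r ∨ Q2 r ∨ Q3 r ∨ Q4 r ∨ Q5 r ∨ Q6 r ∨ Q7 r) :
    (num n P : ℝ) ≤ num n Q0 + (num n Q1 + (num n Q2 + (num n Q3 + (num n Q4 + (num n Q5 +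
      (num n Q6 + num n Q7)))))) := by
  refine le_trans (num_or (Q := Q0)
    (R := fun r => Q1 r ∨ Q2 r ∨ Q3 r ∨ Q4 r ∨ Q5 r ∨ Q6 r ∨ Q7 r) h) ?_
  refine add_le_add_right (le_trans (num_or (Q := Q1)
    (R := fun r => Q2 r ∨ Q3 r ∨ Q4 r ∨ Q5 r ∨ Q6 r ∨ Q7 r) fun r _ h => h) ?_) _
  refine add_le_add_right (le_trans (num_or (Q := Q2)
    (R := fun r => Q3 r ∨ Q4 r ∨ Q5 r ∨ Q6 r ∨ Q7 r) fun r _ h => h) ?_) _
  refine add_le_add_right (le_trans (num_or (Q := Q3)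
    (R := fun r => Q4 r ∨ Q5 r ∨ Q6 r ∨ Q7 r) fun r _ h => h) ?_) _
  refine add_le_add_right (le_trans (num_or (Q := Q4)
    (R := fun r => Q5 r ∨ Q6 r ∨ Q7 r) fun r _ h => h) ?_) _
  refine add_le_add_right (le_trans (num_or (Q := Q5)
    (R := fun r => Q6 r ∨ Q7 r) fun r _ h => h) ?_) _
  exact add_le_add_right (num_or fun r _ h => h) _

end Asm

open Asm in
/-- K12: the theorem of Kleitman and Rothschild from the modules -/
theorem kleitman_rothschild (h0 : BR0) (h1 : BR1) (h2 : BR2) (h3 : BR3) (h4 : BR4)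
    (hS : Structure) (hC1 : CountC1) (hC2 : CountC2) (hD : CountD) (hL : Lower) (hR : Ratio) :
    KleitmanRothschild := by
  classical
  obtain ⟨δ₀, δ₀pos, h0⟩ := h0
  obtain ⟨θ₀, θ₀pos, hC2⟩ := hC2
  -- the parameter of the structure lemma
  obtain ⟨d, hd⟩ : ∃ d : ℝ, d = min δ₀ (min 1 (4 * θ₀)) := ⟨_, rfl⟩
  have dpos : 0 < d := by rw [hd]; positivity
  have d0 : d ≤ δ₀ := by rw [hd]; exact min_le_left _ _
  have d1 : d ≤ 1 := by rw [hd]; exact le_trans (min_le_right _ _) (min_le_left _ _)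
  have dθ : d / 4 ≤ θ₀ := by
    have : d ≤ 4 * θ₀ := by rw [hd]; exact le_trans (min_le_right _ _) (min_le_right _ _)
    linarith
  obtain ⟨κ, κpos, N1, hC1⟩ := hC1 (d / 4) (by positivity)
  obtain ⟨N2, hC2⟩ := hC2 (d / 4) (by positivity) dθ
  obtain ⟨ε₀, ε₀pos, hS⟩ := hS d κ dpos d1 κpos
  obtain ⟨e, he⟩ : ∃ e : ℝ, e = min ε₀ (1 / 100) := ⟨_, rfl⟩
  have epos : 0 < e := by rw [he]; positivity
  have e0 : e ≤ ε₀ := by rw [he]; exact min_le_left _ _
  have e1 : e ≤ 1 / 100 := by rw [he]; exact min_le_right _ _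
  obtain ⟨K, hK⟩ := exists_nat_ge (3 / e)
  have hK3 : 3 ≤ e * K := by
    rw [div_le_iff₀ epos] at hK
    linarith
  have hK1 : 1 ≤ K := by
    rw [Nat.one_le_iff_ne_zero]
    rintro rfl
    simp at hK3
    linarith
  obtain ⟨N3, hS⟩ := hS e epos e0 K hK1
  have r0 : Rare (R0 d) := h0 d dpos d0
  have r1 : Rare (R1 e K) := h1 e K epos hK1
  have r2 : Rare (R2 e K) := h2 e K epos hK3
  have r3 : Rare (R3 e K) := h3 e K epos e1 hK1
  have r4 : Rare (R4 e K) := h4 e K epos hK3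
  obtain ⟨δ₁, δ₁pos, hD⟩ := hD
  obtain ⟨δ₂, δ₂pos, hL⟩ := hL
  -- the cases
  have hcase : ∀ n ≥ N3, ∀ r : Fin n → Fin n → Prop, SO r → Lay3 r ∨ R0 d n r ∨ R1 e K n r ∨
      R2 e K n r ∨ R3 e K n r ∨ R4 e K n r ∨ C1 (d / 4) κ n r ∨ C2 (d / 4) n r := by
    intro n hn r hr
    rcases gen_cases (δ := d) (ε := e) (K := K) hr with hg | hg
    · have := hS n hn r hg
      tauto
    · tauto
  -- the bound for all orders
  have hbound : ∃ C : ℝ, 0 ≤ C ∧ ∀ n, (numPO n : ℝ) ≤ C * num n Lay3 := by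
    obtain ⟨M0, H0⟩ := rare_bound hR r0 (1 / 40) (by norm_num)
    obtain ⟨M1, H1⟩ := rare_bound hR r1 (1 / 40) (by norm_num)
    obtain ⟨M2, H2⟩ := rare_bound hR r2 (1 / 40) (by norm_num)
    obtain ⟨M3, H3⟩ := rare_bound hR r3 (1 / 40) (by norm_num)
    obtain ⟨M4, H4⟩ := rare_bound hR r4 (1 / 40) (by norm_num)
    obtain ⟨NL, hNL⟩ := hL δ₂ δ₂pos le_rfl
    obtain ⟨M5, H5⟩ := direct_small (b := fun n => (num n (LayB δ₂ n) : ℝ)) hNL (1 / 8)
      (by norm_num)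
    obtain ⟨n0, hn0⟩ : ∃ n0 : ℕ, n0 = N1 + N2 + N3 + M0 + M1 + M2 + M3 + M4 + M5 := ⟨_, rfl⟩
    obtain ⟨C, hC⟩ : ∃ C : ℝ, C = 2 + ∑ m ∈ Finset.range n0, (numPO m : ℝ) / num m Lay3 :=
      ⟨_, rfl⟩
    have hq : ∀ m, (0 : ℝ) ≤ (numPO m : ℝ) / num m Lay3 := fun m => by positivity
    have C2 : 2 ≤ C := by
      rw [hC]
      have := Finset.sum_nonneg (s := Finset.range n0) fun m _ => hq m
      linarith
    refine ⟨C, by linarith, ?_⟩
    intro n
    induction n using Nat.strong_induction_on with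
    | _ n ih =>
      have hl : (0 : ℝ) < num n Lay3 := lt_of_lt_of_le one_pos (lay3_pos n)
      by_cases hn : n < n0
      · have h6 : (numPO n : ℝ) / num n Lay3 ≤ C := by
          have := Finset.single_le_sum (f := fun m => (numPO m : ℝ) / num m Lay3)
            (fun m _ => hq m) (Finset.mem_range.2 hn)
          rw [hC]
          linarith
        rwa [div_le_iff₀ hl] at h6
      · push Not at hn
        have hcn := hcase n (by omega)
        have hle := num_or8 (n := n) (P := fun _ => True) fun r hr _ => hcn r hr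
        rw [numPO_eq]
        have g0 := (H0 n (by omega)).2 C (by linarith) ih
        have g1 := (H1 n (by omega)).2 C (by linarith) ih
        have g2 := (H2 n (by omega)).2 C (by linarith) ih
        have g3 := (H3 n (by omega)).2 C (by linarith) ih
        have g4 := (H4 n (by omega)).2 C (by linarith) ih
        have g5 := H5 n (by omega)
        have g6 := hC1 n (by omega)
        have g7 := hC2 n (by omega)
        have g8 : (num n (LayB δ₂ n) : ℝ) ≤ num n Lay3 := num_mono fun r _ h => lay3_of_layB h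
        have g9 : (2 : ℝ) ^ ((n : ℝ) ^ 2 / 4 + n) ≤ (2 : ℝ) ^ ((n : ℝ) ^ 2 / 4 + 5 / 4 * n) := by
          apply Real.rpow_le_rpow_of_exponent_le (by norm_num)
          have : (0 : ℝ) ≤ n := Nat.cast_nonneg _
          linarith
        nlinarith
  obtain ⟨C, hC, hbound⟩ := hbound
  refine ⟨min δ₁ δ₂, by positivity, fun δ hδ hδ' ε hε => ?_⟩
  obtain ⟨ND, hD⟩ := hD δ hδ (le_trans hδ' (min_le_left _ _))
  obtain ⟨NL, hL⟩ := hL δ hδ (le_trans hδ' (min_le_right _ _))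
  have hC' : 0 < C + 1 := by linarith
  have hη : 0 < ε / (20 * (C + 1)) := by positivity
  obtain ⟨M0, H0⟩ := rare_bound hR r0 _ hη
  obtain ⟨M1, H1⟩ := rare_bound hR r1 _ hη
  obtain ⟨M2, H2⟩ := rare_bound hR r2 _ hη
  obtain ⟨M3, H3⟩ := rare_bound hR r3 _ hη
  obtain ⟨M4, H4⟩ := rare_bound hR r4 _ hη
  obtain ⟨M5, H5⟩ := direct_small (b := fun n => (num n (LayB δ n) : ℝ)) hL (ε / 6)
    (by positivity)
  obtain ⟨M6, H6⟩ := direct_small (b := fun n => (num n (LayB δ n) : ℝ)) hL 1 one_pos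
  refine ⟨N1 + N2 + N3 + ND + M0 + M1 + M2 + M3 + M4 + M5 + M6, fun n hn => ?_⟩
  have hcn := hcase n (by omega)
  have hle := num_or8 (n := n) (P := fun r => ¬ LayB δ n r)
    (Q0 := fun r => Lay3 r ∧ ¬ LayB δ n r) (Q1 := R0 d n) (Q2 := R1 e K n) (Q3 := R2 e K n)
    (Q4 := R3 e K n) (Q5 := R4 e K n) (Q6 := C1 (d / 4) κ n) (Q7 := C2 (d / 4) n)
    fun r hr hnot => by
      have := hcn r hr
      tauto
  have ih : ∀ m < n, (numPO m : ℝ) ≤ C * num m Lay3 := fun m _ => hbound m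
  have g0 := (H0 n (by omega)).2 C hC ih
  have g1 := (H1 n (by omega)).2 C hC ih
  have g2 := (H2 n (by omega)).2 C hC ih
  have g3 := (H3 n (by omega)).2 C hC ih
  have g4 := (H4 n (by omega)).2 C hC ih
  have g5 := H5 n (by omega)
  have g6 := hC1 n (by omega)
  have g7 := hC2 n (by omega)
  have g8 := hD n (by omega)
  have g10 := H6 n (by omega)
  have g9 : (2 : ℝ) ^ ((n : ℝ) ^ 2 / 4 + n) ≤ (2 : ℝ) ^ ((n : ℝ) ^ 2 / 4 + 5 / 4 * n) := by
    apply Real.rpow_le_rpow_of_exponent_le (by norm_num)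
    have : (0 : ℝ) ≤ n := Nat.cast_nonneg _
    linarith
  have hb : (0 : ℝ) ≤ num n (LayB δ n) := num_nonneg _ _
  -- `l ≤ 2 b`
  have hl : (num n Lay3 : ℝ) ≤ 2 * num n (LayB δ n) := by
    have : (num n Lay3 : ℝ) ≤ num n (LayB δ n) + num n (fun r => Lay3 r ∧ ¬ LayB δ n r) :=
      num_or fun r _ h => by tauto
    linarith
  have key : ε / (20 * (C + 1)) * C * num n Lay3 ≤ ε / 10 * num n (LayB δ n) := by
    have h5 : ε / (20 * (C + 1)) * C ≤ ε / 20 := by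
      rw [div_mul_eq_mul_div, div_le_div_iff₀ (by positivity) (by norm_num)]
      nlinarith
    calc ε / (20 * (C + 1)) * C * num n Lay3 ≤ ε / 20 * num n Lay3 :=
          mul_le_mul_of_nonneg_right h5 (num_nonneg _ _)
      _ ≤ ε / 20 * (2 * num n (LayB δ n)) := mul_le_mul_of_nonneg_left hl (by positivity)
      _ = ε / 10 * num n (LayB δ n) := by ring
  linarith

end Pool.Agent.Lib.MP_5bc52d_co.KR
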