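import Mathlib
import Pool.Agent.Lib.MP_5bc52d_co.KR.Defs

/-!
# Basic lemmas on strict orders, covers and candidates
-/

namespace Pool.Agent.Lib.MP_5bc52d_co.KR

open Finset

set_option linter.unusedSectionVars false

section order

variable {V : Type*} {r r' : V → V → Prop}

theorem SO.irrefl (h : SO r) (x : V) : ¬ r x x := h.1 x

theorem SO.trans (h : SO r) {x y z : V} (hxy : r x y) (hyz : r y z) : r x z := h.2 x y z hxy hyz

theorem SO.asymm (h : SO r) {x y : V} (hxy : r x y) : ¬ r y x :=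
  fun hyx => h.1 x (h.2 x y x hxy hyx)

theorem SO.ne (h : SO r) {x y : V} (hxy : r x y) : x ≠ y := by
  rintro rfl
  exact h.1 x hxy

theorem SO.dual (h : SO r) : SO (KR.dual r) :=
  ⟨fun x => h.1 x, fun x y z hxy hyz => h.2 z y x hyz hxy⟩

theorem dual_dual (r : V → V → Prop) : KR.dual (KR.dual r) = r := rfl

theorem so_dual_iff : SO (KR.dual r) ↔ SO r := ⟨fun h => h.dual, fun h => h.dual⟩

theorem cov_dual {x y : V} : Cov (KR.dual r) x y ↔ Cov r y x := by
  constructor
  · rintro ⟨h1, h2⟩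
    exact ⟨h1, fun z hz1 hz2 => h2 z hz2 hz1⟩
  · rintro ⟨h1, h2⟩
    exact ⟨h1, fun z hz1 hz2 => h2 z hz2 hz1⟩

@[simp] theorem sg_true (r : V → V → Prop) : sg true r = r := by
  funext x y
  simp [sg]

@[simp] theorem sg_false (r : V → V → Prop) : sg false r = KR.dual r := by
  funext x y
  simp [sg, KR.dual]

theorem sg_dual (s : Bool) (r : V → V → Prop) : sg s (KR.dual r) = sg (!s) r := by
  cases s
  · simp [dual_dual]
  · simp

theorem SO.sg (h : SO r) (s : Bool) : SO (sg s r) := by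
  cases s
  · rw [sg_false]; exact h.dual
  · rw [sg_true]; exact h

theorem Cov.rel {x y : V} (h : Cov r x y) : r x y := h.1

/-- two upper covers are incomparable -/
theorem Cov.not_rel {x y z : V} (hy : Cov r x y) (hz : Cov r x z) : ¬ r y z :=
  fun h => hz.2 y hy.1 h

end order

section fin

variable {V : Type*} [Fintype V] [DecidableEq V] {r r' : V → V → Prop}

/-- an upper cover of `x` below or equal to `y` -/
theorem exists_cov_left (h : SO r) {x y : V} (hxy : r x y) :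
    ∃ z, Cov r x z ∧ (z = y ∨ r z y) := by
  classical
  obtain ⟨z, hz, hmin⟩ := Finset.exists_min_image
    (Finset.univ.filter fun z => r x z ∧ (z = y ∨ r z y))
    (fun z => (Finset.univ.filter fun u => r u z).card)
    ⟨y, by simp [hxy]⟩
  rw [Finset.mem_filter] at hz
  refine ⟨z, ⟨hz.2.1, fun w hxw hwz => ?_⟩, hz.2.2⟩
  have hw : w ∈ Finset.univ.filter fun z => r x z ∧ (z = y ∨ r z y) := by
    rw [Finset.mem_filter]
    refine ⟨Finset.mem_univ _, hxw, Or.inr ?_⟩
    rcases hz.2.2 with rfl | hzy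
    · exact hwz
    · exact h.trans hwz hzy
  have h1 := hmin w hw
  have h2 : (Finset.univ.filter fun u => r u w).card <
      (Finset.univ.filter fun u => r u z).card := by
    apply Finset.card_lt_card
    rw [Finset.ssubset_iff_of_subset]
    · exact ⟨w, by simp [hwz], by simp [h.irrefl]⟩
    · intro u hu
      rw [Finset.mem_filter] at hu ⊢
      exact ⟨Finset.mem_univ _, h.trans hu.2 hwz⟩
  omega

/-- a lower cover of `y` above or equal to `x` -/
theorem exists_cov_right (h : SO r) {x y : V} (hxy : r x y) :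
    ∃ z, Cov r z y ∧ (x = z ∨ r x z) := by
  obtain ⟨z, hz, hz'⟩ := exists_cov_left h.dual (x := y) (y := x) hxy
  exact ⟨z, cov_dual.mp hz, hz'.imp Eq.symm id⟩

/-- The relation is contained in `r'` if the covers are. -/
theorem sub_of_cov (h : SO r) (h' : SO r') (hc : ∀ x y, Cov r x y → r' x y) :
    ∀ x y, r x y → r' x y := by
  classical
  have key : ∀ n : ℕ, ∀ x y, (Finset.univ.filter fun u => r u y).card = n → r x y → r' x y := by
    intro n
    induction n using Nat.strong_induction_on with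
    | _ n ih =>
      intro x y hn hxy
      obtain ⟨z, hz, hz'⟩ := exists_cov_right h hxy
      rcases hz' with rfl | hxz
      · exact hc _ _ hz
      · refine h'.trans (ih _ ?_ x z rfl hxz) (hc _ _ hz)
        rw [← hn]
        apply Finset.card_lt_card
        rw [Finset.ssubset_iff_of_subset]
        · exact ⟨z, by simp [hz.1], by simp [h.irrefl]⟩
        · intro u hu
          rw [Finset.mem_filter] at hu ⊢
          exact ⟨Finset.mem_univ _, h.trans hu.2 hz.1⟩
  intro x y hxy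
  exact key _ x y rfl hxy

/-- An order is determined by its covers. -/
theorem eq_of_cov (h : SO r) (h' : SO r') (hc : ∀ x y, Cov r x y ↔ Cov r' x y) : r = r' := by
  funext x y
  apply propext
  exact ⟨sub_of_cov h h' (fun x y hxy => ((hc x y).mp hxy).1) x y,
    sub_of_cov h' h (fun x y hxy => ((hc x y).mpr hxy).1) x y⟩

/-! ### Membership -/

theorem mem_Nb {x y : V} : y ∈ Nb r x ↔ Cov r x y ∨ Cov r y x := by
  simp [Nb]

theorem mem_Nbs {s : Bool} {x y : V} : y ∈ Nbs s r x ↔ Cov (sg s r) x y := by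
  simp [Nbs]

theorem mem_G1 {s : Bool} {Q : Finset V} {v : V} :
    v ∈ G1 s r Q ↔ v ∉ Q ∧ ∀ q ∈ Q, sg s r v q := by
  simp [G1]

theorem mem_G2 {Q : Finset V} {v : V} :
    v ∈ G2 r Q ↔ v ∉ Q ∧ ∀ q ∈ Q, ¬ r v q ∧ ¬ r q v := by
  simp [G2]

theorem mem_FF {s : Bool} {Q : Finset V} {v : V} :
    v ∈ FF s r Q ↔ v ∈ G1 s r Q ∨ v ∈ G2 r Q := by
  simp [FF]

theorem mem_RR {s : Bool} {Q : Finset V} {v : V} :
    v ∈ RR s r Q ↔ v ∉ Q ∧ v ∉ FF s r Q := by
  simp [RR]

theorem Fs_subset (t s : Bool) (r : V → V → Prop) (Q : Finset V) : Fs t s r Q ⊆ FF s r Q := by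
  intro v hv
  rw [Fs] at hv
  rw [mem_FF]
  split_ifs at hv with h
  · exact Or.inr hv
  · exact Or.inl hv

theorem mem_FF_iff {s : Bool} {Q : Finset V} {v : V} :
    v ∈ FF s r Q ↔ v ∈ Fs true s r Q ∨ v ∈ Fs false s r Q := by
  rw [mem_FF]
  cases s
  · simp [Fs]
  · simp only [Fs]
    simp [or_comm]

theorem FF_eq (s : Bool) (r : V → V → Prop) (Q : Finset V) :
    FF s r Q = Fs true s r Q ∪ Fs false s r Q := by
  ext v
  rw [mem_FF_iff, Finset.mem_union]

theorem Fs_disjoint {s : Bool} {Q : Finset V} (hQ : Q.Nonempty) :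
    Disjoint (Fs true s r Q) (Fs false s r Q) := by
  rw [Finset.disjoint_left]
  intro v h1 h2
  obtain ⟨q, hq⟩ := hQ
  cases s
  · simp only [Fs] at h1 h2
    simp only [Bool.false_eq_true, if_false, if_true] at h1 h2
    rw [mem_G1] at h1
    rw [mem_G2] at h2
    have h3 := h1.2 q hq
    rw [sg_false] at h3
    exact (h2.2 q hq).2 h3
  · simp only [Fs] at h1 h2
    simp only [if_true] at h1
    rw [if_neg (by simp)] at h2
    rw [mem_G2] at h1
    rw [mem_G1] at h2
    have h3 := h2.2 q hq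
    rw [sg_true] at h3
    exact (h1.2 q hq).1 h3

theorem OK.card {K : ℕ} {s : Bool} {x : V} {Q : Finset V} (h : OK K s r x Q) : Q.card = K := h.1

theorem OK.nonempty {K : ℕ} {s : Bool} {x : V} {Q : Finset V} (h : OK K s r x Q) (hK : 1 ≤ K) :
    Q.Nonempty := by
  rw [← Finset.card_pos, h.1]
  exact hK

theorem OK.notMem {K : ℕ} {s : Bool} {x : V} {Q : Finset V} (h : OK K s r x Q) (hr : SO r) :
    x ∉ Q := by
  intro hx
  exact (hr.sg s).irrefl x (h.2 x hx).1

/-- `Q` is an antichain -/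
theorem OK.anti {K : ℕ} {s : Bool} {x : V} {Q : Finset V} (h : OK K s r x Q) {p q : V}
    (hp : p ∈ Q) (hq : q ∈ Q) : ¬ r p q := by
  intro hpq
  cases s
  · have h1 := h.2 p hp
    have h2 := h.2 q hq
    rw [sg_false] at h1 h2
    exact h2.not_rel h1 hpq
  · have h1 := h.2 p hp
    have h2 := h.2 q hq
    rw [sg_true] at h1 h2
    exact h1.not_rel h2 hpq

/-! ### Lemma 1: the relation of the other elements to `x` -/

theorem OK.of_mem {K : ℕ} {s : Bool} {x : V} {Q : Finset V} (h : OK K s r x Q) {v : V}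
    (hv : v ∈ Q) : sg s r x v := (h.2 v hv).1

/-- an element of `G1` is not on the side of `Q` -/
theorem OK.not_of_G1 {K : ℕ} {s : Bool} {x : V} {Q : Finset V} (h : OK K s r x Q)
    (hQ : Q.Nonempty) {v : V} (hv : v ∈ G1 s r Q) : ¬ sg s r x v := by
  obtain ⟨q, hq⟩ := hQ
  intro hxv
  exact (h.2 q hq).2 v hxv ((mem_G1.mp hv).2 q hq)

theorem sg_or (s : Bool) (r : V → V → Prop) (x y : V) :
    (sg s r x y ∨ sg s r y x) ↔ (r x y ∨ r y x) := by
  cases s
  · simp only [sg_false, KR.dual]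
    exact or_comm
  · simp only [sg_true]

/-- an element of `G2` is not on the other side -/
theorem OK.not_of_G2 {K : ℕ} {s : Bool} {x : V} {Q : Finset V} (hr : SO r) (h : OK K s r x Q)
    (hQ : Q.Nonempty) {v : V} (hv : v ∈ G2 r Q) : ¬ sg s r v x := by
  obtain ⟨q, hq⟩ := hQ
  intro hvx
  have h1 : sg s r v q := (hr.sg s).trans hvx (h.2 q hq).1
  have h2 := (mem_G2.mp hv).2 q hq
  have h3 : r v q ∨ r q v := (sg_or s r v q).mp (Or.inl h1)
  rcases h3 with h3 | h3
  · exact h2.1 h3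
  · exact h2.2 h3

/-- the candidates above are not below -/
theorem OK.not_lt_of_above {K : ℕ} {s : Bool} {x : V} {Q : Finset V} (hr : SO r)
    (h : OK K s r x Q) (hQ : Q.Nonempty) {v : V} (hv : v ∈ Fs true s r Q) : ¬ r v x := by
  cases s
  · simp only [Fs, Bool.false_eq_true, if_false] at hv
    have := h.not_of_G1 hQ hv
    rwa [sg_false] at this
  · simp only [Fs, if_true] at hv
    have := h.not_of_G2 hr hQ hv
    rwa [sg_true] at this

/-- the candidates below are not above -/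
theorem OK.not_gt_of_below {K : ℕ} {s : Bool} {x : V} {Q : Finset V} (hr : SO r)
    (h : OK K s r x Q) (hQ : Q.Nonempty) {v : V} (hv : v ∈ Fs false s r Q) : ¬ r x v := by
  cases s
  · simp only [Fs, if_true] at hv
    have := h.not_of_G2 hr hQ hv
    rwa [sg_false] at this
  · simp only [Fs] at hv
    rw [if_neg (by simp)] at hv
    have := h.not_of_G1 hQ hv
    rwa [sg_true] at this

/-- the elements outside of `Q` and of the candidates: never on the other side -/
theorem OK.not_of_RR {K : ℕ} {s : Bool} {x : V} {Q : Finset V} (hr : SO r) (h : OK K s r x Q)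
    {v : V} (hv : v ∈ RR s r Q) (hne : ¬ ∃ q ∈ Q, sg s r q v) : ¬ sg s r x v ∧ ¬ sg s r v x := by
  rw [mem_RR, mem_FF, mem_G1, mem_G2] at hv
  obtain ⟨hvQ, hv⟩ := hv
  push_neg at hv
  obtain ⟨q1, hq1, h1⟩ := hv.2 hvQ
  obtain ⟨q2, hq2, h2⟩ := hv.1 hvQ
  have h3 : sg s r v q1 := by
    by_contra h4
    have h5 : ¬ sg s r q1 v := fun h6 => hne ⟨q1, hq1, h6⟩
    have h7 : ¬ (r v q1 ∨ r q1 v) := by
      rw [← sg_or s r v q1]
      rintro (h8 | h8)
      · exact h4 h8
      · exact h5 h8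
    push_neg at h7
    exact h7.2 (h1 h7.1)
  constructor
  · intro hxv
    exact (h.2 q1 hq1).2 v hxv h3
  · intro hvx
    exact h2 ((hr.sg s).trans hvx (h.2 q2 hq2).1)

theorem OK.RR_iff {K : ℕ} {s : Bool} {x : V} {Q : Finset V} (hr : SO r) (h : OK K s r x Q)
    {v : V} (hv : v ∈ RR s r Q) : sg s r x v ↔ ∃ q ∈ Q, sg s r q v := by
  constructor
  · intro hxv
    by_contra hne
    exact (h.not_of_RR hr hv hne).1 hxv
  · rintro ⟨q, hq, hqv⟩
    exact (hr.sg s).trans (h.2 q hq).1 hqv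

theorem OK.RR_not {K : ℕ} {s : Bool} {x : V} {Q : Finset V} (hr : SO r) (h : OK K s r x Q)
    {v : V} (hv : v ∈ RR s r Q) : ¬ sg s r v x := by
  intro hvx
  by_cases hne : ∃ q ∈ Q, sg s r q v
  · obtain ⟨q, hq, hqv⟩ := hne
    exact (hr.sg s).asymm ((hr.sg s).trans (h.2 q hq).1 hqv) hvx
  · exact (h.not_of_RR hr hv hne).2 hvx

/-- Lemma 1: two orders with the same `Q` and the same candidates, the relation to `x` of the
elements which are not candidates. -/
theorem rel_eq_of_notMem_FF {K : ℕ} {s : Bool} {x : V} {Q : Finset V} (hr : SO r) (hr' : SO r')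
    (h : OK K s r x Q) (h' : OK K s r' x Q) {v : V}
    (hQv : ∀ q ∈ Q, (r q v ↔ r' q v) ∧ (r v q ↔ r' v q)) (hv : v ∉ FF s r Q) :
    (r x v ↔ r' x v) ∧ (r v x ↔ r' v x) := by
  have hsg : ∀ q ∈ Q, (sg s r q v ↔ sg s r' q v) ∧ (sg s r v q ↔ sg s r' v q) := by
    intro q hq
    cases s
    · simp only [sg_false, KR.dual]
      exact ⟨(hQv q hq).2, (hQv q hq).1⟩
    · simp only [sg_true]
      exact hQv q hq
  have hv' : v ∉ FF s r' Q := by
    intro hv'
    apply hv
    rw [mem_FF, mem_G1, mem_G2] at hv' ⊢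
    rcases hv' with ⟨h1, h2⟩ | ⟨h1, h2⟩
    · exact Or.inl ⟨h1, fun q hq => (hsg q hq).2.mpr (h2 q hq)⟩
    · refine Or.inr ⟨h1, fun q hq => ⟨fun h3 => (h2 q hq).1 ((hQv q hq).2.mp h3),
        fun h3 => (h2 q hq).2 ((hQv q hq).1.mp h3)⟩⟩
  have key : (sg s r x v ↔ sg s r' x v) ∧ (sg s r v x ↔ sg s r' v x) := by
    by_cases hvQ : v ∈ Q
    · have h1 := h.of_mem hvQ
      have h2 := h'.of_mem hvQ
      exact ⟨iff_of_true h1 h2, iff_of_false ((hr.sg s).asymm h1) ((hr'.sg s).asymm h2)⟩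
    · have h1 : v ∈ RR s r Q := mem_RR.mpr ⟨hvQ, hv⟩
      have h2 : v ∈ RR s r' Q := mem_RR.mpr ⟨hvQ, hv'⟩
      refine ⟨?_, iff_of_false (h.RR_not hr h1) (h'.RR_not hr' h2)⟩
      rw [h.RR_iff hr h1, h'.RR_iff hr' h2]
      constructor
      · rintro ⟨q, hq, hqv⟩
        exact ⟨q, hq, (hsg q hq).1.mp hqv⟩
      · rintro ⟨q, hq, hqv⟩
        exact ⟨q, hq, (hsg q hq).1.mpr hqv⟩
  cases s
  · simp only [sg_false, KR.dual] at key
    exact ⟨key.2, key.1⟩
  · simp only [sg_true] at key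
    exact key

/-- The candidates with the same bit. -/
theorem rel_eq_of_mem_FF {K : ℕ} {s : Bool} {x : V} {Q : Finset V} (hr : SO r) (hr' : SO r')
    (h : OK K s r x Q) (h' : OK K s r' x Q) (hQ : Q.Nonempty) {v : V}
    (hQv : ∀ q ∈ Q, (r q v ↔ r' q v) ∧ (r v q ↔ r' v q)) (hv : v ∈ FF s r Q)
    (hbit : (r x v ∨ r v x) ↔ (r' x v ∨ r' v x)) :
    (r x v ↔ r' x v) ∧ (r v x ↔ r' v x) := by
  have hFs : ∀ t, v ∈ Fs t s r Q → v ∈ Fs t s r' Q := by
    intro t ht
    rw [Fs] at ht ⊢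
    split_ifs at ht ⊢ with hst
    · rw [mem_G2] at ht ⊢
      exact ⟨ht.1, fun q hq => ⟨fun h3 => (ht.2 q hq).1 ((hQv q hq).2.mpr h3),
        fun h3 => (ht.2 q hq).2 ((hQv q hq).1.mpr h3)⟩⟩
    · rw [mem_G1] at ht ⊢
      refine ⟨ht.1, fun q hq => ?_⟩
      have h3 := ht.2 q hq
      cases s
      · simp only [sg_false, KR.dual] at h3 ⊢
        exact (hQv q hq).1.mp h3
      · simp only [sg_true] at h3 ⊢
        exact (hQv q hq).2.mp h3
  rcases mem_FF_iff.mp hv with h1 | h1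
  · have h2 := h.not_lt_of_above hr hQ h1
    have h3 := h'.not_lt_of_above hr' hQ (hFs _ h1)
    refine ⟨?_, iff_of_false h2 h3⟩
    constructor
    · intro h4
      exact (hbit.mp (Or.inl h4)).resolve_right h3
    · intro h4
      exact (hbit.mpr (Or.inl h4)).resolve_right h2
  · have h2 := h.not_gt_of_below hr hQ h1
    have h3 := h'.not_gt_of_below hr' hQ (hFs _ h1)
    refine ⟨iff_of_false h2 h3, ?_⟩
    constructor
    · intro h4
      exact (hbit.mp (Or.inr h4)).resolve_left h3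
    · intro h4
      exact (hbit.mpr (Or.inr h4)).resolve_left h2

/-! ### Lemma 2: the covers are candidates -/

theorem OK.cov_above {K : ℕ} {s : Bool} {x : V} {Q : Finset V} (hr : SO r) (h : OK K s r x Q)
    {v : V} (hv : Cov r x v) : v ∈ Fs true s r Q ∨ v ∈ Q := by
  by_cases hvQ : v ∈ Q
  · exact Or.inr hvQ
  left
  cases s
  · simp only [Fs, Bool.false_eq_true, if_false]
    rw [mem_G1]
    refine ⟨hvQ, fun q hq => ?_⟩
    have h1 := h.2 q hq
    rw [sg_false] at h1 ⊢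
    exact hr.trans h1.1 hv.1
  · simp only [Fs, if_true]
    rw [mem_G2]
    refine ⟨hvQ, fun q hq => ?_⟩
    have h1 := h.2 q hq
    rw [sg_true] at h1
    exact ⟨hv.not_rel h1, h1.not_rel hv⟩

theorem OK.cov_below {K : ℕ} {s : Bool} {x : V} {Q : Finset V} (hr : SO r) (h : OK K s r x Q)
    {v : V} (hv : Cov r v x) : v ∈ Fs false s r Q ∨ v ∈ Q := by
  by_cases hvQ : v ∈ Q
  · exact Or.inr hvQ
  left
  cases s
  · simp only [Fs, if_true]
    rw [mem_G2]
    refine ⟨hvQ, fun q hq => ?_⟩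
    have h1 := h.2 q hq
    rw [sg_false] at h1
    have h2 : Cov (KR.dual r) x v := cov_dual.mpr hv
    exact ⟨fun h3 => h1.not_rel h2 h3, fun h3 => h2.not_rel h1 h3⟩
  · simp only [Fs]
    rw [if_neg (by simp), mem_G1]
    refine ⟨hvQ, fun q hq => ?_⟩
    have h1 := h.2 q hq
    rw [sg_true] at h1 ⊢
    exact hr.trans hv.1 h1.1

end fin

end Pool.Agent.Lib.MP_5bc52d_co.KR
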