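import Pool.Agent.Lib.MP_5bc52d_co.KR.Basic

/-!
# The count of the orders of case C1
-/

namespace Pool.Agent.Lib.MP_5bc52d_co.KR

open Finset

namespace CountC1Proof

/-! ### Small sets -/

/-- few small subsets, with a free parameter -/
theorem small_le {α : Type*} [Fintype α] [DecidableEq α] (S : Finset (Finset α)) (t k : ℝ)
    (ht : 0 < t) (ht1 : t ≤ 1) (hS : ∀ X ∈ S, (X.card : ℝ) ≤ k) :
    (S.card : ℝ) * t ^ k ≤ (1 + t) ^ (Fintype.card α) := by
  have h1 : (S.card : ℝ) * t ^ k ≤ ∑ X ∈ S, t ^ X.card := by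
    rw [← nsmul_eq_mul, ← Finset.sum_const]
    refine Finset.sum_le_sum fun X hX => ?_
    rw [← Real.rpow_natCast]
    exact Real.rpow_le_rpow_of_exponent_ge ht ht1 (hS X hX)
  refine h1.trans ?_
  have h2 : ∑ X ∈ S, t ^ X.card ≤ ∑ X : Finset α, t ^ X.card :=
    Finset.sum_le_sum_of_subset_of_nonneg (Finset.subset_univ _) fun _ _ _ => by positivity
  refine h2.trans (le_of_eq ?_)
  have := Fintype.sum_pow_mul_eq_add_pow α t (1 : ℝ)
  simp only [one_pow, mul_one] at this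
  rw [this, add_comm]

/-- The number of small sets of pairs. -/
theorem few_small (η : ℝ) (hη : 0 < η) : ∃ κ : ℝ, 0 < κ ∧ ∀ n : ℕ,
    ∀ S : Finset (Finset (Fin n × Fin n)), (∀ X ∈ S, (X.card : ℝ) ≤ κ * (n : ℝ) ^ 2) →
      (S.card : ℝ) ≤ (2 : ℝ) ^ (η * (n : ℝ) ^ 2) := by
  -- choose t with 1 + t ≤ 2 ^ (η / 2)
  have h2 : (1 : ℝ) < (2 : ℝ) ^ (η / 2) := Real.one_lt_rpow (by norm_num) (by positivity)
  obtain ⟨t, ht, ht1, ht2⟩ : ∃ t : ℝ, 0 < t ∧ t < 1 ∧ 1 + t ≤ (2 : ℝ) ^ (η / 2) := by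
    refine ⟨min (1 / 2) ((2 : ℝ) ^ (η / 2) - 1), lt_min (by norm_num) (by linarith),
      lt_of_le_of_lt (min_le_left _ _) (by norm_num), ?_⟩
    have := min_le_right (1 / 2 : ℝ) ((2 : ℝ) ^ (η / 2) - 1)
    linarith
  -- the exponent with t = 2 ^ (-L)
  set L : ℝ := -Real.logb 2 t with hL
  have hLpos : 0 < L := by
    have : Real.logb 2 t < 0 := Real.logb_neg (by norm_num) ht ht1
    linarith
  have htL : t = (2 : ℝ) ^ (-L) := by
    rw [hL, neg_neg, Real.rpow_logb (by norm_num) (by norm_num) ht]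
  refine ⟨η / (2 * L), by positivity, fun n S hS => ?_⟩
  have h := small_le S t (η / (2 * L) * (n : ℝ) ^ 2) ht ht1.le hS
  have hcard : Fintype.card (Fin n × Fin n) = n ^ 2 := by
    rw [Fintype.card_prod, Fintype.card_fin, sq]
  rw [hcard] at h
  have e1 : t ^ (η / (2 * L) * (n : ℝ) ^ 2) = (2 : ℝ) ^ (-(η / 2 * (n : ℝ) ^ 2)) := by
    rw [htL, ← Real.rpow_mul (by norm_num)]
    congr 1
    field_simp
  have e2 : (1 + t) ^ (n ^ 2) ≤ (2 : ℝ) ^ (η / 2 * (n : ℝ) ^ 2) := by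
    calc (1 + t) ^ (n ^ 2) ≤ ((2 : ℝ) ^ (η / 2)) ^ (n ^ 2) :=
          pow_le_pow_left₀ (by positivity) ht2 _
      _ = (2 : ℝ) ^ (η / 2 * (n : ℝ) ^ 2) := by
          rw [← Real.rpow_natCast, ← Real.rpow_mul (by norm_num)]
          push_cast
          rfl
  rw [e1] at h
  have h3 : (S.card : ℝ) ≤ (2 : ℝ) ^ (η / 2 * (n : ℝ) ^ 2) * (2 : ℝ) ^ (η / 2 * (n : ℝ) ^ 2) := by
    have hp : 0 < (2 : ℝ) ^ (-(η / 2 * (n : ℝ) ^ 2)) := Real.rpow_pos_of_pos (by norm_num) _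
    have hp2 : 0 < (2 : ℝ) ^ (η / 2 * (n : ℝ) ^ 2) := Real.rpow_pos_of_pos (by norm_num) _
    have h4 : (S.card : ℝ) * (2 : ℝ) ^ (-(η / 2 * (n : ℝ) ^ 2)) ≤
        (2 : ℝ) ^ (η / 2 * (n : ℝ) ^ 2) := h.trans e2
    rw [Real.rpow_neg (by norm_num)] at h4
    have h5 := mul_le_mul_of_nonneg_right h4 hp2.le
    rwa [inv_mul_cancel_right₀ hp2.ne'] at h5
  rw [← Real.rpow_add (by norm_num)] at h3
  convert h3 using 2
  ring

/-! ### The allowed cover pairs -/

/-- the allowed cover pairs -/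
def al {n : ℕ} (g : Fin n → Fin 4) : Finset (Fin n × Fin n) :=
  Finset.univ.filter fun p => (g p.1 = 0 ∧ g p.2 = 3) ∨ (g p.1 = 2 ∧ g p.2 = 1)

/-- a class of the partition -/
def cl {n : ℕ} (g : Fin n → Fin 4) (i : Fin 4) : Finset (Fin n) :=
  Finset.univ.filter fun x => g x = i

theorem card_al {n : ℕ} (g : Fin n → Fin 4) :
    (al g).card = (cl g 0).card * (cl g 3).card + (cl g 2).card * (cl g 1).card := by
  have h : al g = (cl g 0 ×ˢ cl g 3) ∪ (cl g 2 ×ˢ cl g 1) := by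
    ext p
    simp [al, cl]
  rw [h, Finset.card_union_of_disjoint, Finset.card_product, Finset.card_product]
  rw [Finset.disjoint_left]
  intro p hp hp'
  simp only [cl, Finset.mem_product, Finset.mem_filter, Finset.mem_univ, true_and] at hp hp'
  rw [hp.1] at hp'
  exact absurd hp'.1 (by decide)

theorem card_cl {n : ℕ} (g : Fin n → Fin 4) :
    (cl g 0).card + (cl g 1).card + (cl g 2).card + (cl g 3).card = n := by
  have h := Finset.card_eq_sum_card_fiberwise (f := g) (s := Finset.univ) (t := Finset.univ)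
    (fun _ _ => Finset.mem_coe.mpr (Finset.mem_univ _))
  rw [Finset.card_univ, Fintype.card_fin, Fin.sum_univ_four] at h
  exact h.symm

/-- the classes are large -/
def Good {n : ℕ} (θ : ℝ) (g : Fin n → Fin 4) : Prop :=
  (θ * n ≤ ((cl g 0).card : ℝ) ∧ θ * n ≤ ((cl g 2).card : ℝ)) ∨
  (θ * n ≤ ((cl g 1).card : ℝ) ∧ θ * n ≤ ((cl g 3).card : ℝ))

theorem card_al_le {n : ℕ} {θ : ℝ} (hθ : 0 ≤ θ) {g : Fin n → Fin 4} (hg : Good θ g) :
    ((al g).card : ℝ) ≤ (n : ℝ) ^ 2 / 4 - θ ^ 2 * (n : ℝ) ^ 2 := by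
  have h1 : ((cl g 0).card : ℝ) + (cl g 1).card + (cl g 2).card + (cl g 3).card = n := by
    exact_mod_cast card_cl g
  rw [card_al]
  push_cast
  set a : ℝ := ((cl g 0).card : ℝ)
  set b : ℝ := ((cl g 1).card : ℝ)
  set c : ℝ := ((cl g 2).card : ℝ)
  set d : ℝ := ((cl g 3).card : ℝ)
  have ha : 0 ≤ a := Nat.cast_nonneg _
  have hb : 0 ≤ b := Nat.cast_nonneg _
  have hc : 0 ≤ c := Nat.cast_nonneg _
  have hd : 0 ≤ d := Nat.cast_nonneg _
  have hn : 0 ≤ θ * n := by positivity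
  have hsq : 4 * ((a + b) * (c + d)) ≤ (n : ℝ) ^ 2 := by
    rw [← h1]
    nlinarith [sq_nonneg ((a + b) - (c + d))]
  rcases hg with ⟨h0, h2⟩ | ⟨h0, h2⟩
  · have : θ * n * (θ * n) ≤ a * c := mul_le_mul h0 h2 hn ha
    nlinarith [mul_nonneg hb hd]
  · have : θ * n * (θ * n) ≤ b * d := mul_le_mul h0 h2 hn hb
    nlinarith [mul_nonneg ha hc]

/-! ### The count -/

open Classical in
/-- the cover pairs -/
noncomputable def cov {n : ℕ} (r : Fin n → Fin n → Prop) : Finset (Fin n × Fin n) :=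
  Finset.univ.filter fun p => Cov r p.1 p.2

theorem cov_inj {n : ℕ} {r r' : Fin n → Fin n → Prop} (h : SO r) (h' : SO r')
    (e : cov r = cov r') : r = r' := by
  refine eq_of_cov h h' fun x y => ?_
  have := Finset.ext_iff.mp e (x, y)
  simpa [cov] using this

open Classical in
/-- the orders with given anomalies -/
noncomputable def fib {n : ℕ} (g : Fin n → Fin 4) (X : Finset (Fin n × Fin n)) :
    Finset (Fin n → Fin n → Prop) :=
  Finset.univ.filter fun r => SO r ∧ cov r \ al g = X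

theorem card_fib {n : ℕ} (g : Fin n → Fin 4) (X : Finset (Fin n × Fin n)) :
    (fib g X).card ≤ 2 ^ (al g).card := by
  classical
  rw [← Finset.card_powerset]
  refine Finset.card_le_card_of_injOn (fun r => cov r ∩ al g) (fun r _ => ?_) ?_
  · exact Finset.mem_coe.mpr (Finset.mem_powerset.mpr Finset.inter_subset_right)
  · intro r hr r' hr' e
    simp only [fib, Finset.coe_filter, Finset.mem_univ, true_and, Set.mem_ofPred_eq] at hr hr'
    refine cov_inj hr.1 hr'.1 ?_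
    have e' : cov r ∩ al g = cov r' ∩ al g := e
    rw [← Finset.sdiff_union_inter (cov r) (al g), ← Finset.sdiff_union_inter (cov r') (al g),
      e', hr.2, hr'.2]

end CountC1Proof

open CountC1Proof in
/-- K9: the count of case C1 -/
theorem countC1 : CountC1 := by
  classical
  intro θ hθ
  obtain ⟨κ, hκ, hsmall⟩ := few_small (θ ^ 2 / 2) (by positivity)
  refine ⟨κ, hκ, ⌈2 / θ ^ 2⌉₊, fun n hn => ?_⟩
  have hn' : 2 / θ ^ 2 ≤ (n : ℝ) := (Nat.le_ceil _).trans (by exact_mod_cast hn)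
  set S : Finset (Finset (Fin n × Fin n)) :=
    Finset.univ.filter fun X => (X.card : ℝ) ≤ κ * (n : ℝ) ^ 2 with hS
  set T : Finset (Fin n → Fin 4) := Finset.univ.filter fun g => Good θ g with hT
  have hSc : (S.card : ℝ) ≤ (2 : ℝ) ^ (θ ^ 2 / 2 * (n : ℝ) ^ 2) :=
    hsmall n S fun X hX => (Finset.mem_filter.mp hX).2
  have hTc : (T.card : ℝ) ≤ (2 : ℝ) ^ (2 * (n : ℝ)) := by
    have h1 : T.card ≤ 4 ^ n := by
      refine (Finset.card_filter_le _ _).trans ?_
      simp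
    calc (T.card : ℝ) ≤ ((4 ^ n : ℕ) : ℝ) := by exact_mod_cast h1
      _ = (2 : ℝ) ^ (2 * (n : ℝ)) := by
          push_cast
          rw [Real.rpow_mul (by norm_num), Real.rpow_natCast]
          norm_num
  -- the union
  have hsub : (Finset.univ.filter fun r : Fin n → Fin n → Prop => SO r ∧ C1 θ κ n r) ⊆
      T.biUnion fun g => S.biUnion fun X => fib g X := by
    intro r hr
    obtain ⟨hso, g, hg, hX⟩ := (Finset.mem_filter.mp hr).2
    refine Finset.mem_biUnion.mpr ⟨g, Finset.mem_filter.mpr ⟨Finset.mem_univ _, ?_⟩,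
      Finset.mem_biUnion.mpr ⟨cov r \ al g, Finset.mem_filter.mpr ⟨Finset.mem_univ _, ?_⟩,
        Finset.mem_filter.mpr ⟨Finset.mem_univ _, hso, rfl⟩⟩⟩
    · rcases hg with h | h
      · left
        convert h using 4 <;> (ext x; simp [cl])
      · right
        convert h using 4 <;> (ext x; simp [cl])
    · refine le_trans (le_of_eq ?_) hX
      congr 2
      ext p
      simp [cov, al]
  have hcard : (num n (C1 θ κ n) : ℝ) ≤
      ∑ g ∈ T, ∑ X ∈ S, (2 : ℝ) ^ ((n : ℝ) ^ 2 / 4 - θ ^ 2 * (n : ℝ) ^ 2) := by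
    have h1 : num n (C1 θ κ n) ≤ ∑ g ∈ T, ∑ X ∈ S, (fib g X).card := by
      have h0 : num n (C1 θ κ n) ≤ (T.biUnion fun g => S.biUnion fun X => fib g X).card := by
        unfold num
        refine le_trans (le_of_eq ?_) (Finset.card_le_card hsub)
        congr 1
      refine h0.trans (Finset.card_biUnion_le.trans (Finset.sum_le_sum fun g _ => ?_))
      exact Finset.card_biUnion_le
    have h2 : (num n (C1 θ κ n) : ℝ) ≤ ∑ g ∈ T, ∑ X ∈ S, ((fib g X).card : ℝ) := by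
      exact_mod_cast h1
    refine h2.trans (Finset.sum_le_sum fun g hg => Finset.sum_le_sum fun X _ => ?_)
    have h3 : ((fib g X).card : ℝ) ≤ (2 : ℝ) ^ ((al g).card : ℝ) := by
      rw [Real.rpow_natCast]
      exact_mod_cast card_fib g X
    refine h3.trans (Real.rpow_le_rpow_of_exponent_le (by norm_num) ?_)
    exact card_al_le hθ.le (Finset.mem_filter.mp hg).2
  refine hcard.trans ?_
  rw [Finset.sum_const, Finset.sum_const, nsmul_eq_mul, nsmul_eq_mul]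
  have hp : ∀ z : ℝ, 0 ≤ (2 : ℝ) ^ z := fun z => (Real.rpow_pos_of_pos (by norm_num) z).le
  calc (T.card : ℝ) * ((S.card : ℝ) * (2 : ℝ) ^ ((n : ℝ) ^ 2 / 4 - θ ^ 2 * (n : ℝ) ^ 2))
      ≤ (2 : ℝ) ^ (2 * (n : ℝ)) * ((2 : ℝ) ^ (θ ^ 2 / 2 * (n : ℝ) ^ 2) *
        (2 : ℝ) ^ ((n : ℝ) ^ 2 / 4 - θ ^ 2 * (n : ℝ) ^ 2)) := by
        refine mul_le_mul hTc ?_ (by have := hp ((n : ℝ) ^ 2 / 4 - θ ^ 2 * (n : ℝ) ^ 2); positivity)
          (hp _)
        exact mul_le_mul_of_nonneg_right hSc (hp _)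
    _ = (2 : ℝ) ^ ((n : ℝ) ^ 2 / 4 + 2 * n - θ ^ 2 / 2 * (n : ℝ) ^ 2) := by
        rw [← Real.rpow_add (by norm_num), ← Real.rpow_add (by norm_num)]
        congr 1
        ring
    _ ≤ (2 : ℝ) ^ ((n : ℝ) ^ 2 / 4 + n) := by
        refine Real.rpow_le_rpow_of_exponent_le (by norm_num) ?_
        have h1 : 2 ≤ (n : ℝ) * θ ^ 2 := by
          rwa [div_le_iff₀ (by positivity)] at hn'
        have h0 : (0 : ℝ) ≤ n := Nat.cast_nonneg _
        nlinarith [mul_le_mul_of_nonneg_left h1 h0]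

end Pool.Agent.Lib.MP_5bc52d_co.KR
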