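import Mathlib
import Pool.Agent.Lib.MP_5bc52d_co.KR.Basic

/-!
# The engine: counting orders by removing a set of points
-/

namespace Pool.Agent.Lib.MP_5bc52d_co.KR

open Finset

/-- the restriction to the complement of `S` -/
def res {V : Type*} (S : Finset V) (r : V → V → Prop) : V → V → Prop :=
  fun x y => x ∉ S ∧ y ∉ S ∧ r x y

theorem res_iff {V : Type*} {S : Finset V} {r r' : V → V → Prop} (h : res S r = res S r')
    {x y : V} (hx : x ∉ S) (hy : y ∉ S) : r x y ↔ r' x y := by
  have h1 := congrFun (congrFun h x) y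
  simp only [res, eq_iff_iff] at h1
  constructor
  · intro h2
    exact (h1.mp ⟨hx, hy, h2⟩).2.2
  · intro h2
    exact (h1.mpr ⟨hx, hy, h2⟩).2.2

open Classical in
/-- The number of restrictions of orders. -/
theorem card_image_res {n k : ℕ} (S : Finset (Fin n)) (hS : S.card = k) :
    ((Finset.univ.filter fun r : Fin n → Fin n → Prop => SO r).image (res S)).card ≤
      numPO (n - k) := by
  have hcard : Fintype.card {x // x ∉ S} = n - k := by
    rw [Fintype.card_subtype_compl, Fintype.card_fin, Fintype.card_coe, hS]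
  let e : {x // x ∉ S} ≃ Fin (n - k) := Fintype.equivFinOfCardEq hcard
  rw [numPO]
  apply Finset.card_le_card_of_injOn
    (fun ρ : Fin n → Fin n → Prop => fun i j : Fin (n - k) =>
      ρ (e.symm i).1 (e.symm j).1)
  · intro ρ hρ
    rw [Finset.mem_coe, Finset.mem_image] at hρ
    obtain ⟨r, hr, rfl⟩ := hρ
    rw [Finset.mem_filter] at hr
    rw [Finset.mem_coe, Finset.mem_filter]
    refine ⟨Finset.mem_univ _, fun i hi => hr.2.1 _ hi.2.2, fun i j l hij hjl => ?_⟩
    exact ⟨hij.1, hjl.2.1, hr.2.2 _ _ _ hij.2.2 hjl.2.2⟩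
  · intro ρ hρ ρ' hρ' heq
    rw [Finset.mem_coe, Finset.mem_image] at hρ hρ'
    obtain ⟨r, -, rfl⟩ := hρ
    obtain ⟨r', -, rfl⟩ := hρ'
    funext x y
    apply propext
    by_cases hx : x ∈ S
    · exact iff_of_false (fun h => h.1 hx) (fun h => h.1 hx)
    by_cases hy : y ∈ S
    · exact iff_of_false (fun h => h.2.1 hy) (fun h => h.2.1 hy)
    have h1 := congrFun (congrFun heq (e ⟨x, hx⟩)) (e ⟨y, hy⟩)
    simp only [Equiv.symm_apply_apply, eq_iff_iff] at h1
    exact h1

open Classical in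
/-- The engine. -/
theorem engine {n k : ℕ} {D : Type} [Fintype D] (P : (Fin n → Fin n → Prop) → Prop)
    (P' : Finset (Fin n) → D → (Fin n → Fin n → Prop) → Prop) (M : ℝ) (hM : 0 ≤ M)
    (h1 : ∀ r, SO r → P r → ∃ S : Finset (Fin n), S.card = k ∧ ∃ d, P' S d r)
    (h2 : ∀ S : Finset (Fin n), S.card = k → ∀ d ρ,
      ((Finset.univ.filter fun r : Fin n → Fin n → Prop =>
        SO r ∧ P' S d r ∧ res S r = ρ).card : ℝ) ≤ M) :
    (num n P : ℝ) ≤ (n : ℝ) ^ k * Fintype.card D * M * numPO (n - k) := by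
  have hfib : ∀ S : Finset (Fin n), S.card = k → ∀ d,
      ((Finset.univ.filter fun r : Fin n → Fin n → Prop => SO r ∧ P' S d r).card : ℝ) ≤
        M * numPO (n - k) := by
    intro S hS d
    have h3 : (Finset.univ.filter fun r : Fin n → Fin n → Prop => SO r ∧ P' S d r).card =
        ∑ ρ ∈ (Finset.univ.filter fun r : Fin n → Fin n → Prop => SO r).image (res S),
          ((Finset.univ.filter fun r : Fin n → Fin n → Prop => SO r ∧ P' S d r).filter
            fun r => res S r = ρ).card := by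
      apply Finset.card_eq_sum_card_fiberwise
      intro r hr
      rw [Finset.mem_coe, Finset.mem_filter] at hr
      rw [Finset.mem_coe]
      exact Finset.mem_image_of_mem _ (Finset.mem_filter.mpr ⟨Finset.mem_univ _, hr.2.1⟩)
    rw [h3]
    push_cast
    calc _ ≤ ∑ ρ ∈ (Finset.univ.filter fun r : Fin n → Fin n → Prop => SO r).image (res S), M := by
          apply Finset.sum_le_sum
          intro ρ _
          have h4 := h2 S hS d ρ
          rw [Finset.filter_filter]
          refine le_trans (le_of_eq ?_) h4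
          congr 2
          ext r
          simp only [Finset.mem_filter, Finset.mem_univ, true_and, and_assoc]
      _ = (((Finset.univ.filter fun r : Fin n → Fin n → Prop => SO r).image
            (res S)).card : ℝ) * M := by
          rw [Finset.sum_const, nsmul_eq_mul]
      _ ≤ (numPO (n - k) : ℝ) * M := by
          apply mul_le_mul_of_nonneg_right _ hM
          exact_mod_cast card_image_res S hS
      _ = M * numPO (n - k) := mul_comm _ _
  have hsub : (Finset.univ.filter fun r : Fin n → Fin n → Prop => SO r ∧ P r) ⊆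
      ((Finset.powersetCard k (Finset.univ : Finset (Fin n))) ×ˢ
        (Finset.univ : Finset D)).biUnion
        (fun p => Finset.univ.filter fun r : Fin n → Fin n → Prop => SO r ∧ P' p.1 p.2 r) := by
    intro r hr
    rw [Finset.mem_filter] at hr
    obtain ⟨S, hS, d, hd⟩ := h1 r hr.2.1 hr.2.2
    rw [Finset.mem_biUnion]
    refine ⟨(S, d), ?_, Finset.mem_filter.mpr ⟨Finset.mem_univ _, hr.2.1, hd⟩⟩
    rw [Finset.mem_product, Finset.mem_powersetCard]
    exact ⟨⟨Finset.subset_univ _, hS⟩, Finset.mem_univ _⟩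
  have h5 : (num n P : ℝ) ≤ ∑ p ∈ (Finset.powersetCard k (Finset.univ : Finset (Fin n))) ×ˢ
        (Finset.univ : Finset D), M * numPO (n - k) := by
    have h6 : num n P ≤ ∑ p ∈ (Finset.powersetCard k (Finset.univ : Finset (Fin n))) ×ˢ
        (Finset.univ : Finset D),
        (Finset.univ.filter fun r : Fin n → Fin n → Prop => SO r ∧ P' p.1 p.2 r).card :=
      (Finset.card_le_card hsub).trans Finset.card_biUnion_le
    calc (num n P : ℝ) ≤ ((∑ p ∈ (Finset.powersetCard k (Finset.univ : Finset (Fin n))) ×ˢ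
        (Finset.univ : Finset D),
        (Finset.univ.filter fun r : Fin n → Fin n → Prop =>
          SO r ∧ P' p.1 p.2 r).card : ℕ) : ℝ) := by exact_mod_cast h6
      _ ≤ _ := by
        push_cast
        apply Finset.sum_le_sum
        intro p hp
        rw [Finset.mem_product, Finset.mem_powersetCard] at hp
        exact hfib p.1 hp.1.2 p.2
  refine h5.trans ?_
  rw [Finset.sum_const, nsmul_eq_mul, Finset.card_product, Finset.card_powersetCard,
    Finset.card_univ, Finset.card_univ, Fintype.card_fin]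
  have h7 : ((n.choose k : ℕ) : ℝ) ≤ (n : ℝ) ^ k := by
    exact_mod_cast Nat.choose_le_pow n k
  push_cast
  have h8 : (0 : ℝ) ≤ Fintype.card D * (M * numPO (n - k)) := by positivity
  calc ((n.choose k : ℕ) : ℝ) * Fintype.card D * (M * numPO (n - k))
      = ((n.choose k : ℕ) : ℝ) * (Fintype.card D * (M * numPO (n - k))) := by ring
    _ ≤ (n : ℝ) ^ k * (Fintype.card D * (M * numPO (n - k))) :=
        mul_le_mul_of_nonneg_right h7 h8
    _ = _ := by ring

open Classical in
/-- the set counted by `num` -/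
noncomputable def numSet (n : ℕ) (P : (Fin n → Fin n → Prop) → Prop) :
    Finset (Fin n → Fin n → Prop) :=
  Finset.univ.filter fun r : Fin n → Fin n → Prop => SO r ∧ P r

theorem num_eq (n : ℕ) (P : (Fin n → Fin n → Prop) → Prop) : num n P = (numSet n P).card := rfl

theorem mem_numSet {n : ℕ} {P : (Fin n → Fin n → Prop) → Prop} {r : Fin n → Fin n → Prop} :
    r ∈ numSet n P ↔ SO r ∧ P r := by
  simp [numSet]

/-- Duality. -/
theorem num_dual (n : ℕ) (P : (Fin n → Fin n → Prop) → Prop) :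
    num n P = num n (fun r => P (dual r)) := by
  rw [num_eq, num_eq]
  apply Finset.card_bij' (fun r _ => dual r) (fun r _ => dual r)
  · intro r hr
    rw [mem_numSet] at hr ⊢
    exact ⟨hr.1.dual, hr.2⟩
  · intro r hr
    rw [mem_numSet] at hr ⊢
    exact ⟨hr.1.dual, hr.2⟩
  · intro r _
    rfl
  · intro r _
    rfl

theorem num_mono {n : ℕ} {P P' : (Fin n → Fin n → Prop) → Prop}
    (h : ∀ r, SO r → P r → P' r) : num n P ≤ num n P' := by
  rw [num_eq, num_eq]
  apply Finset.card_le_card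
  intro r hr
  rw [mem_numSet] at hr ⊢
  exact ⟨hr.1, h r hr.1 hr.2⟩

theorem num_or_le {n : ℕ} (P P' : (Fin n → Fin n → Prop) → Prop) :
    num n (fun r => P r ∨ P' r) ≤ num n P + num n P' := by
  classical
  rw [num_eq, num_eq, num_eq]
  refine le_trans (Finset.card_le_card ?_) (Finset.card_union_le _ _)
  intro r hr
  rw [mem_numSet] at hr
  rw [Finset.mem_union, mem_numSet, mem_numSet]
  rcases hr.2 with h | h
  · exact Or.inl ⟨hr.1, h⟩
  · exact Or.inr ⟨hr.1, h⟩

theorem num_le_numPO (n : ℕ) (P : (Fin n → Fin n → Prop) → Prop) : num n P ≤ numPO n := by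
  classical
  rw [num, numPO]
  apply Finset.card_le_card
  intro r hr
  simp only [Finset.mem_filter, Finset.mem_univ, true_and] at hr ⊢
  exact hr.1

theorem numPO_eq (n : ℕ) : numPO n = num n (fun _ => True) := by
  classical
  rw [num_eq, numPO]
  congr 1
  ext r
  rw [mem_numSet]
  simp

/-- Powers are smaller than exponentials. -/
theorem absorb (A : ℝ) (j : ℕ) (a b : ℝ) (hab : a < b) :
    ∃ N : ℕ, ∀ n ≥ N, A * (n : ℝ) ^ j * (2 : ℝ) ^ (a * n) ≤ (2 : ℝ) ^ (b * n) := by
  have h1 : (1 : ℝ) < (2 : ℝ) ^ (b - a) :=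
    Real.one_lt_rpow (by norm_num) (by linarith)
  have h2 := tendsto_pow_const_div_const_pow_of_one_lt j h1
  have h3 : ∀ᶠ n : ℕ in Filter.atTop,
      (n : ℝ) ^ j / ((2 : ℝ) ^ (b - a)) ^ n < 1 / (|A| + 1) :=
    h2.eventually_lt_const (by positivity)
  obtain ⟨N, hN⟩ := Filter.eventually_atTop.mp h3
  refine ⟨N, fun n hn => ?_⟩
  have h4 := hN n hn
  have h5 : (0 : ℝ) < ((2 : ℝ) ^ (b - a)) ^ n := by positivity
  rw [div_lt_iff₀ h5] at h4
  have h6 : ((2 : ℝ) ^ (b - a)) ^ n * (2 : ℝ) ^ (a * n) = (2 : ℝ) ^ (b * n) := by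
    rw [← Real.rpow_natCast, ← Real.rpow_mul (by norm_num), ← Real.rpow_add (by norm_num)]
    congr 1
    ring
  have h7 : (0 : ℝ) < (2 : ℝ) ^ (a * n) := by positivity
  have h8 : A * (n : ℝ) ^ j ≤ ((2 : ℝ) ^ (b - a)) ^ n := by
    have h9 : (0 : ℝ) ≤ (n : ℝ) ^ j := by positivity
    have h10 : A * (n : ℝ) ^ j ≤ (|A| + 1) * (n : ℝ) ^ j := by
      apply mul_le_mul_of_nonneg_right _ h9
      linarith [le_abs_self A]
    have h11 : (0 : ℝ) < |A| + 1 := by positivity
    have h12 : (|A| + 1) * (n : ℝ) ^ j ≤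
        (|A| + 1) * (1 / (|A| + 1) * ((2 : ℝ) ^ (b - a)) ^ n) :=
      mul_le_mul_of_nonneg_left h4.le h11.le
    refine h10.trans (h12.trans (le_of_eq ?_))
    field_simp
  calc A * (n : ℝ) ^ j * (2 : ℝ) ^ (a * n)
      ≤ ((2 : ℝ) ^ (b - a)) ^ n * (2 : ℝ) ^ (a * n) :=
        mul_le_mul_of_nonneg_right h8 h7.le
    _ = _ := h6

/-- Injections into products. -/
theorem card_le_prod {α V β : Type*} [Fintype V] [DecidableEq V] [DecidableEq β]
    (F : Finset α) (A : V → Finset β) (c : α → V → β) (hinj : Set.InjOn c (F : Set α))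
    (hA : ∀ a ∈ F, ∀ v, c a v ∈ A v) : F.card ≤ ∏ v, (A v).card := by
  rw [← Fintype.card_piFinset]
  apply Finset.card_le_card_of_injOn c _ hinj
  intro a ha
  rw [Finset.mem_coe, Fintype.mem_piFinset]
  exact hA a ha

/-- Injections into the subsets of `T`. -/
theorem card_le_two_pow {α V : Type*} [DecidableEq V] (F : Finset α) (T : Finset V)
    (c : α → Finset V) (hinj : Set.InjOn c (F : Set α)) (hT : ∀ a ∈ F, c a ⊆ T) :
    F.card ≤ 2 ^ T.card := by
  rw [← Finset.card_powerset]
  apply Finset.card_le_card_of_injOn c _ hinj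
  intro a ha
  rw [Finset.mem_coe, Finset.mem_powerset]
  exact hT a ha

theorem two_pow_card_le {V : Type*} (T : Finset V) {x : ℝ} (h : (T.card : ℝ) ≤ x) :
    ((2 ^ T.card : ℕ) : ℝ) ≤ (2 : ℝ) ^ x := by
  push_cast
  rw [← Real.rpow_natCast]
  exact Real.rpow_le_rpow_of_exponent_le (by norm_num) h

theorem four_pow_eq (n : ℕ) : ((4 ^ n : ℕ) : ℝ) = (2 : ℝ) ^ (2 * (n : ℝ)) := by
  push_cast
  rw [Real.rpow_mul (by norm_num), Real.rpow_natCast]
  norm_num

end Pool.Agent.Lib.MP_5bc52d_co.KR
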