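import Mathlib

/-!
# The number of small subsets
-/

namespace Pool.Agent.Lib.MP_5bc52d_co.KR

open Finset

universe u

/-- the constant: `x + t log (1/x) ≤ η log 2` -/
theorem exists_entropy_const {η : ℝ} (hη : 0 < η) : ∃ t₀ : ℝ, 0 < t₀ ∧ ∃ x : ℝ, 0 < x ∧ x ≤ 1 ∧
    ∀ t : ℝ, t ≤ t₀ → x + t * (-Real.log x) ≤ η * Real.log 2 := by
  have hl2 : 0 < Real.log 2 := Real.log_pos (by norm_num)
  set x : ℝ := min 1 (η * Real.log 2 / 2) with hx
  have hx0 : 0 < x := lt_min one_pos (by positivity)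
  have hx1 : x ≤ 1 := min_le_left _ _
  have hx2 : x ≤ η * Real.log 2 / 2 := min_le_right _ _
  have hL : 0 ≤ -Real.log x := by
    have := Real.log_nonpos hx0.le hx1
    linarith
  refine ⟨η * Real.log 2 / 2 / (1 + -Real.log x), by positivity, x, hx0, hx1, fun t ht => ?_⟩
  have h1 : t * (-Real.log x) ≤ η * Real.log 2 / 2 := by
    calc t * (-Real.log x) ≤ (η * Real.log 2 / 2 / (1 + -Real.log x)) * (-Real.log x) :=
          mul_le_mul_of_nonneg_right ht hL
      _ = (η * Real.log 2 / 2) * ((-Real.log x) / (1 + -Real.log x)) := by ring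
      _ ≤ (η * Real.log 2 / 2) * 1 := by
          apply mul_le_mul_of_nonneg_left _ (by positivity)
          rw [div_le_one (by positivity)]
          linarith
      _ = η * Real.log 2 / 2 := mul_one _
  linarith

/-- The number of subsets of `A` of size at most `t m` is at most `2 ^ (η m)` if `#A ≤ m`. -/
theorem card_small_powerset {η : ℝ} (hη : 0 < η) : ∃ t₀ : ℝ, 0 < t₀ ∧ ∀ t : ℝ, t ≤ t₀ →
    ∀ (W : Type u) (A : Finset W) (m : ℝ), (A.card : ℝ) ≤ m →
      ((A.powerset.filter fun S : Finset W => (S.card : ℝ) ≤ t * m).card : ℝ) ≤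
        (2 : ℝ) ^ (η * m) := by
  obtain ⟨t₀, ht₀, x, hx0, hx1, hx⟩ := exists_entropy_const hη
  refine ⟨t₀, ht₀, fun t ht W A m hA => ?_⟩
  have hm : 0 ≤ m := le_trans (Nat.cast_nonneg _) hA
  have h1 : ∑ S ∈ A.powerset, x ^ S.card = (x + 1) ^ A.card := by
    have := Finset.sum_pow_mul_eq_add_pow x 1 A
    simpa using this
  have h2 : ((A.powerset.filter fun S : Finset W => (S.card : ℝ) ≤ t * m).card : ℝ) *
      x ^ (t * m) ≤ (x + 1) ^ A.card := by
    rw [← h1]
    calc ((A.powerset.filter fun S : Finset W => (S.card : ℝ) ≤ t * m).card : ℝ) * x ^ (t * m)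
        = ∑ S ∈ A.powerset.filter fun S : Finset W => (S.card : ℝ) ≤ t * m, x ^ (t * m) := by
          rw [Finset.sum_const, nsmul_eq_mul]
      _ ≤ ∑ S ∈ A.powerset.filter fun S : Finset W => (S.card : ℝ) ≤ t * m, x ^ S.card := by
          apply Finset.sum_le_sum
          intro S hS
          rw [Finset.mem_filter] at hS
          rw [← Real.rpow_natCast x S.card]
          exact Real.rpow_le_rpow_of_exponent_ge hx0 hx1 hS.2
      _ ≤ ∑ S ∈ A.powerset, x ^ S.card := by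
          apply Finset.sum_le_sum_of_subset_of_nonneg (Finset.filter_subset _ _)
          intro S _ _
          positivity
  have h3 : (x + 1) ^ A.card ≤ Real.exp (x * m) := by
    calc (x + 1) ^ A.card ≤ (Real.exp x) ^ A.card :=
          pow_le_pow_left₀ (by positivity) (Real.add_one_le_exp x) _
      _ = Real.exp (x * A.card) := by rw [← Real.exp_nat_mul]; ring_nf
      _ ≤ Real.exp (x * m) := by
          apply Real.exp_le_exp.mpr
          exact mul_le_mul_of_nonneg_left hA hx0.le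
  have h4 : x ^ (t * m) = Real.exp (Real.log x * (t * m)) := Real.rpow_def_of_pos hx0 _
  have h5 : (2 : ℝ) ^ (η * m) = Real.exp (Real.log 2 * (η * m)) :=
    Real.rpow_def_of_pos (by norm_num) _
  have hpos : 0 < x ^ (t * m) := Real.rpow_pos_of_pos hx0 _
  have h6 : ((A.powerset.filter fun S : Finset W => (S.card : ℝ) ≤ t * m).card : ℝ) ≤
      Real.exp (x * m) / x ^ (t * m) := by
    rw [le_div_iff₀ hpos]
    exact h2.trans h3
  refine h6.trans ?_
  rw [h4, h5, ← Real.exp_sub]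
  apply Real.exp_le_exp.mpr
  have := mul_le_mul_of_nonneg_right (hx t ht) hm
  nlinarith

/-- The number of subsets of `W` of size at most `t m` is at most `2 ^ (η m)` if `#W ≤ m`. -/
theorem card_small_subsets {η : ℝ} (hη : 0 < η) : ∃ t₀ : ℝ, 0 < t₀ ∧ ∀ t : ℝ, t ≤ t₀ →
    ∀ (W : Type u) [Fintype W] (m : ℝ), (Fintype.card W : ℝ) ≤ m →
      ((Finset.univ.filter fun S : Finset W => (S.card : ℝ) ≤ t * m).card : ℝ) ≤
        (2 : ℝ) ^ (η * m) := by
  obtain ⟨t₀, ht₀, h⟩ := card_small_powerset.{u} hη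
  refine ⟨t₀, ht₀, fun t ht W _ m hW => ?_⟩
  have := h t ht W Finset.univ m (by simpa using hW)
  rwa [Finset.powerset_univ] at this

/-- The case of subsets of `Fin n`. -/
theorem card_small_fin {η : ℝ} (hη : 0 < η) : ∃ t₀ : ℝ, 0 < t₀ ∧ ∀ t : ℝ, t ≤ t₀ →
    ∀ n : ℕ, ((Finset.univ.filter fun S : Finset (Fin n) => (S.card : ℝ) ≤ t * n).card : ℝ) ≤
        (2 : ℝ) ^ (η * n) := by
  obtain ⟨t₀, ht₀, h⟩ := card_small_subsets.{0} hη
  exact ⟨t₀, ht₀, fun t ht n => h t ht (Fin n) n (by simp)⟩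

/-- The case of sets of pairs, written as relations. -/
theorem card_small_rel {η : ℝ} (hη : 0 < η) : ∃ t₀ : ℝ, 0 < t₀ ∧ ∀ t : ℝ, t ≤ t₀ →
    ∀ n : ℕ, ((Finset.univ.filter fun S : Finset (Fin n × Fin n) =>
        (S.card : ℝ) ≤ t * (n : ℝ) ^ 2).card : ℝ) ≤ (2 : ℝ) ^ (η * (n : ℝ) ^ 2) := by
  obtain ⟨t₀, ht₀, h⟩ := card_small_subsets.{0} hη
  refine ⟨t₀, ht₀, fun t ht n => h t ht (Fin n × Fin n) ((n : ℝ) ^ 2) ?_⟩
  simp [sq]

/-- The number of predicates on `Fin n` true at at most `t n` points. -/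
theorem card_small_pred {η : ℝ} (hη : 0 < η) : ∃ t₀ : ℝ, 0 < t₀ ∧ ∀ t : ℝ, t ≤ t₀ →
    ∀ n : ℕ, ∀ (T : Finset (Finset (Fin n))), (∀ S ∈ T, (S.card : ℝ) ≤ t * n) →
      (T.card : ℝ) ≤ (2 : ℝ) ^ (η * n) := by
  obtain ⟨t₀, ht₀, h⟩ := card_small_fin hη
  refine ⟨t₀, ht₀, fun t ht n T hT => le_trans ?_ (h t ht n)⟩
  have : T ⊆ Finset.univ.filter fun S : Finset (Fin n) => (S.card : ℝ) ≤ t * n := by
    intro S hS
    rw [Finset.mem_filter]
    exact ⟨Finset.mem_univ _, hT S hS⟩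
  exact_mod_cast Finset.card_le_card this

end Pool.Agent.Lib.MP_5bc52d_co.KR
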