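import Mathlib
import Pool.Agent.Lib.MP_5bc52d_co.KR.Engine
import Pool.Agent.Lib.MP_5bc52d_co.KR.Entropy

/-!
# The orders of class `C2`
-/

namespace Pool.Agent.Lib.MP_5bc52d_co.KR

open Finset

namespace CC2

/-- the pairs which may be cover pairs -/
def PF {n : ℕ} (g : Fin n → Fin 4) : Finset (Fin n × Fin n) :=
  univ.filter fun p => (g p.1 = 0 ∧ g p.2 = 2) ∨ (g p.1 = 0 ∧ g p.2 = 3) ∨
    (g p.1 = 2 ∧ g p.2 = 1) ∨ (g p.1 = 1 ∧ g p.2 = 3)

/-- the first side -/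
def s0 {n : ℕ} (g : Fin n → Fin 4) : Finset (Fin n) := univ.filter fun x => g x = 0 ∨ g x = 1

theorem aux1 : ∀ a b : Fin 4,
    ((a = 0 ∧ b = 2) ∨ (a = 0 ∧ b = 3) ∨ (a = 2 ∧ b = 1) ∨ (a = 1 ∧ b = 3)) →
    ((a = 0 ∨ a = 1) → ¬ (b = 0 ∨ b = 1)) ∧ (¬ (a = 0 ∨ a = 1) → (b = 0 ∨ b = 1)) := by
  decide

theorem aux2 : ∀ a b : Fin 4,
    ((a = 0 ∧ b = 2) ∨ (a = 0 ∧ b = 3) ∨ (a = 2 ∧ b = 1) ∨ (a = 1 ∧ b = 3)) →
    ¬ ((b = 0 ∧ a = 2) ∨ (b = 0 ∧ a = 3) ∨ (b = 2 ∧ a = 1) ∨ (b = 1 ∧ a = 3)) := by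
  decide

theorem card_PF {n : ℕ} (g : Fin n → Fin 4) :
    (PF g).card ≤ (s0 g).card * (n - (s0 g).card) := by
  classical
  have h1 : ((s0 g)ᶜ).card = n - (s0 g).card := by
    rw [Finset.card_compl, Fintype.card_fin]
  rw [← h1, ← Finset.card_product]
  apply Finset.card_le_card_of_injOn (fun p => if p.1 ∈ s0 g then p else (p.2, p.1))
  · intro p hp
    simp only [PF, coe_filter, mem_univ, true_and, Set.mem_ofPred_eq] at hp
    obtain ⟨h2, h3⟩ := aux1 _ _ hp
    simp only [coe_product, Set.mem_prod, mem_coe, mem_compl]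
    by_cases h4 : p.1 ∈ s0 g
    · rw [if_pos h4]
      refine ⟨h4, fun h5 => ?_⟩
      simp only [s0, mem_filter, mem_univ, true_and] at h4 h5
      exact h2 h4 h5
    · rw [if_neg h4]
      refine ⟨?_, h4⟩
      simp only [s0, mem_filter, mem_univ, true_and] at h4 ⊢
      exact h3 h4
  · intro p hp q hq hpq
    simp only [PF, coe_filter, mem_univ, true_and, Set.mem_ofPred_eq] at hp hq
    by_cases h4 : p.1 ∈ s0 g <;> by_cases h5 : q.1 ∈ s0 g
    · simpa only [if_pos h4, if_pos h5] using hpq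
    · simp only [if_pos h4, if_neg h5] at hpq
      subst hpq
      exact absurd hp (aux2 _ _ hq)
    · simp only [if_neg h4, if_pos h5] at hpq
      subst hpq
      exact absurd hq (aux2 _ _ hp)
    · simp only [if_neg h4, if_neg h5, Prod.mk.injEq] at hpq
      exact Prod.ext hpq.2 hpq.1

theorem card_PF_le {n : ℕ} (g : Fin n → Fin 4) : ((PF g).card : ℝ) ≤ (n : ℝ) ^ 2 / 4 := by
  have h := card_PF g
  have h0 : (s0 g).card ≤ n := by simpa using Finset.card_le_univ (s0 g)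
  have h' : ((PF g).card : ℝ) ≤ ((s0 g).card : ℝ) * ((n : ℝ) - (s0 g).card) := by
    rw [← Nat.cast_sub h0]
    exact_mod_cast h
  nlinarith [sq_nonneg ((n : ℝ) - 2 * (s0 g).card)]

theorem aux3 : ∀ a b : Fin 4, (a = 0 ↔ b = 0) → (a = 3 ↔ b = 3) →
    ((a = 0 ∨ a = 1) ↔ (b = 0 ∨ b = 1)) → a = b := by
  decide

end CC2

open CC2

theorem countC2 : CountC2 := by
  classical
  obtain ⟨t₀, ht₀, hs⟩ := card_small_fin (η := 1 / 8) (by norm_num)
  refine ⟨t₀, ht₀, fun θ hθ0 hθ => ⟨0, fun n _ => ?_⟩⟩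
  set X := (univ : Finset (Finset (Fin n))).filter fun S => (S.card : ℝ) ≤ θ * n with hX
  set Y := (univ : Finset (Fin n → Fin 4)).filter fun g =>
    ((univ.filter fun x => g x = 0).card : ℝ) < θ * n ∧
    ((univ.filter fun x => g x = 3).card : ℝ) < θ * n with hY
  have hXc : (X.card : ℝ) ≤ (2 : ℝ) ^ ((1 / 8 : ℝ) * n) := by
    have := hs θ hθ n
    convert this
  have hYc : Y.card ≤ (X ×ˢ X ×ˢ (univ : Finset (Finset (Fin n)))).card := by
    apply Finset.card_le_card_of_injOn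
      (fun g => (univ.filter fun x => g x = 0, univ.filter fun x => g x = 3,
        univ.filter fun x => g x = 0 ∨ g x = 1))
    · intro g hg
      rw [mem_coe, hY, mem_filter] at hg
      rw [mem_coe, mem_product, mem_product, hX, mem_filter, mem_filter]
      exact ⟨⟨mem_univ _, hg.2.1.le⟩, ⟨mem_univ _, hg.2.2.le⟩, mem_univ _⟩
    · intro g _ g' _ hgg
      simp only [Prod.mk.injEq] at hgg
      obtain ⟨h1, h2, h3⟩ := hgg
      funext x
      have h1' := Finset.ext_iff.1 h1 x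
      have h2' := Finset.ext_iff.1 h2 x
      have h3' := Finset.ext_iff.1 h3 x
      simp only [mem_filter, mem_univ, true_and] at h1' h2' h3'
      exact aux3 _ _ h1' h2' h3'
  have hYc' : (Y.card : ℝ) ≤ (2 : ℝ) ^ (5 / 4 * (n : ℝ)) := by
    have h1 : ((X ×ˢ X ×ˢ (univ : Finset (Finset (Fin n)))).card : ℝ) =
        X.card * (X.card * (2 : ℝ) ^ (n : ℝ)) := by
      rw [card_product, card_product, card_univ, Fintype.card_finset, Fintype.card_fin,
        Real.rpow_natCast]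
      push_cast
      rfl
    have h2 : (Y.card : ℝ) ≤ X.card * (X.card * (2 : ℝ) ^ (n : ℝ)) := by
      rw [← h1]
      exact_mod_cast hYc
    refine h2.trans ?_
    calc (X.card : ℝ) * (X.card * (2 : ℝ) ^ (n : ℝ))
        ≤ (2 : ℝ) ^ ((1 / 8 : ℝ) * n) * ((2 : ℝ) ^ ((1 / 8 : ℝ) * n) * (2 : ℝ) ^ (n : ℝ)) := by
          gcongr
      _ = (2 : ℝ) ^ (5 / 4 * (n : ℝ)) := by
          rw [← Real.rpow_add (by norm_num), ← Real.rpow_add (by norm_num)]
          congr 1
          ring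
  have hsub : (Finset.univ.filter fun r : Fin n → Fin n → Prop => SO r ∧ C2 θ n r) ⊆
      Y.biUnion fun g => Finset.univ.filter fun r : Fin n → Fin n → Prop =>
        SO r ∧ ∀ x y, Cov r x y → (x, y) ∈ PF g := by
    intro r hr
    rw [mem_filter] at hr
    obtain ⟨g, h1, h2, h3⟩ := hr.2.2
    rw [mem_biUnion]
    refine ⟨g, ?_, ?_⟩
    · rw [hY, mem_filter]
      refine ⟨mem_univ _, ?_, ?_⟩
      · convert h1
      · convert h2
    · rw [mem_filter]
      refine ⟨mem_univ _, hr.2.1, fun x y hxy => ?_⟩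
      simp only [PF, mem_filter, mem_univ, true_and]
      exact h3 x y hxy
  have hfib : ∀ g : Fin n → Fin 4, ((Finset.univ.filter fun r : Fin n → Fin n → Prop =>
      SO r ∧ ∀ x y, Cov r x y → (x, y) ∈ PF g).card : ℝ) ≤ (2 : ℝ) ^ ((n : ℝ) ^ 2 / 4) := by
    intro g
    refine le_trans ?_ (two_pow_card_le (PF g) (card_PF_le g))
    have h1 : (Finset.univ.filter fun r : Fin n → Fin n → Prop =>
        SO r ∧ ∀ x y, Cov r x y → (x, y) ∈ PF g).card ≤ 2 ^ (PF g).card := by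
      apply card_le_two_pow _ (PF g)
        (fun r => (univ : Finset (Fin n × Fin n)).filter fun p => Cov r p.1 p.2)
      · intro r hr r' hr' hrr
        rw [mem_coe, mem_filter] at hr hr'
        apply eq_of_cov hr.2.1 hr'.2.1
        intro x y
        have := Finset.ext_iff.1 hrr (x, y)
        simpa only [mem_filter, mem_univ, true_and] using this
      · intro r hr p hp
        rw [mem_filter] at hr hp
        exact hr.2.2 p.1 p.2 hp.2
    exact_mod_cast h1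
  have h1 : (num n (C2 θ n) : ℝ) ≤ ∑ g ∈ Y, (2 : ℝ) ^ ((n : ℝ) ^ 2 / 4) := by
    have h2 : num n (C2 θ n) ≤ ∑ g ∈ Y, (Finset.univ.filter fun r : Fin n → Fin n → Prop =>
        SO r ∧ ∀ x y, Cov r x y → (x, y) ∈ PF g).card := by
      unfold num
      refine le_trans ?_ (Finset.card_biUnion_le)
      apply Finset.card_le_card
      convert hsub
    calc (num n (C2 θ n) : ℝ) ≤ ((∑ g ∈ Y, (Finset.univ.filter fun r : Fin n → Fin n → Prop =>
        SO r ∧ ∀ x y, Cov r x y → (x, y) ∈ PF g).card : ℕ) : ℝ) := by exact_mod_cast h2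
      _ ≤ _ := by
        push_cast
        exact Finset.sum_le_sum fun g _ => hfib g
  refine h1.trans ?_
  rw [Finset.sum_const, nsmul_eq_mul]
  calc (Y.card : ℝ) * (2 : ℝ) ^ ((n : ℝ) ^ 2 / 4)
      ≤ (2 : ℝ) ^ (5 / 4 * (n : ℝ)) * (2 : ℝ) ^ ((n : ℝ) ^ 2 / 4) :=
        mul_le_mul_of_nonneg_right hYc' (by positivity)
    _ = (2 : ℝ) ^ ((n : ℝ) ^ 2 / 4 + 5 / 4 * (n : ℝ)) := by
        rw [← Real.rpow_add (by norm_num)]
        congr 1
        ring

end Pool.Agent.Lib.MP_5bc52d_co.KR
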