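import Pool.Agent.Lib.MP_5bc52d_co.KR.Defs

set_option autoImplicit false

/-!
# The orders with three layers one of which is small
-/

namespace Pool.Agent.Lib.MP_5bc52d_co.KR

open Finset

namespace CD

/-- the number of the elements of colour `i` -/
def cs {n : ℕ} (g : Fin n → Fin 3) (i : Fin 3) : ℕ := (univ.filter fun x => g x = i).card

/-- the pairs of elements of consecutive layers -/
def PD {n : ℕ} (g : Fin n → Fin 3) : Finset (Fin n × Fin n) :=
  univ.filter fun p => (g p.1 = 0 ∧ g p.2 = 1) ∨ (g p.1 = 1 ∧ g p.2 = 2)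

theorem cs_sum {n : ℕ} (g : Fin n → Fin 3) : cs g 0 + cs g 1 + cs g 2 = n := by
  have h := Finset.card_eq_sum_card_fiberwise (f := g) (s := (univ : Finset (Fin n)))
    (t := (univ : Finset (Fin 3))) (fun x _ => by simp)
  rw [Finset.card_univ, Fintype.card_fin, Fin.sum_univ_three] at h
  exact h.symm

theorem card_PD {n : ℕ} (g : Fin n → Fin 3) : (PD g).card ≤ cs g 1 * (cs g 0 + cs g 2) := by
  classical
  have h : PD g ⊆ ((univ.filter fun x => g x = 0) ×ˢ (univ.filter fun x => g x = 1)) ∪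
      ((univ.filter fun x => g x = 1) ×ˢ (univ.filter fun x => g x = 2)) := by
    intro p hp
    simp only [PD, mem_filter, mem_univ, true_and, mem_union, mem_product] at hp ⊢
    exact hp
  refine (card_le_card h).trans ((card_union_le _ _).trans ?_)
  rw [card_product, card_product]
  unfold cs
  nlinarith

theorem card_PD_le {n : ℕ} (g : Fin n → Fin 3) : ((PD g).card : ℝ) ≤ (n : ℝ) ^ 2 / 4 := by
  have h := card_PD g
  have h1 := cs_sum g
  have h' : ((PD g).card : ℝ) ≤ (cs g 1 : ℝ) * ((cs g 0 : ℝ) + (cs g 2 : ℝ)) := by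
    exact_mod_cast h
  have h1' : (cs g 0 : ℝ) + (cs g 1 : ℝ) + (cs g 2 : ℝ) = n := by exact_mod_cast h1
  have h2 : (n : ℝ) - cs g 1 = cs g 0 + cs g 2 := by linarith
  rw [← h2] at h'
  nlinarith [sq_nonneg ((n : ℝ) - 2 * cs g 1)]

/-- the number of the small subsets -/
theorem small_sets {n : ℕ} {δ : ℝ} (hδ : δ ≤ 1 / 80) :
    (((univ : Finset (Finset (Fin n))).filter fun S => (S.card : ℝ) < δ * n).card : ℝ) ≤
      (2 : ℝ) ^ ((n : ℝ) / 8) := by
  classical
  set X := (univ : Finset (Finset (Fin n))).filter fun S => (S.card : ℝ) < δ * n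
  have h1 : ∑ S ∈ (univ : Finset (Fin n)).powerset, (1 / 32 : ℝ) ^ S.card *
      (1 : ℝ) ^ ((univ : Finset (Fin n)).card - S.card) =
      (1 / 32 + 1 : ℝ) ^ (univ : Finset (Fin n)).card :=
    Finset.sum_pow_mul_eq_add_pow _ _ _
  simp only [one_pow, mul_one, card_univ, Fintype.card_fin, powerset_univ] at h1
  have h2 : (X.card : ℝ) * (2 : ℝ) ^ (-((n : ℝ) / 16)) ≤ ∑ S ∈ X, (1 / 32 : ℝ) ^ S.card := by
    rw [← nsmul_eq_mul]
    apply Finset.card_nsmul_le_sum
    intro S hS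
    have hS' : (S.card : ℝ) < δ * n := by simpa [X] using hS
    have h3 : (1 / 32 : ℝ) ^ S.card = (2 : ℝ) ^ (-(5 * (S.card : ℝ))) := by
      rw [Real.rpow_neg (by norm_num), Real.rpow_mul (by norm_num), Real.rpow_natCast,
        ← inv_pow]
      norm_num
    rw [h3]
    apply Real.rpow_le_rpow_of_exponent_le (by norm_num)
    have hn : (0 : ℝ) ≤ n := Nat.cast_nonneg n
    nlinarith
  have h3 : ∑ S ∈ X, (1 / 32 : ℝ) ^ S.card ≤ ∑ S : Finset (Fin n), (1 / 32 : ℝ) ^ S.card :=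
    Finset.sum_le_sum_of_subset_of_nonneg (subset_univ _) (fun _ _ _ => by positivity)
  rw [h1] at h3
  have h4 : (1 / 32 + 1 : ℝ) ^ n ≤ (2 : ℝ) ^ ((n : ℝ) / 16) := by
    have h5 : (1 / 32 + 1 : ℝ) ^ (16 : ℝ) ≤ 2 := by
      have : (1 / 32 + 1 : ℝ) ^ (16 : ℝ) = (1 / 32 + 1 : ℝ) ^ (16 : ℕ) := by
        rw [← Real.rpow_natCast]; norm_num
      rw [this]
      norm_num
    have h6 : (1 / 32 + 1 : ℝ) ^ n = ((1 / 32 + 1 : ℝ) ^ (16 : ℝ)) ^ ((n : ℝ) / 16) := by
      rw [← Real.rpow_mul (by norm_num), ← Real.rpow_natCast]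
      congr 1
      ring
    rw [h6]
    exact Real.rpow_le_rpow (by positivity) h5 (by positivity)
  have h7 : (X.card : ℝ) * (2 : ℝ) ^ (-((n : ℝ) / 16)) ≤ (2 : ℝ) ^ ((n : ℝ) / 16) :=
    h2.trans (h3.trans h4)
  have h8 : (X.card : ℝ) = (X.card : ℝ) * (2 : ℝ) ^ (-((n : ℝ) / 16)) * (2 : ℝ) ^ ((n : ℝ) / 16) := by
    rw [mul_assoc, ← Real.rpow_add (by norm_num)]
    simp
  rw [h8]
  have h9 : (2 : ℝ) ^ ((n : ℝ) / 8) = (2 : ℝ) ^ ((n : ℝ) / 16) * (2 : ℝ) ^ ((n : ℝ) / 16) := by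
    rw [← Real.rpow_add (by norm_num)]
    congr 1
    ring
  rw [h9]
  exact mul_le_mul_of_nonneg_right h7 (by positivity)

theorem fin3_aux : ∀ i a b : Fin 3, (a = i ↔ b = i) → (a = i + 1 ↔ b = i + 1) → a = b := by
  decide

/-- colourings with a small class -/
theorem small_col {n : ℕ} {δ : ℝ} (hδ : δ ≤ 1 / 80) (i : Fin 3) :
    (((univ : Finset (Fin n → Fin 3)).filter fun g => (cs g i : ℝ) < δ * n).card : ℝ) ≤
      (2 : ℝ) ^ ((n : ℝ) / 8) * 2 ^ (n : ℝ) := by
  classical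
  set X := (univ : Finset (Finset (Fin n))).filter fun S => (S.card : ℝ) < δ * n with hX
  have h1 : ((univ : Finset (Fin n → Fin 3)).filter fun g => (cs g i : ℝ) < δ * n).card ≤
      (X ×ˢ (univ : Finset (Finset (Fin n)))).card := by
    apply Finset.card_le_card_of_injOn
      (fun g => (univ.filter fun x => g x = i, univ.filter fun x => g x = i + 1))
    · intro g hg
      simp only [coe_filter, mem_univ, true_and, Set.mem_ofPred_eq] at hg
      simp only [coe_product, coe_univ, Set.mem_prod, Set.mem_univ, and_true, mem_coe, hX,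
        mem_filter, mem_univ, true_and]
      exact hg
    · intro g _ g' _ hgg
      simp only [Prod.mk.injEq] at hgg
      obtain ⟨h2, h3⟩ := hgg
      funext x
      have h2' := Finset.ext_iff.1 h2 x
      have h3' := Finset.ext_iff.1 h3 x
      simp only [mem_filter, mem_univ, true_and] at h2' h3'
      exact fin3_aux i _ _ h2' h3'
  have h2 : ((X ×ˢ (univ : Finset (Finset (Fin n)))).card : ℝ) = X.card * 2 ^ (n : ℝ) := by
    rw [card_product]
    push_cast
    congr 1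
    rw [card_univ, Fintype.card_finset, Fintype.card_fin, Real.rpow_natCast]
    push_cast
    rfl
  calc _ ≤ ((X ×ˢ (univ : Finset (Finset (Fin n)))).card : ℝ) := by exact_mod_cast h1
    _ = X.card * 2 ^ (n : ℝ) := h2
    _ ≤ _ := mul_le_mul_of_nonneg_right (small_sets hδ) (by positivity)

/-- the relation with the given layers and the given pairs of consecutive layers -/
def mk {n : ℕ} (g : Fin n → Fin 3) (E : Finset (Fin n × Fin n)) : Fin n → Fin n → Prop :=
  fun x y => (g x = 0 ∧ g y = 2) ∨ (x, y) ∈ E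

open Classical in
/-- The orders with layers from `Y` are counted by the sum of `2 ^ |PD g|`. -/
theorem num_le {n : ℕ} (P : (Fin n → Fin n → Prop) → Prop) (Y : Finset (Fin n → Fin 3))
    (h : ∀ r, P r → ∃ g ∈ Y, (∀ x y, r x y → (g x = 0 ∧ g y = 1) ∨ (g x = 1 ∧ g y = 2) ∨
      (g x = 0 ∧ g y = 2)) ∧ ∀ x y, g x = 0 → g y = 2 → r x y) (M : ℝ)
    (hM : ∀ g ∈ Y, (2 : ℝ) ^ (PD g).card ≤ M) :
    (num n P : ℝ) ≤ Y.card * M := by
  have h1 : (Finset.univ.filter fun r : Fin n → Fin n → Prop => SO r ∧ P r) ⊆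
      Y.biUnion fun g => (PD g).powerset.image fun E => mk g E := by
    intro r hr
    simp only [mem_filter, mem_univ, true_and] at hr
    obtain ⟨g, hg, h2, h3⟩ := h r hr.2
    rw [mem_biUnion]
    refine ⟨g, hg, ?_⟩
    rw [mem_image]
    refine ⟨(PD g).filter fun p => r p.1 p.2, ?_, ?_⟩
    · rw [mem_powerset]
      exact filter_subset _ _
    · funext x y
      apply propext
      simp only [mk, PD, mem_filter, mem_univ, true_and]
      constructor
      · rintro (⟨h4, h5⟩ | ⟨-, h4⟩)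
        · exact h3 x y h4 h5
        · exact h4
      · intro h4
        rcases h2 x y h4 with h5 | h5 | h5
        · exact Or.inr ⟨Or.inl h5, h4⟩
        · exact Or.inr ⟨Or.inr h5, h4⟩
        · exact Or.inl h5
  have h2 : num n P ≤ ∑ g ∈ Y, 2 ^ (PD g).card := by
    unfold num
    refine (card_le_card h1).trans (card_biUnion_le.trans ?_)
    apply Finset.sum_le_sum
    intro g _
    exact card_image_le.trans (by rw [card_powerset])
  calc (num n P : ℝ) ≤ ((∑ g ∈ Y, 2 ^ (PD g).card : ℕ) : ℝ) := by exact_mod_cast h2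
    _ = ∑ g ∈ Y, (2 : ℝ) ^ (PD g).card := by push_cast; rfl
    _ ≤ Y.card • M := Finset.sum_le_card_nsmul _ _ _ hM
    _ = Y.card * M := by rw [nsmul_eq_mul]

end CD

open CD

theorem countD : CountD := by
  classical
  refine ⟨1 / 80, by norm_num, fun δ hδ0 hδ => ⟨100, fun n hn => ?_⟩⟩
  have hn' : (100 : ℝ) ≤ n := by exact_mod_cast hn
  set Y0 := (univ : Finset (Fin n → Fin 3)).filter fun g => (cs g 0 : ℝ) < δ * n with hY0
  set Y1 := (univ : Finset (Fin n → Fin 3)).filter fun g => (cs g 1 : ℝ) < δ * n with hY1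
  set Y2 := (univ : Finset (Fin n → Fin 3)).filter fun g => (cs g 2 : ℝ) < δ * n with hY2
  -- the layers as a colouring
  have key : ∀ r : Fin n → Fin n → Prop, (Lay3 r ∧ ¬ LayB δ n r) →
      ∃ g : Fin n → Fin 3, (g ∈ Y0 ∨ g ∈ Y1 ∨ g ∈ Y2) ∧
      (∀ x y, r x y → (g x = 0 ∧ g y = 1) ∨ (g x = 1 ∧ g y = 2) ∨ (g x = 0 ∧ g y = 2)) ∧
      ∀ x y, g x = 0 → g y = 2 → r x y := by
    rintro r ⟨⟨A, B, C, hcov, hAB, hBC, hAC, hr, hac⟩, hnot⟩
    have gA : ∀ x, (if x ∈ A then (0 : Fin 3) else if x ∈ B then 1 else 2) = 0 ↔ x ∈ A := by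
      intro x; split_ifs <;> simp_all
    have gB : ∀ x, (if x ∈ A then (0 : Fin 3) else if x ∈ B then 1 else 2) = 1 ↔ x ∈ B := by
      intro x
      by_cases h1 : x ∈ A
      · have h2 : x ∉ B := fun h => Finset.disjoint_left.1 hAB h1 h
        simp [h1, h2]
      · by_cases h2 : x ∈ B <;> simp [h1, h2]
    have gC : ∀ x, (if x ∈ A then (0 : Fin 3) else if x ∈ B then 1 else 2) = 2 ↔ x ∈ C := by
      intro x
      by_cases h1 : x ∈ A
      · have h2 : x ∉ C := fun h => Finset.disjoint_left.1 hAC h1 h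
        simp [h1, h2]
      · by_cases h2 : x ∈ B
        · have h3 : x ∉ C := fun h => Finset.disjoint_left.1 hBC h2 h
          simp [h1, h2, h3]
        · have h3 : x ∈ C := by
            rcases hcov x with h | h | h
            · exact absurd h h1
            · exact absurd h h2
            · exact h
          simp [h1, h2, h3]
    refine ⟨fun x => if x ∈ A then 0 else if x ∈ B then 1 else 2, ?_, ?_, ?_⟩
    · have c0 : cs (fun x => if x ∈ A then (0 : Fin 3) else if x ∈ B then 1 else 2) 0 = A.card := by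
        unfold cs
        congr 1
        ext x
        simp only [mem_filter, mem_univ, true_and, gA]
      have c1 : cs (fun x => if x ∈ A then (0 : Fin 3) else if x ∈ B then 1 else 2) 1 = B.card := by
        unfold cs
        congr 1
        ext x
        simp only [mem_filter, mem_univ, true_and, gB]
      have c2 : cs (fun x => if x ∈ A then (0 : Fin 3) else if x ∈ B then 1 else 2) 2 = C.card := by
        unfold cs
        congr 1
        ext x
        simp only [mem_filter, mem_univ, true_and, gC]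
      simp only [hY0, hY1, hY2, mem_filter, mem_univ, true_and, c0, c1, c2]
      by_contra hcon
      push Not at hcon
      exact hnot ⟨A, B, C, ⟨hcov, hAB, hBC, hAC, hcon.1, hcon.2.1, hcon.2.2⟩, hr, hac⟩
    · intro x y hxy
      simp only [gA, gB, gC]
      exact hr x y hxy
    · intro x y hx hy
      rw [gA] at hx
      rw [gC] at hy
      exact hac x hx y hy
  -- bounds
  have b0 : (num n (fun r => (Lay3 r ∧ ¬ LayB δ n r)) : ℝ) ≤
      (Y0 ∪ Y2).card * (2 : ℝ) ^ ((n : ℝ) ^ 2 / 4) + Y1.card * (2 : ℝ) ^ ((n : ℝ) ^ 2 / 80) := by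
    have hsplit : (num n (fun r => (Lay3 r ∧ ¬ LayB δ n r)) : ℝ) ≤
        (num n (fun r => ∃ g ∈ Y0 ∪ Y2, (∀ x y, r x y → (g x = 0 ∧ g y = 1) ∨
          (g x = 1 ∧ g y = 2) ∨ (g x = 0 ∧ g y = 2)) ∧ ∀ x y, g x = 0 → g y = 2 → r x y) : ℝ) +
        (num n (fun r => ∃ g ∈ Y1, (∀ x y, r x y → (g x = 0 ∧ g y = 1) ∨
          (g x = 1 ∧ g y = 2) ∨ (g x = 0 ∧ g y = 2)) ∧ ∀ x y, g x = 0 → g y = 2 → r x y) : ℝ) := by
      unfold num
      rw [← Nat.cast_add]
      norm_cast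
      refine le_trans (card_le_card ?_) (card_union_le _ _)
      intro r hr
      simp only [mem_filter, mem_univ, true_and, mem_union] at hr ⊢
      obtain ⟨g, hg, h1, h2⟩ := key r hr.2
      rcases hg with hg | hg | hg
      · exact Or.inl ⟨hr.1, g, Or.inl hg, h1, h2⟩
      · exact Or.inr ⟨hr.1, g, hg, h1, h2⟩
      · exact Or.inl ⟨hr.1, g, Or.inr hg, h1, h2⟩
    refine hsplit.trans (add_le_add ?_ ?_)
    · refine num_le _ (Y0 ∪ Y2) (fun r hr => hr) _ (fun g _ => ?_)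
      rw [← Real.rpow_natCast]
      exact Real.rpow_le_rpow_of_exponent_le (by norm_num) (card_PD_le g)
    · refine num_le _ Y1 (fun r hr => hr) _ (fun g hg => ?_)
      rw [← Real.rpow_natCast]
      apply Real.rpow_le_rpow_of_exponent_le (by norm_num)
      have hg' : (cs g 1 : ℝ) < δ * n := by simpa [hY1] using hg
      have h1 : ((PD g).card : ℝ) ≤ (cs g 1 : ℝ) * ((cs g 0 : ℝ) + (cs g 2 : ℝ)) := by
        exact_mod_cast card_PD g
      have h2 : (cs g 0 : ℝ) + (cs g 1 : ℝ) + (cs g 2 : ℝ) = n := by exact_mod_cast cs_sum g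
      have h3 : (cs g 0 : ℝ) + (cs g 2 : ℝ) ≤ n := by
        have : (0 : ℝ) ≤ cs g 1 := Nat.cast_nonneg _
        linarith
      have h4 : (0 : ℝ) ≤ (cs g 0 : ℝ) + (cs g 2 : ℝ) := by positivity
      have h5 : (cs g 1 : ℝ) ≤ n / 80 := by nlinarith
      calc ((PD g).card : ℝ) ≤ (cs g 1 : ℝ) * ((cs g 0 : ℝ) + (cs g 2 : ℝ)) := h1
        _ ≤ (n / 80) * n := mul_le_mul h5 h3 h4 (by positivity)
        _ = (n : ℝ) ^ 2 / 80 := by ring
  have e0 : ((Y0 ∪ Y2).card : ℝ) ≤ 2 * ((2 : ℝ) ^ ((n : ℝ) / 8) * 2 ^ (n : ℝ)) := by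
    have h1 : ((Y0 ∪ Y2).card : ℝ) ≤ (Y0.card : ℝ) + (Y2.card : ℝ) := by
      exact_mod_cast card_union_le _ _
    have h2 := small_col (n := n) hδ 0
    have h3 := small_col (n := n) hδ 2
    linarith
  have e1 : (Y1.card : ℝ) ≤ (2 : ℝ) ^ (2 * (n : ℝ)) := by
    have h1 : Y1.card ≤ 3 ^ n := by
      refine (card_le_univ _).trans ?_
      rw [Fintype.card_fun, Fintype.card_fin, Fintype.card_fin]
    have h2 : ((3 : ℝ)) ^ n ≤ (2 : ℝ) ^ (2 * (n : ℝ)) := by
      rw [Real.rpow_mul (by norm_num), Real.rpow_natCast]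
      exact pow_le_pow_left₀ (by norm_num) (by norm_num) n
    calc (Y1.card : ℝ) ≤ ((3 ^ n : ℕ) : ℝ) := by exact_mod_cast h1
      _ = (3 : ℝ) ^ n := by push_cast; rfl
      _ ≤ _ := h2
  refine b0.trans ?_
  have f0 : ((Y0 ∪ Y2).card : ℝ) * (2 : ℝ) ^ ((n : ℝ) ^ 2 / 4) ≤
      (2 : ℝ) ^ ((n : ℝ) ^ 2 / 4 + 5 / 4 * n - 1) := by
    calc ((Y0 ∪ Y2).card : ℝ) * (2 : ℝ) ^ ((n : ℝ) ^ 2 / 4)
        ≤ (2 * ((2 : ℝ) ^ ((n : ℝ) / 8) * 2 ^ (n : ℝ))) * (2 : ℝ) ^ ((n : ℝ) ^ 2 / 4) :=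
          mul_le_mul_of_nonneg_right e0 (by positivity)
      _ = (2 : ℝ) ^ (1 + ((n : ℝ) / 8 + n) + (n : ℝ) ^ 2 / 4) := by
          rw [Real.rpow_add (by norm_num), Real.rpow_add (by norm_num : (0 : ℝ) < 2) 1,
            Real.rpow_add (by norm_num : (0 : ℝ) < 2) ((n : ℝ) / 8), Real.rpow_one]
      _ ≤ _ := by
          apply Real.rpow_le_rpow_of_exponent_le (by norm_num)
          linarith
  have f1 : (Y1.card : ℝ) * (2 : ℝ) ^ ((n : ℝ) ^ 2 / 80) ≤
      (2 : ℝ) ^ ((n : ℝ) ^ 2 / 4 + 5 / 4 * n - 1) := by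
    calc (Y1.card : ℝ) * (2 : ℝ) ^ ((n : ℝ) ^ 2 / 80)
        ≤ (2 : ℝ) ^ (2 * (n : ℝ)) * (2 : ℝ) ^ ((n : ℝ) ^ 2 / 80) :=
          mul_le_mul_of_nonneg_right e1 (by positivity)
      _ = (2 : ℝ) ^ (2 * (n : ℝ) + (n : ℝ) ^ 2 / 80) := by
          rw [Real.rpow_add (by norm_num)]
      _ ≤ _ := by
          apply Real.rpow_le_rpow_of_exponent_le (by norm_num)
          nlinarith
  have f2 : (2 : ℝ) ^ ((n : ℝ) ^ 2 / 4 + 5 / 4 * n) =
      (2 : ℝ) ^ ((n : ℝ) ^ 2 / 4 + 5 / 4 * n - 1) + (2 : ℝ) ^ ((n : ℝ) ^ 2 / 4 + 5 / 4 * n - 1) := by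
    rw [← two_mul]
    nth_rewrite 2 [← Real.rpow_one (2 : ℝ)]
    rw [← Real.rpow_add (by norm_num)]
    congr 1
    ring
  rw [f2]
  exact add_le_add f0 f1

end Pool.Agent.Lib.MP_5bc52d_co.KR
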