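import Mathlib
import Pool.Agent.Lib.MP_5bc52d_co.KR.Defs

/-!
# The interface between the modules K7 and K8
-/

namespace Pool.Agent.Lib.MP_5bc52d_co.KR

open Classical in
/-- The outcome of module K7: two sides, and for each `x` the candidates above (`Fp x`) and below
(`Fm x`). -/
structure Sided (δ m : ℝ) (n : ℕ) (r : Fin n → Fin n → Prop)
    (Fp Fm : Fin n → Finset (Fin n)) (side : Fin n → Bool) : Prop where
  disj : ∀ x, Disjoint (Fp x) (Fm x)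
  size : ∀ x, (n : ℝ) / 4 ≤ ((Fp x).card : ℝ) + (Fm x).card
  cov : ∀ x y, Cov r x y → side x ≠ side y
  deg : ∀ x, δ * n ≤ ((Nb r x).card : ℝ)
  up : ∀ x, ((Finset.univ.filter fun y => Cov r x y).card : ℝ) ≤ (Fp x).card + m * n
  dn : ∀ x, ((Finset.univ.filter fun y => Cov r y x).card : ℝ) ≤ (Fm x).card + m * n
  incp : ∀ x y, side x = side y → ¬ r x y → ¬ r y x → ((Fp y).card : ℝ) ≤ (Fp x).card + m * n
  incm : ∀ x y, side x = side y → ¬ r x y → ¬ r y x → ((Fm y).card : ℝ) ≤ (Fm x).card + m * n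
  ltm : ∀ x y, side x = side y → r x y → ((Fm x).card : ℝ) ≤ m * n
  ltp : ∀ x y, side x = side y → r x y → ((Fp y).card : ℝ) ≤ m * n

/-- K7 -/
def Sides : Prop :=
  ∀ δ m : ℝ, 0 < δ → δ ≤ 1 → 0 < m → ∃ ε₀ : ℝ, 0 < ε₀ ∧ ∀ ε, 0 < ε → ε ≤ ε₀ → ∀ K : ℕ, 1 ≤ K →
    ∃ N : ℕ, ∀ n ≥ N, ∀ r : Fin n → Fin n → Prop, Gen δ ε K n r →
      ∃ Fp Fm side, Sided δ m n r Fp Fm side

/-- K8 -/
def FromSides : Prop :=
  ∀ (δ m κ : ℝ) (n : ℕ) (r : Fin n → Fin n → Prop) (Fp Fm : Fin n → Finset (Fin n))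
    (side : Fin n → Bool), SO r → 0 < δ → δ ≤ 1 → 0 < m → m ≤ δ / 100 → 4 * m ≤ κ → 1 ≤ n →
    Sided δ m n r Fp Fm side → Lay3 r ∨ C1 (δ / 4) κ n r ∨ C2 (δ / 4) n r

theorem structure_of (h7 : Sides) (h8 : FromSides) : Structure := by
  intro δ κ hδ hδ1 hκ
  have hm : 0 < min (δ / 100) (κ / 4) := lt_min (by positivity) (by positivity)
  obtain ⟨ε₀, hε₀, h⟩ := h7 δ (min (δ / 100) (κ / 4)) hδ hδ1 hm
  refine ⟨ε₀, hε₀, fun ε hε hε1 K hK => ?_⟩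
  obtain ⟨N, hN⟩ := h ε hε hε1 K hK
  refine ⟨max N 1, fun n hn r hr => ?_⟩
  obtain ⟨Fp, Fm, side, hs⟩ := hN n (le_trans (le_max_left _ _) hn) r hr
  refine h8 δ _ κ n r Fp Fm side hr.1 hδ hδ1 hm (min_le_left _ _) ?_
    (le_trans (le_max_right _ _) hn) hs
  have := min_le_right (δ / 100) (κ / 4)
  linarith

end Pool.Agent.Lib.MP_5bc52d_co.KR
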