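import Mathlib
import Pool.Agent.Lib.MP_5bc52d_co.KR.Sided
import Pool.Agent.Lib.MP_5bc52d_co.KR.Basic

/-!
# The interface between the modules K7a and K7b
-/

namespace Pool.Agent.Lib.MP_5bc52d_co.KR

open Classical in
/-- The outcome of module K7a: the facts (f1) - (f5). `F x = Fp x ∪ Fm x`. -/
structure Pre (δ m : ℝ) (n : ℕ) (r : Fin n → Fin n → Prop)
    (Fp Fm : Fin n → Finset (Fin n)) : Prop where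
  disj : ∀ x, Disjoint (Fp x) (Fm x)
  lower : ∀ x, (1 / 2 - m) * n ≤ ((Fp x ∪ Fm x).card : ℝ)
  deg : ∀ x, δ * n ≤ ((Nb r x).card : ℝ)
  up : ∀ x, ((Finset.univ.filter fun y => Cov r x y).card : ℝ) ≤ (Fp x).card + m * n
  dn : ∀ x, ((Finset.univ.filter fun y => Cov r y x).card : ℝ) ≤ (Fm x).card + m * n
  cov : ∀ x y, Cov r x y → (((Fp x ∪ Fm x) ∩ (Fp y ∪ Fm y)).card : ℝ) ≤ m * n
  inc : ∀ x y, x ≠ y → ¬ r x y → ¬ r y x → ((Fp x ∩ Fm y).card : ℝ) ≤ m * n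
  lt : ∀ x y, r x y → ¬ Cov r x y →
    ((((Fp x ∪ Fm x) ∩ (Fp y ∪ Fm y)) \ (Fp x ∩ Fm y)).card : ℝ) ≤ m * n
  nb : ∀ x, ∃ Q : Finset (Fin n), Q ⊆ Nb r x ∧ (1 / 2 - m) * n ≤ ((Q.biUnion (Nb r)).card : ℝ)

/-- K7a -/
def Facts : Prop :=
  ∀ δ m : ℝ, 0 < δ → δ ≤ 1 → 0 < m → ∃ ε₀ : ℝ, 0 < ε₀ ∧ ∀ ε, 0 < ε → ε ≤ ε₀ → ∀ K : ℕ, 1 ≤ K →
    ∃ N : ℕ, ∀ n ≥ N, ∀ r : Fin n → Fin n → Prop, Gen δ ε K n r → ∃ Fp Fm, Pre δ m n r Fp Fm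

/-- K7b -/
def FromFacts : Prop :=
  ∀ δ m : ℝ, 0 < δ → δ ≤ 1 → 0 < m → ∃ m' : ℝ, 0 < m' ∧ ∃ N : ℕ, ∀ n ≥ N,
    ∀ (r : Fin n → Fin n → Prop) (Fp Fm : Fin n → Finset (Fin n)), SO r →
      Pre δ m' n r Fp Fm → ∃ side, Sided δ m n r Fp Fm side

theorem sides_of (ha : Facts) (hb : FromFacts) : Sides := by
  intro δ m hδ hδ1 hm
  obtain ⟨m', hm', N1, h1⟩ := hb δ m hδ hδ1 hm
  obtain ⟨ε₀, hε₀, h⟩ := ha δ m' hδ hδ1 hm'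
  refine ⟨ε₀, hε₀, fun ε hε hε1 K hK => ?_⟩
  obtain ⟨N2, h2⟩ := h ε hε hε1 K hK
  refine ⟨max N1 N2, fun n hn r hr => ?_⟩
  obtain ⟨Fp, Fm, hpre⟩ := h2 n (le_trans (le_max_right _ _) hn) r hr
  obtain ⟨side, hside⟩ := h1 n (le_trans (le_max_left _ _) hn) r Fp Fm hr.1 hpre
  exact ⟨Fp, Fm, side, hside⟩

end Pool.Agent.Lib.MP_5bc52d_co.KR
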