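import Mathlib
import Pool.Agent.Lib.MP_5bc52d_co.KR.Pre
import Pool.Agent.Lib.MP_5bc52d_co.KR.Basic

/-!
# K7a: the facts (f1) - (f5) for generic orders
-/

namespace Pool.Agent.Lib.MP_5bc52d_co.KR

open Finset

section facts

variable {δ ε : ℝ} {K n : ℕ} {r : Fin n → Fin n → Prop}

theorem Nb_eq (r : Fin n → Fin n → Prop) (x : Fin n) : Nb r x = Nbs true r x ∪ Nbs false r x := by
  ext y
  rw [Finset.mem_union, mem_Nb, mem_Nbs, mem_Nbs, sg_true, sg_false, cov_dual]

theorem Nbs_subset_Nb (s : Bool) (r : Fin n → Fin n → Prop) (x : Fin n) : Nbs s r x ⊆ Nb r x := by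
  rw [Nb_eq]
  cases s
  · exact Finset.subset_union_right
  · exact Finset.subset_union_left

/-- (f1) -/
theorem Gen.exists_OK (h : Gen δ ε K n r) (hn : 2 * ((K : ℝ) + 1) ≤ δ * n) (x y : Fin n) :
    ∃ s Q, OK K s r x Q ∧ y ∉ Q := by
  classical
  have h0 : δ * n ≤ ((Nb r x).card : ℝ) := by
    by_contra hcon
    exact h.2.1 ⟨x, not_le.mp hcon⟩
  have h1 : ((Nb r x).card : ℝ) ≤ (Nbs true r x).card + (Nbs false r x).card := by
    rw [Nb_eq]
    exact_mod_cast Finset.card_union_le _ _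
  have h2 : ∃ s, K + 1 ≤ (Nbs s r x).card := by
    by_contra hcon
    push Not at hcon
    have h3 : ((Nbs true r x).card : ℝ) < K + 1 := by exact_mod_cast hcon true
    have h4 : ((Nbs false r x).card : ℝ) < K + 1 := by exact_mod_cast hcon false
    linarith
  obtain ⟨s, hs⟩ := h2
  have h5 : K ≤ ((Nbs s r x).erase y).card := by
    have := Finset.pred_card_le_card_erase (s := Nbs s r x) (a := y)
    omega
  obtain ⟨Q, hQ1, hQ2⟩ := Finset.exists_subset_card_eq h5
  refine ⟨s, Q, ⟨hQ2, fun q hq => ?_⟩, fun hy => ?_⟩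
  · exact mem_Nbs.mp (Finset.mem_of_mem_erase (hQ1 hq))
  · exact absurd (hQ1 hy) (Finset.notMem_erase y _)

/-- the lower bound of (f2) and the intersections -/
theorem Gen.inter_lower (h : Gen δ ε K n r) {x : Fin n} {s s' : Bool} {Q Q' : Finset (Fin n)}
    (hQ : OK K s r x Q) (hQ' : OK K s' r x Q') :
    (1 / 2 - ε) * n < ((FF s r Q ∩ FF s' r Q').card : ℝ) := by
  by_contra hcon
  exact h.2.2.1 ⟨x, s, Q, s', Q', hQ, hQ', not_lt.mp hcon⟩

theorem Gen.lower (h : Gen δ ε K n r) {x : Fin n} {s : Bool} {Q : Finset (Fin n)}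
    (hQ : OK K s r x Q) : (1 / 2 - ε) * n < ((FF s r Q).card : ℝ) := by
  have := h.inter_lower hQ hQ
  rwa [Finset.inter_self] at this

/-- the upper bound of (f2) -/
theorem Gen.upper (h : Gen δ ε K n r) {x : Fin n} {s : Bool} {Q : Finset (Fin n)}
    (hQ : OK K s r x Q) : ((FF s r Q).card : ℝ) ≤ (1 / 2 + ε) * n := by
  have h1 : (1 / 2 - ε) * n < ((RR s r Q).card : ℝ) := by
    by_contra hcon
    exact h.2.2.2.1 ⟨x, s, Q, hQ, not_lt.mp hcon⟩
  have h2 : Disjoint (RR s r Q) (FF s r Q) := by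
    rw [Finset.disjoint_left]
    intro v hv hv'
    exact (mem_RR.mp hv).2 hv'
  have h3 : (RR s r Q).card + (FF s r Q).card ≤ n := by
    rw [← Finset.card_union_of_disjoint h2]
    exact (Finset.card_le_univ _).trans (by rw [Fintype.card_fin])
  have h4 : ((RR s r Q).card : ℝ) + (FF s r Q).card ≤ n := by exact_mod_cast h3
  linarith

/-- (f3) -/
theorem Gen.sdiff_lt (h : Gen δ ε K n r) {x : Fin n} {s s' : Bool} {Q Q' : Finset (Fin n)}
    (hQ : OK K s r x Q) (hQ' : OK K s' r x Q') :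
    ((FF s r Q \ FF s' r Q').card : ℝ) < 2 * ε * n := by
  have h1 := h.inter_lower hQ hQ'
  have h2 := h.upper hQ
  have h3 : (FF s r Q \ FF s' r Q').card + (FF s r Q ∩ FF s' r Q').card = (FF s r Q).card :=
    Finset.card_sdiff_add_card_inter _ _
  have h4 : ((FF s r Q \ FF s' r Q').card : ℝ) + (FF s r Q ∩ FF s' r Q').card =
      (FF s r Q).card := by exact_mod_cast h3
  linarith

/-- the class `R3` -/
theorem Gen.bad_lt (h : Gen δ ε K n r) {x y : Fin n} {s s' : Bool} {Q Q' : Finset (Fin n)}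
    (hxy : x ≠ y) (hQ : OK K s r x Q) (hQ' : OK K s' r y Q') (hy : y ∉ Q) (hx : x ∉ Q') :
    ((Bad r x y s Q s' Q').card : ℝ) < 6 * ε * n := by
  by_contra hcon
  exact h.2.2.2.2.1 ⟨x, y, s, Q, s', Q', hxy, hQ, hQ', hy, hx, h.upper hQ, h.upper hQ',
    not_lt.mp hcon⟩

open Classical in
theorem Gen.of_subset (h : Gen δ ε K n r) {x y : Fin n} {s s' : Bool} {Q Q' : Finset (Fin n)}
    (hxy : x ≠ y) (hQ : OK K s r x Q) (hQ' : OK K s' r y Q') (hy : y ∉ Q) (hx : x ∉ Q')
    {T : Finset (Fin n)} (hT : T \ {x, y} ⊆ Bad r x y s Q s' Q') :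
    (T.card : ℝ) ≤ 6 * ε * n + 2 := by
  have h1 := h.bad_lt hxy hQ hQ' hy hx
  have h2 : T.card ≤ (T \ {x, y}).card + ({x, y} : Finset (Fin n)).card := by
    exact Finset.card_le_card_sdiff_add_card
  have h3 : ({x, y} : Finset (Fin n)).card ≤ 2 := Finset.card_le_two
  have h4 := Finset.card_le_card hT
  have h5 : (T.card : ℝ) ≤ (Bad r x y s Q s' Q').card + 2 := by
    have : T.card ≤ (Bad r x y s Q s' Q').card + 2 := by omega
    exact_mod_cast this
  linarith

end facts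

open Classical in
/-- K7a -/
theorem facts : Facts := by
  intro δ m hδ hδ1 hm
  refine ⟨m / 20, by positivity, fun ε hε hε1 K hK => ?_⟩
  obtain ⟨N1, hN1⟩ := exists_nat_ge (2 * ((K : ℝ) + 1) / δ)
  obtain ⟨N2, hN2⟩ := exists_nat_ge (((K : ℝ) + 4) / m)
  refine ⟨max N1 N2, fun n hn r hr => ?_⟩
  have hn1 : 2 * ((K : ℝ) + 1) ≤ δ * n := by
    have h1 : (N1 : ℝ) ≤ n := by exact_mod_cast (le_trans (le_max_left _ _) hn)
    have h2 := hN1.trans h1
    rw [div_le_iff₀ hδ] at h2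
    linarith [mul_comm (n : ℝ) δ]
  have hn2 : (K : ℝ) + 4 ≤ m * n := by
    have h1 : (N2 : ℝ) ≤ n := by exact_mod_cast (le_trans (le_max_right _ _) hn)
    have h2 := hN2.trans h1
    rw [div_le_iff₀ hm] at h2
    linarith [mul_comm (n : ℝ) m]
  have hn0 : (0 : ℝ) ≤ n := Nat.cast_nonneg n
  have hK0 : (0 : ℝ) ≤ K := Nat.cast_nonneg K
  have hεn : 20 * (ε * n) ≤ m * n := by
    have : ε * n ≤ m / 20 * n := mul_le_mul_of_nonneg_right hε1 hn0
    linarith
  have hεn0 : 0 ≤ ε * n := mul_nonneg hε.le hn0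
  have hso : SO r := hr.1
  choose sx Qx hQx hself using fun x : Fin n => hr.exists_OK hn1 x x
  have hne : ∀ x, (Qx x).Nonempty := fun x => (hQx x).nonempty hK
  have hFF : ∀ x, Fs true (sx x) r (Qx x) ∪ Fs false (sx x) r (Qx x) = FF (sx x) r (Qx x) :=
    fun x => (FF_eq _ _ _).symm
  refine ⟨fun x => Fs true (sx x) r (Qx x), fun x => Fs false (sx x) r (Qx x),
    ⟨?_, ?_, ?_, ?_, ?_, ?_, ?_, ?_, ?_⟩⟩
  · intro x
    exact Fs_disjoint (hne x)
  · intro x
    rw [hFF]
    have := hr.lower (hQx x)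
    nlinarith
  · intro x
    by_contra hcon
    exact hr.2.1 ⟨x, not_le.mp hcon⟩
  · intro x
    have h1 : (Finset.univ.filter fun y => Cov r x y) ⊆ Fs true (sx x) r (Qx x) ∪ Qx x := by
      intro y hy
      rw [Finset.mem_filter] at hy
      rw [Finset.mem_union]
      exact (hQx x).cov_above hso hy.2
    have h2 := (Finset.card_le_card h1).trans (Finset.card_union_le _ _)
    rw [(hQx x).card] at h2
    have h3 : ((Finset.univ.filter fun y => Cov r x y).card : ℝ) ≤
        (Fs true (sx x) r (Qx x)).card + K := by exact_mod_cast h2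
    linarith
  · intro x
    have h1 : (Finset.univ.filter fun y => Cov r y x) ⊆ Fs false (sx x) r (Qx x) ∪ Qx x := by
      intro y hy
      rw [Finset.mem_filter] at hy
      rw [Finset.mem_union]
      exact (hQx x).cov_below hso hy.2
    have h2 := (Finset.card_le_card h1).trans (Finset.card_union_le _ _)
    rw [(hQx x).card] at h2
    have h3 : ((Finset.univ.filter fun y => Cov r y x).card : ℝ) ≤
        (Fs false (sx x) r (Qx x)).card + K := by exact_mod_cast h2
    linarith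
  · intro x y hxy
    rw [hFF, hFF]
    obtain ⟨s, Q, hQ, hyQ⟩ := hr.exists_OK hn1 x y
    obtain ⟨s', Q', hQ', hxQ'⟩ := hr.exists_OK hn1 y x
    have hne' : x ≠ y := hso.ne hxy.1
    have h1 : ((FF s r Q ∩ FF s' r Q').card : ℝ) ≤ 6 * ε * n + 2 := by
      apply hr.of_subset hne' hQ hQ' hyQ hxQ'
      intro v hv
      rw [Bad, Finset.mem_filter]
      exact ⟨hv, Or.inl (Or.inl hxy)⟩
    have h2 := hr.sdiff_lt (hQx x) hQ
    have h3 := hr.sdiff_lt (hQx y) hQ'
    have h4 : FF (sx x) r (Qx x) ∩ FF (sx y) r (Qx y) ⊆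
        (FF s r Q ∩ FF s' r Q') ∪ ((FF (sx x) r (Qx x) \ FF s r Q) ∪
          (FF (sx y) r (Qx y) \ FF s' r Q')) := by
      intro v hv
      rw [Finset.mem_inter] at hv
      simp only [Finset.mem_union, Finset.mem_inter, Finset.mem_sdiff]
      by_cases h5 : v ∈ FF s r Q
      · by_cases h6 : v ∈ FF s' r Q'
        · exact Or.inl ⟨h5, h6⟩
        · exact Or.inr (Or.inr ⟨hv.2, h6⟩)
      · exact Or.inr (Or.inl ⟨hv.1, h5⟩)
    have h5 := (Finset.card_le_card h4).trans ((Finset.card_union_le _ _).trans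
      (Nat.add_le_add_left (Finset.card_union_le _ _) _))
    have h6 : ((FF (sx x) r (Qx x) ∩ FF (sx y) r (Qx y)).card : ℝ) ≤
        (FF s r Q ∩ FF s' r Q').card + ((FF (sx x) r (Qx x) \ FF s r Q).card +
          (FF (sx y) r (Qx y) \ FF s' r Q').card) := by exact_mod_cast h5
    nlinarith
  · intro x y hxy h1 h2
    have hyQ : y ∉ Qx x := by
      intro hy
      have h3 := ((hQx x).2 y hy).1
      have h4 := (sg_or (sx x) r x y).mp (Or.inl h3)
      exact h4.elim h1 h2
    have hxQ : x ∉ Qx y := by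
      intro hx
      have h3 := ((hQx y).2 x hx).1
      have h4 := (sg_or (sx y) r y x).mp (Or.inl h3)
      exact h4.elim h2 h1
    have h5 := hr.of_subset hxy (hQx x) (hQx y) hyQ hxQ
      (T := Fs true (sx x) r (Qx x) ∩ Fs false (sx y) r (Qx y)) (by
        intro v hv
        rw [Finset.mem_sdiff, Finset.mem_inter] at hv
        rw [Bad, Finset.mem_filter, Finset.mem_sdiff, Finset.mem_inter]
        exact ⟨⟨⟨Fs_subset _ _ _ _ hv.1.1, Fs_subset _ _ _ _ hv.1.2⟩, hv.2⟩,
          Or.inr (Or.inr (Or.inr ⟨h1, h2, Or.inl hv.1⟩))⟩)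
    refine h5.trans ?_
    nlinarith
  · intro x y hxy hcov
    rw [hFF, hFF]
    have hne' : x ≠ y := hso.ne hxy
    have hyx : ¬ r y x := hso.asymm hxy
    have key : ∀ (s : Bool), ¬ Cov (sg s r) x y := by
      intro s hc
      cases s
      · rw [sg_false, cov_dual] at hc
        exact hyx hc.1
      · rw [sg_true] at hc
        exact hcov hc
    have key' : ∀ (s : Bool), ¬ Cov (sg s r) y x := by
      intro s hc
      cases s
      · rw [sg_false, cov_dual] at hc
        exact hcov hc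
      · rw [sg_true] at hc
        exact hyx hc.1
    have hyQ : y ∉ Qx x := fun hy => key _ ((hQx x).2 y hy)
    have hxQ : x ∉ Qx y := fun hx => key' _ ((hQx y).2 x hx)
    have h5 := hr.of_subset hne' (hQx x) (hQx y) hyQ hxQ
      (T := (FF (sx x) r (Qx x) ∩ FF (sx y) r (Qx y)) \
        (Fs true (sx x) r (Qx x) ∩ Fs false (sx y) r (Qx y))) (by
        intro v hv
        rw [Finset.mem_sdiff, Finset.mem_sdiff] at hv
        rw [Bad, Finset.mem_filter, Finset.mem_sdiff]
        refine ⟨⟨hv.1.1, hv.2⟩, Or.inr (Or.inl ⟨hxy, fun h => hv.1.2 ?_⟩)⟩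
        rw [Finset.mem_inter]
        exact h)
    refine h5.trans ?_
    nlinarith
  · intro x
    refine ⟨Qx x, fun q hq => ?_, ?_⟩
    · exact Nbs_subset_Nb (sx x) r x (mem_Nbs.mpr ((hQx x).2 q hq))
    · have h1 : (1 / 2 - ε) * n < (((Qx x).biUnion (Nb r)).card : ℝ) := by
        by_contra hcon
        exact hr.2.2.2.2.2 ⟨x, sx x, Qx x, hQx x, not_lt.mp hcon⟩
      nlinarith

end Pool.Agent.Lib.MP_5bc52d_co.KR
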