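import Mathlib
import Pool.Agent.Lib.MP_5bc52d_co.KR.Pre

/-!
# The two sides (module K7b)
-/

namespace Pool.Agent.Lib.MP_5bc52d_co.KR

open Finset

namespace FromFacts

variable {n : ℕ}

/-- the size of the symmetric difference -/
noncomputable def dd (X Y : Finset (Fin n)) : ℝ := ((X \ Y).card : ℝ) + ((Y \ X).card : ℝ)

theorem dd_comm (X Y : Finset (Fin n)) : dd X Y = dd Y X := by
  rw [dd, dd, add_comm]

theorem sdiff_tri (X Y Z : Finset (Fin n)) :
    ((X \ Z).card : ℝ) ≤ ((X \ Y).card : ℝ) + ((Y \ Z).card : ℝ) := by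
  have h : X \ Z ⊆ (X \ Y) ∪ (Y \ Z) := by
    intro v hv
    rw [Finset.mem_union, Finset.mem_sdiff, Finset.mem_sdiff]
    rw [Finset.mem_sdiff] at hv
    by_cases hy : v ∈ Y
    · exact Or.inr ⟨hy, hv.2⟩
    · exact Or.inl ⟨hv.1, hy⟩
  have h1 := (Finset.card_le_card h).trans (Finset.card_union_le _ _)
  exact_mod_cast h1

theorem dd_tri (X Y Z : Finset (Fin n)) : dd X Z ≤ dd X Y + dd Y Z := by
  have h1 := sdiff_tri X Y Z
  have h2 := sdiff_tri Z Y X
  rw [dd, dd, dd]
  linarith

theorem dd_compl (X Y : Finset (Fin n)) : dd Xᶜ Yᶜ = dd X Y := by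
  have h : ∀ X Y : Finset (Fin n), Xᶜ \ Yᶜ = Y \ X := by
    intro X Y
    ext v
    simp only [Finset.mem_sdiff, Finset.mem_compl, not_not]
    exact and_comm
  rw [dd, dd, h, h, add_comm]

theorem dd_self_compl (X : Finset (Fin n)) : dd X Xᶜ = n := by
  have h1 : X \ Xᶜ = X := by
    ext v
    simp
  have h2 : Xᶜ \ X = Xᶜ := by
    ext v
    simp
  rw [dd, h1, h2]
  have h3 := Finset.card_add_card_compl X
  rw [Fintype.card_fin] at h3
  exact_mod_cast h3

theorem sdiff_le_dd (X Y : Finset (Fin n)) : ((X \ Y).card : ℝ) ≤ dd X Y := by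
  rw [dd]
  have : (0 : ℝ) ≤ ((Y \ X).card : ℝ) := Nat.cast_nonneg _
  linarith

theorem sdiff_le_dd' (X Y : Finset (Fin n)) : ((Y \ X).card : ℝ) ≤ dd X Y := by
  rw [dd]
  have : (0 : ℝ) ≤ ((X \ Y).card : ℝ) := Nat.cast_nonneg _
  linarith

/-- two large sets with a small intersection -/
theorem dd_of_inter {X Y : Finset (Fin n)} {m : ℝ} (hX : (1 / 2 - m) * n ≤ (X.card : ℝ))
    (hY : (1 / 2 - m) * n ≤ (Y.card : ℝ)) (h : ((X ∩ Y).card : ℝ) ≤ m * n) :
    dd X Yᶜ ≤ 4 * m * n := by
  have h1 : X \ Yᶜ = X ∩ Y := by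
    ext v
    simp
  have h2 : Yᶜ \ X = (X ∪ Y)ᶜ := by
    ext v
    simp only [Finset.mem_sdiff, Finset.mem_compl, Finset.mem_union, not_or]
    exact and_comm
  rw [dd, h1, h2]
  have h3 := Finset.card_add_card_compl (X ∪ Y)
  rw [Fintype.card_fin] at h3
  have h4 := Finset.card_union_add_card_inter X Y
  have h3' : ((X ∪ Y).card : ℝ) + ((X ∪ Y)ᶜ.card : ℝ) = n := by exact_mod_cast h3
  have h4' : ((X ∪ Y).card : ℝ) + ((X ∩ Y).card : ℝ) = X.card + Y.card := by exact_mod_cast h4
  linarith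

theorem card_le_three {X A B C : Finset (Fin n)} (h : X ⊆ A ∪ (B ∪ C)) :
    (X.card : ℝ) ≤ A.card + (B.card + C.card) := by
  have h1 := (Finset.card_le_card h).trans (Finset.card_union_le _ _)
  have h2 := Finset.card_union_le B C
  have h3 : X.card ≤ A.card + (B.card + C.card) := by omega
  exact_mod_cast h3

theorem card_le_two {X B C : Finset (Fin n)} (h : X ⊆ B ∪ C) :
    (X.card : ℝ) ≤ B.card + C.card := by
  have h1 := (Finset.card_le_card h).trans (Finset.card_union_le _ _)
  exact_mod_cast h1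

theorem main {δ m m' : ℝ} (hm' : 0 < m') (h1 : 40 * m' ≤ m)
    (h2 : 4 * m' ≤ δ) (h3 : 50 * m' ≤ 1) (hn : 1 ≤ n) {r : Fin n → Fin n → Prop}
    {Fp Fm : Fin n → Finset (Fin n)} (hpre : Pre δ m' n r Fp Fm) :
    ∃ side, Sided δ m n r Fp Fm side := by
  classical
  have hnpos : (0 : ℝ) < n := by exact_mod_cast hn
  set F : Fin n → Finset (Fin n) := fun x => Fp x ∪ Fm x with hF
  have hmn : 0 < m' * n := by positivity
  have hmm : m' * n ≤ m * n := by
    apply mul_le_mul_of_nonneg_right _ hnpos.le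
    linarith
  -- covers
  have hcov : ∀ x y, y ∈ Nb r x → dd (F y) (F x)ᶜ ≤ 4 * m' * n := by
    intro x y hy
    rcases mem_Nb.mp hy with h | h
    · have h4 := dd_of_inter (hpre.lower y) (hpre.lower x) (by
        rw [Finset.inter_comm]
        exact hpre.cov x y h)
      exact h4
    · exact dd_of_inter (hpre.lower y) (hpre.lower x) (hpre.cov y x h)
  have hstep : ∀ x y Z t, y ∈ Nb r x → dd (F x) Z ≤ t → dd (F y) Zᶜ ≤ t + 4 * m' * n := by
    intro x y Z t hy ht
    have h4 := dd_tri (F y) (F x)ᶜ Zᶜ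
    rw [dd_compl] at h4
    have h5 := hcov x y hy
    linarith
  have hnb_pos : ∀ x, (Nb r x).Nonempty := by
    intro x
    rw [← Finset.card_pos]
    have h4 : (0 : ℝ) < (Nb r x).card := by
      refine lt_of_lt_of_le ?_ (hpre.deg x)
      have : 0 < δ := by linarith
      positivity
    exact_mod_cast h4
  set x0 : Fin n := ⟨0, by omega⟩ with hx0
  set F0 := F x0 with hF0
  have hself : dd F0 F0 = 0 := by
    rw [dd]
    simp
  have hq1 : ∀ q ∈ Nb r x0, dd (F q) F0ᶜ ≤ 4 * m' * n := by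
    intro q hq
    have := hstep x0 q F0 0 hq hself.le
    linarith
  have hq2 : ∀ q ∈ Nb r x0, ∀ z ∈ Nb r q, dd (F z) F0 ≤ 8 * m' * n := by
    intro q hq z hz
    have := hstep q z F0ᶜ _ hz (hq1 q hq)
    rw [compl_compl] at this
    linarith
  set Z0 : Finset (Fin n) := Finset.univ.filter fun z => dd (F z) F0 ≤ 8 * m' * n with hZ0
  set Z1 : Finset (Fin n) := Finset.univ.filter fun z => dd (F z) F0ᶜ ≤ 12 * m' * n with hZ1
  have hZ0card : (1 / 2 - m') * n ≤ (Z0.card : ℝ) := by
    obtain ⟨Q, hQ, hQc⟩ := hpre.nb x0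
    refine hQc.trans ?_
    have : Q.biUnion (Nb r) ⊆ Z0 := by
      intro z hz
      rw [Finset.mem_biUnion] at hz
      obtain ⟨q, hq, hz⟩ := hz
      rw [hZ0, Finset.mem_filter]
      exact ⟨Finset.mem_univ _, hq2 q (hQ hq) z hz⟩
    exact_mod_cast Finset.card_le_card this
  obtain ⟨y0, hy0⟩ := hnb_pos x0
  have hZ1card : (1 / 2 - m') * n ≤ (Z1.card : ℝ) := by
    obtain ⟨Q, hQ, hQc⟩ := hpre.nb y0
    refine hQc.trans ?_
    have : Q.biUnion (Nb r) ⊆ Z1 := by
      intro z hz
      rw [Finset.mem_biUnion] at hz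
      obtain ⟨q, hq, hz⟩ := hz
      rw [hZ1, Finset.mem_filter]
      refine ⟨Finset.mem_univ _, ?_⟩
      have h4 := hstep q z F0 _ hz (hq2 y0 hy0 q (hQ hq))
      linarith
    exact_mod_cast Finset.card_le_card this
  have hnself : dd F0 F0ᶜ = n := dd_self_compl F0
  have hdisj : Disjoint Z0 Z1 := by
    rw [Finset.disjoint_left]
    intro z hz0 hz1
    rw [hZ0, Finset.mem_filter] at hz0
    rw [hZ1, Finset.mem_filter] at hz1
    have h4 := dd_tri F0 (F z) F0ᶜ
    rw [dd_comm F0 (F z)] at h4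
    have h5 := hz0.2
    have h6 := hz1.2
    nlinarith
  have hclose : ∀ w, dd (F w) F0 ≤ 16 * m' * n ∨ dd (F w) F0ᶜ ≤ 16 * m' * n := by
    intro w
    by_cases hne : ∃ u ∈ Nb r w, u ∈ Z0 ∨ u ∈ Z1
    · obtain ⟨u, hu, hu'⟩ := hne
      have hwu : w ∈ Nb r u := by
        rw [mem_Nb] at hu ⊢
        exact hu.symm
      rcases hu' with hu' | hu'
      · rw [hZ0, Finset.mem_filter] at hu'
        right
        have := hstep u w F0 _ hwu hu'.2
        linarith
      · rw [hZ1, Finset.mem_filter] at hu'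
        left
        have := hstep u w F0ᶜ _ hwu hu'.2
        rw [compl_compl] at this
        linarith
    · exfalso
      push_neg at hne
      have hd : Disjoint (Nb r w) (Z0 ∪ Z1) := by
        rw [Finset.disjoint_left]
        intro u hu hu'
        rcases Finset.mem_union.mp hu' with h | h
        · exact (hne u hu).1 h
        · exact (hne u hu).2 h
      have h4 : (Nb r w ∪ (Z0 ∪ Z1)).card ≤ n := by
        have := Finset.card_le_univ (Nb r w ∪ (Z0 ∪ Z1))
        rwa [Fintype.card_fin] at this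
      rw [Finset.card_union_of_disjoint hd, Finset.card_union_of_disjoint hdisj] at h4
      have h5 : ((Nb r w).card : ℝ) + (Z0.card + Z1.card) ≤ n := by exact_mod_cast h4
      have h6 := hpre.deg w
      nlinarith
  refine ⟨fun w => decide (dd (F w) F0 ≤ 16 * m' * n), ?_⟩
  have hsame : ∀ x y, (decide (dd (F x) F0 ≤ 16 * m' * n) = decide (dd (F y) F0 ≤ 16 * m' * n)) →
      dd (F x) (F y) ≤ 32 * m' * n := by
    intro x y hxy
    by_cases hx : dd (F x) F0 ≤ 16 * m' * n
    · have hy : dd (F y) F0 ≤ 16 * m' * n := by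
        rw [decide_eq_true hx] at hxy
        exact of_decide_eq_true hxy.symm
      have h4 := dd_tri (F x) F0 (F y)
      rw [dd_comm F0 (F y)] at h4
      linarith
    · have hy : ¬ dd (F y) F0 ≤ 16 * m' * n := by
        rw [decide_eq_false hx] at hxy
        exact of_decide_eq_false hxy.symm
      have hx' := (hclose x).resolve_left hx
      have hy' := (hclose y).resolve_left hy
      have h4 := dd_tri (F x) F0ᶜ (F y)
      rw [dd_comm F0ᶜ (F y)] at h4
      linarith
  have hcov' : ∀ x y, Cov r x y →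
      decide (dd (F x) F0 ≤ 16 * m' * n) ≠ decide (dd (F y) F0 ≤ 16 * m' * n) := by
    intro x y hxy heq
    have h4 := hsame x y heq
    have h5 := hcov y x (mem_Nb.mpr (Or.inr hxy))
    have h6 := dd_tri (F y) (F x) (F y)ᶜ
    rw [dd_self_compl, dd_comm (F y) (F x)] at h6
    nlinarith
  have h8 : m' * n + 32 * m' * n ≤ m * n := by nlinarith
  refine ⟨hpre.disj, fun x => ?_, hcov', hpre.deg, fun x => (hpre.up x).trans (by linarith),
    fun x => (hpre.dn x).trans (by linarith), ?_, ?_, ?_, ?_⟩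
  · have h4 := hpre.lower x
    have h5 : ((Fp x ∪ Fm x).card : ℝ) ≤ (Fp x).card + (Fm x).card := by
      exact_mod_cast Finset.card_union_le _ _
    nlinarith
  · intro x y hs hxy hyx
    by_cases hne : x = y
    · subst hne
      have : 0 ≤ m * n := by linarith
      linarith
    have h4 := hsame x y hs
    have h5 := sdiff_le_dd' (F x) (F y)
    have h6 := hpre.inc y x (Ne.symm hne) hyx hxy
    have h7 : Fp y ⊆ Fp x ∪ ((Fp y ∩ Fm x) ∪ (F y \ F x)) := by
      intro v hv
      simp only [Finset.mem_union, Finset.mem_inter, Finset.mem_sdiff, hF]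
      by_cases hp : v ∈ Fp x
      · exact Or.inl hp
      · by_cases hm : v ∈ Fm x
        · exact Or.inr (Or.inl ⟨hv, hm⟩)
        · exact Or.inr (Or.inr ⟨Or.inl hv, fun h => h.elim hp hm⟩)
    have h9 := card_le_three h7
    linarith
  · intro x y hs hxy hyx
    by_cases hne : x = y
    · subst hne
      have : 0 ≤ m * n := by linarith
      linarith
    have h4 := hsame x y hs
    have h5 := sdiff_le_dd' (F x) (F y)
    have h6 := hpre.inc x y hne hxy hyx
    have h7 : Fm y ⊆ Fm x ∪ ((Fp x ∩ Fm y) ∪ (F y \ F x)) := by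
      intro v hv
      simp only [Finset.mem_union, Finset.mem_inter, Finset.mem_sdiff, hF]
      by_cases hm : v ∈ Fm x
      · exact Or.inl hm
      · by_cases hp : v ∈ Fp x
        · exact Or.inr (Or.inl ⟨hp, hv⟩)
        · exact Or.inr (Or.inr ⟨Or.inr hv, fun h => h.elim hp hm⟩)
    have h9 := card_le_three h7
    linarith
  · intro x y hs hxy
    have hnc : ¬ Cov r x y := fun h => hcov' x y h hs
    have h4 := hsame x y hs
    have h5 := sdiff_le_dd (F x) (F y)
    have h6 := hpre.lt x y hxy hnc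
    have h7 : Fm x ⊆ ((F x ∩ F y) \ (Fp x ∩ Fm y)) ∪ (F x \ F y) := by
      intro v hv
      have hvp : v ∉ Fp x := fun h => Finset.disjoint_left.mp (hpre.disj x) h hv
      have hvF : v ∈ F x := Finset.mem_union_right _ hv
      rw [Finset.mem_union, Finset.mem_sdiff, Finset.mem_sdiff, Finset.mem_inter,
        Finset.mem_inter]
      by_cases hy : v ∈ F y
      · exact Or.inl ⟨⟨hvF, hy⟩, fun h => hvp h.1⟩
      · exact Or.inr ⟨hvF, hy⟩
    have h9 := card_le_two h7
    simp only [hF] at h9 h6 h5 h4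
    linarith
  · intro x y hs hxy
    have hnc : ¬ Cov r x y := fun h => hcov' x y h hs
    have h4 := hsame x y hs
    have h5 := sdiff_le_dd' (F x) (F y)
    have h6 := hpre.lt x y hxy hnc
    have h7 : Fp y ⊆ ((F x ∩ F y) \ (Fp x ∩ Fm y)) ∪ (F y \ F x) := by
      intro v hv
      have hvp : v ∉ Fm y := fun h => Finset.disjoint_left.mp (hpre.disj y) hv h
      have hvF : v ∈ F y := Finset.mem_union_left _ hv
      rw [Finset.mem_union, Finset.mem_sdiff, Finset.mem_sdiff, Finset.mem_inter,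
        Finset.mem_inter]
      by_cases hx : v ∈ F x
      · exact Or.inl ⟨⟨hx, hvF⟩, fun h => hvp h.2⟩
      · exact Or.inr ⟨hvF, hx⟩
    have h9 := card_le_two h7
    simp only [hF] at h9 h6 h5 h4
    linarith

end FromFacts

theorem fromFacts : FromFacts := by
  intro δ m hδ hδ1 hm
  refine ⟨min (m / 40) (min (δ / 4) (1 / 50)), lt_min (by positivity)
    (lt_min (by positivity) (by norm_num)), 1, fun n hn r Fp Fm _ hpre => ?_⟩
  have h1 : min (m / 40) (min (δ / 4) (1 / 50)) ≤ m / 40 := min_le_left _ _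
  have h2 : min (m / 40) (min (δ / 4) (1 / 50)) ≤ δ / 4 :=
    (min_le_right _ _).trans (min_le_left _ _)
  have h3 : min (m / 40) (min (δ / 4) (1 / 50)) ≤ 1 / 50 :=
    (min_le_right _ _).trans (min_le_right _ _)
  have h0 : 0 < min (m / 40) (min (δ / 4) (1 / 50)) := lt_min (by positivity)
    (lt_min (by positivity) (by norm_num))
  exact FromFacts.main h0 (by linarith) (by linarith) (by linarith) hn hpre

end Pool.Agent.Lib.MP_5bc52d_co.KR
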