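import Mathlib
import Pool.Agent.Lib.MP_5bc52d_co.KR.Sided
import Pool.Agent.Lib.MP_5bc52d_co.KR.Basic

/-!
# From the two sides to the structure of the order (K8)
-/

namespace Pool.Agent.Lib.MP_5bc52d_co.KR

open Finset

section

variable {δ m : ℝ} {n : ℕ} {r : Fin n → Fin n → Prop} {Fp Fm : Fin n → Finset (Fin n)}
  {side : Fin n → Bool}

/-- the side `b` is an antichain -/
def Anti (r : Fin n → Fin n → Prop) (side : Fin n → Bool) (b : Bool) : Prop :=
  ∀ x y, side x = b → side y = b → ¬ r x y

/-- the side `b` consists of a lower and an upper antichain -/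
def Split (m : ℝ) (r : Fin n → Fin n → Prop) (Fp Fm : Fin n → Finset (Fin n))
    (side : Fin n → Bool) (b : Bool) (top : Fin n → Prop) : Prop :=
  (∀ x y, side x = b → side y = b → (r x y ↔ ¬ top x ∧ top y)) ∧
  (∀ x, side x = b → ¬ top x → ((Fm x).card : ℝ) ≤ 2 * m * n) ∧
  (∀ x, side x = b → top x → ((Fp x).card : ℝ) ≤ 2 * m * n)

/-- Every side is an antichain or it consists of two completely comparable antichains. -/
theorem anti_or_split (hr : SO r) (hm : 0 < m) (hm1 : m ≤ 1 / 100) (hn : 1 ≤ n)
    (h : Sided δ m n r Fp Fm side) (b : Bool) :
    Anti r side b ∨ ∃ top, Split m r Fp Fm side b top := by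
  classical
  by_cases ha : Anti r side b
  · exact Or.inl ha
  right
  unfold Anti at ha
  push Not at ha
  obtain ⟨x1, x2, hx1, hx2, h12⟩ := ha
  have hn0 : (1 : ℝ) ≤ n := by exact_mod_cast hn
  have hmn : m * n ≤ n / 100 := by
    have := mul_le_mul_of_nonneg_right hm1 (by linarith : (0 : ℝ) ≤ n)
    linarith
  have hmn0 : 0 < m * n := by positivity
  -- no element is below `x1`
  have hA : ∀ x, side x = b → ¬ r x x1 := by
    intro x hx hxx
    have h1 := h.ltp x x1 (hx.trans hx1.symm) hxx
    have h2 := h.ltm x1 x2 (hx1.trans hx2.symm) h12
    have h3 := h.size x1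
    linarith
  -- the bottom elements
  have hB : ∀ x, side x = b → ¬ r x1 x → ((Fm x).card : ℝ) ≤ 2 * (m * n) := by
    intro x hx hxx
    have h2 := h.ltm x1 x2 (hx1.trans hx2.symm) h12
    by_cases hxe : x = x1
    · subst hxe
      linarith
    · have h3 := h.incm x1 x (hx1.trans hx.symm) hxx (hA x hx)
      linarith
  -- the top elements
  have hC : ∀ x, side x = b → r x1 x → ((Fp x).card : ℝ) ≤ m * n := by
    intro x hx hxx
    exact h.ltp x1 x (hx1.trans hx.symm) hxx
  refine ⟨fun x => r x1 x, ?_, ?_, ?_⟩
  · intro x y hx hy
    constructor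
    · intro hxy
      have h1 := h.ltp x y (hx.trans hy.symm) hxy
      have h2 := h.ltm x y (hx.trans hy.symm) hxy
      have hxb : ¬ r x1 x := by
        intro hxx
        have h3 := hC x hx hxx
        have h4 := h.size x
        linarith
      refine ⟨hxb, ?_⟩
      by_contra hyb
      have h3 := hB y hy hyb
      have h4 := h.size y
      linarith
    · rintro ⟨hxb, hyt⟩
      by_contra hxy
      have h3 := hB x hx hxb
      have h4 := hC y hy hyt
      have h5 := h.size y
      by_cases hyx : r y x
      · exact hxb (hr.trans hyt hyx)
      · have h6 := h.incm x y (hx.trans hy.symm) hxy hyx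
        linarith
  · intro x hx hxb
    have := hB x hx hxb
    linarith
  · intro x hx hxt
    have := hC x hx hxt
    linarith

open Classical in
/-- the number of upper and lower covers -/
theorem card_Nb_le (r : Fin n → Fin n → Prop) (x : Fin n) :
    ((Nb r x).card : ℝ) ≤ ((Finset.univ.filter fun y => Cov r x y).card : ℝ) +
      ((Finset.univ.filter fun y => Cov r y x).card : ℝ) := by
  have h1 : Nb r x ⊆ (Finset.univ.filter fun y => Cov r x y) ∪
      (Finset.univ.filter fun y => Cov r y x) := by
    intro y hy
    rw [mem_Nb] at hy
    simpa using hy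
  have h2 := (Finset.card_le_card h1).trans (Finset.card_union_le _ _)
  exact_mod_cast h2

open Classical in
/-- a bottom element has many upper covers -/
theorem many_up (h : Sided δ m n r Fp Fm side) {x : Fin n}
    (hx : ((Fm x).card : ℝ) ≤ 2 * m * n) :
    (δ - 3 * m) * n ≤ ((Finset.univ.filter fun y => Cov r x y).card : ℝ) := by
  have h1 := card_Nb_le r x
  have h2 := h.deg x
  have h3 := h.dn x
  linarith

open Classical in
/-- a top element has many lower covers -/
theorem many_dn (h : Sided δ m n r Fp Fm side) {x : Fin n}
    (hx : ((Fp x).card : ℝ) ≤ 2 * m * n) :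
    (δ - 3 * m) * n ≤ ((Finset.univ.filter fun y => Cov r y x).card : ℝ) := by
  have h1 := card_Nb_le r x
  have h2 := h.deg x
  have h3 := h.up x
  linarith

theorem exists_up (h : Sided δ m n r Fp Fm side) (hδ : 3 * m < δ) (hn : 1 ≤ n) {x : Fin n}
    (hx : ((Fm x).card : ℝ) ≤ 2 * m * n) : ∃ y, Cov r x y := by
  classical
  have h1 := many_up h hx
  have hn0 : (1 : ℝ) ≤ n := by exact_mod_cast hn
  have h2 : 0 < (δ - 3 * m) * n := mul_pos (by linarith) (by linarith)
  have h3 : (0 : ℝ) < ((Finset.univ.filter fun y => Cov r x y).card : ℝ) := lt_of_lt_of_le h2 h1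
  have h4 : 0 < (Finset.univ.filter fun y => Cov r x y).card := by exact_mod_cast h3
  obtain ⟨y, hy⟩ := Finset.card_pos.mp h4
  rw [Finset.mem_filter] at hy
  exact ⟨y, hy.2⟩

theorem exists_dn (h : Sided δ m n r Fp Fm side) (hδ : 3 * m < δ) (hn : 1 ≤ n) {x : Fin n}
    (hx : ((Fp x).card : ℝ) ≤ 2 * m * n) : ∃ y, Cov r y x := by
  classical
  have h1 := many_dn h hx
  have hn0 : (1 : ℝ) ≤ n := by exact_mod_cast hn
  have h2 : 0 < (δ - 3 * m) * n := mul_pos (by linarith) (by linarith)
  have h3 : (0 : ℝ) < ((Finset.univ.filter fun y => Cov r y x).card : ℝ) := lt_of_lt_of_le h2 h1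
  have h4 : 0 < (Finset.univ.filter fun y => Cov r y x).card := by exact_mod_cast h3
  obtain ⟨y, hy⟩ := Finset.card_pos.mp h4
  rw [Finset.mem_filter] at hy
  exact ⟨y, hy.2⟩

theorem not_side (h : Sided δ m n r Fp Fm side) {x y : Fin n} (hxy : Cov r x y) {b : Bool}
    (hx : side x = b) : side y = !b := by
  have := h.cov x y hxy
  subst hx
  revert this
  cases side x <;> cases side y <;> simp

theorem not_side' (h : Sided δ m n r Fp Fm side) {x y : Fin n} (hxy : Cov r x y) {b : Bool}
    (hy : side y = b) : side x = !b := by
  have := h.cov x y hxy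
  subst hy
  revert this
  cases side x <;> cases side y <;> simp

/-- case (a) -/
theorem lay_anti (hr : SO r) (h : Sided δ m n r Fp Fm side) (h0 : ∀ b, Anti r side b) :
    Lay3 r := by
  classical
  have key : ∀ x y z, r x y → r y z → False := by
    intro x y z hxy hyz
    obtain ⟨u, hu, hu'⟩ := exists_cov_left hr hxy
    have huz : r u z := by
      rcases hu' with rfl | hu'
      · exact hyz
      · exact hr.trans hu' hyz
    obtain ⟨v, hv, -⟩ := exists_cov_left hr huz
    have h1 := not_side h hu (b := side x) rfl
    have h2 := not_side h hv h1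
    rw [Bool.not_not] at h2
    exact h0 (side x) x v rfl h2 (hr.trans hu.1 hv.1)
  refine ⟨∅, Finset.univ.filter fun x => ∃ y, r x y, Finset.univ.filter fun x => ¬ ∃ y, r x y,
    ?_, Finset.disjoint_empty_left _, ?_, Finset.disjoint_empty_left _, ?_, by simp⟩
  · intro x
    by_cases hx : ∃ y, r x y
    · right; left
      simp [hx]
    · right; right
      simpa using hx
  · exact Finset.disjoint_filter_filter_not _ _ _
  · intro x y hxy
    right; left
    refine ⟨?_, ?_⟩
    · simp only [Finset.mem_filter, Finset.mem_univ, true_and]
      exact ⟨y, hxy⟩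
    · simp only [Finset.mem_filter, Finset.mem_univ, true_and]
      rintro ⟨z, hz⟩
      exact key _ _ _ hxy hz

/-- case (b) -/
theorem lay_split (hr : SO r) (h : Sided δ m n r Fp Fm side) (hδ : 3 * m < δ) (hn : 1 ≤ n)
    {b : Bool} (h0 : Anti r side b) {top : Fin n → Prop} (h1 : Split m r Fp Fm side (!b) top) :
    Lay3 r := by
  classical
  obtain ⟨hs, hs1, hs2⟩ := h1
  -- bottom elements are minimal
  have hA : ∀ a, side a = !b → ¬ top a → ∀ v, ¬ r v a := by
    intro a ha hta v hv
    obtain ⟨u, hu, -⟩ := exists_cov_right hr hv
    obtain ⟨w, hw⟩ := exists_up h hδ hn (hs1 a ha hta)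
    have e1 := not_side' h hu ha
    have e2 := not_side h hw ha
    rw [Bool.not_not] at e1 e2
    exact h0 u w e1 e2 (hr.trans hu.1 hw.1)
  -- top elements are maximal
  have hC : ∀ c, side c = !b → top c → ∀ v, ¬ r c v := by
    intro c hc htc v hv
    obtain ⟨u, hu, -⟩ := exists_cov_left hr hv
    obtain ⟨w, hw⟩ := exists_dn h hδ hn (hs2 c hc htc)
    have e1 := not_side h hu hc
    have e2 := not_side' h hw hc
    rw [Bool.not_not] at e1 e2
    exact h0 w u e2 e1 (hr.trans hw.1 hu.1)
  have hside : ∀ x, side x ≠ b → side x = !b := by
    intro x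
    cases side x <;> cases b <;> simp
  refine ⟨Finset.univ.filter fun x => side x = !b ∧ ¬ top x,
    Finset.univ.filter fun x => side x = b,
    Finset.univ.filter fun x => side x = !b ∧ top x, ?_, ?_, ?_, ?_, ?_, ?_⟩
  · intro x
    simp only [Finset.mem_filter, Finset.mem_univ, true_and]
    by_cases hx : side x = b
    · exact Or.inr (Or.inl hx)
    · by_cases ht : top x
      · exact Or.inr (Or.inr ⟨hside x hx, ht⟩)
      · exact Or.inl ⟨hside x hx, ht⟩
  · rw [Finset.disjoint_left]
    intro x hx hx'
    simp only [Finset.mem_filter, Finset.mem_univ, true_and] at hx hx'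
    rw [hx'] at hx
    cases b <;> simp at hx
  · rw [Finset.disjoint_left]
    intro x hx' hx
    simp only [Finset.mem_filter, Finset.mem_univ, true_and] at hx hx'
    rw [hx'] at hx
    cases b <;> simp at hx
  · rw [Finset.disjoint_left]
    intro x hx hx'
    simp only [Finset.mem_filter, Finset.mem_univ, true_and] at hx hx'
    exact hx.2 hx'.2
  · intro x y hxy
    simp only [Finset.mem_filter, Finset.mem_univ, true_and]
    by_cases hx : side x = b
    · by_cases hy : side y = b
      · exact absurd hxy (h0 x y hx hy)
      · have hy' := hside y hy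
        by_cases ht : top y
        · exact Or.inr (Or.inl ⟨hx, hy', ht⟩)
        · exact absurd hxy (hA y hy' ht x)
    · have hx' := hside x hx
      by_cases htx : top x
      · exact absurd hxy (hC x hx' htx y)
      · by_cases hy : side y = b
        · exact Or.inl ⟨⟨hx', htx⟩, hy⟩
        · have hy' := hside y hy
          by_cases ht : top y
          · exact Or.inr (Or.inr ⟨⟨hx', htx⟩, hy', ht⟩)
          · exact absurd hxy (hA y hy' ht x)
  · intro a ha c hc
    simp only [Finset.mem_filter, Finset.mem_univ, true_and] at ha hc
    exact (hs a c ha.1 hc.1).mpr ⟨ha.2, hc.2⟩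

open Classical in
/-- the four classes -/
noncomputable def cls (b : Bool) (side : Fin n → Bool) (top : Fin n → Prop) (x : Fin n) : Fin 4 :=
  if side x = b then (if top x then 1 else 0) else (if top x then 3 else 2)

theorem cls_zero {b : Bool} {top : Fin n → Prop} {x : Fin n} :
    cls b side top x = 0 ↔ side x = b ∧ ¬ top x := by
  unfold cls
  split_ifs <;> simp_all

theorem cls_one {b : Bool} {top : Fin n → Prop} {x : Fin n} :
    cls b side top x = 1 ↔ side x = b ∧ top x := by
  unfold cls
  split_ifs <;> simp_all

theorem cls_two {b : Bool} {top : Fin n → Prop} {x : Fin n} :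
    cls b side top x = 2 ↔ side x = !b ∧ ¬ top x := by
  unfold cls
  cases hs : side x <;> cases b <;> by_cases ht : top x <;> simp [ht]

theorem cls_three {b : Bool} {top : Fin n → Prop} {x : Fin n} :
    cls b side top x = 3 ↔ side x = !b ∧ top x := by
  unfold cls
  cases hs : side x <;> cases b <;> by_cases ht : top x <;> simp [ht]

open Classical in
/-- case C1: there are few covers which do not go from `0` to `3` or from `2` to `1` -/
theorem few_anomalies (h : Sided δ m n r Fp Fm side) {top : Fin n → Prop}
    (hbot : ∀ x, ¬ top x → ((Fm x).card : ℝ) ≤ 2 * m * n)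
    (htop : ∀ x, top x → ((Fp x).card : ℝ) ≤ 2 * m * n) (b : Bool) :
    ((Finset.univ.filter fun p : Fin n × Fin n => Cov r p.1 p.2 ∧
      ¬ ((cls b side top p.1 = 0 ∧ cls b side top p.2 = 3) ∨
        (cls b side top p.1 = 2 ∧ cls b side top p.2 = 1))).card : ℝ) ≤ 3 * m * n ^ 2 := by
  set P := Finset.univ.filter fun p : Fin n × Fin n => Cov r p.1 p.2 ∧
      ¬ ((cls b side top p.1 = 0 ∧ cls b side top p.2 = 3) ∨
        (cls b side top p.1 = 2 ∧ cls b side top p.2 = 1)) with hP
  have hmem : ∀ p ∈ P, Cov r p.1 p.2 ∧ (top p.2 → top p.1) := by
    intro p hp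
    rw [hP, Finset.mem_filter] at hp
    refine ⟨hp.2.1, fun ht => ?_⟩
    by_contra hb
    apply hp.2.2
    rw [cls_zero, cls_three, cls_two, cls_one]
    by_cases hx : side p.1 = b
    · exact Or.inl ⟨⟨hx, hb⟩, not_side h hp.2.1 hx, ht⟩
    · have hx' : side p.1 = !b := by
        revert hx
        cases side p.1 <;> cases b <;> simp
      have := not_side h hp.2.1 hx'
      rw [Bool.not_not] at this
      exact Or.inr ⟨⟨hx', hb⟩, this, ht⟩
  set key : Fin n × Fin n → Fin n := fun p => if top p.2 then p.1 else p.2 with hkey
  have h1 : P.card = ∑ z ∈ (Finset.univ : Finset (Fin n)), (P.filter fun p => key p = z).card :=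
    Finset.card_eq_sum_card_fiberwise (fun p _ => by simp)
  have h2 : ∀ z : Fin n, ((P.filter fun p => key p = z).card : ℝ) ≤ 3 * m * n := by
    intro z
    by_cases hz : top z
    · have h3 : (P.filter fun p => key p = z).card ≤
          (Finset.univ.filter fun y => Cov r z y).card := by
        apply Finset.card_le_card_of_injOn (fun p => p.2)
        · intro p hp
          rw [Finset.mem_coe, Finset.mem_filter] at hp
          obtain ⟨hp1, hp2⟩ := hp
          have hc := hmem p hp1
          by_cases ht : top p.2
          · have : p.1 = z := by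
              rw [hkey] at hp2
              simpa [ht] using hp2
            simp only [Finset.coe_filter, Finset.mem_univ, true_and, Set.mem_ofPred_eq]
            rw [← this]
            exact hc.1
          · exfalso
            have : p.2 = z := by
              rw [hkey] at hp2
              simpa [ht] using hp2
            rw [this] at ht
            exact ht hz
        · intro p hp q hq hpq
          rw [Finset.mem_coe, Finset.mem_filter] at hp hq
          have e : ∀ p : Fin n × Fin n, p ∈ P → key p = z → p.1 = z := by
            intro p hp1 hp2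
            by_cases ht : top p.2
            · rw [hkey] at hp2
              simpa [ht] using hp2
            · exfalso
              have : p.2 = z := by
                rw [hkey] at hp2
                simpa [ht] using hp2
              rw [this] at ht
              exact ht hz
          exact Prod.ext ((e p hp.1 hp.2).trans (e q hq.1 hq.2).symm) hpq
      have h4 := h.up z
      have h5 := htop z hz
      have h6 : ((P.filter fun p => key p = z).card : ℝ) ≤
          ((Finset.univ.filter fun y => Cov r z y).card : ℝ) := by exact_mod_cast h3
      linarith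
    · have e : ∀ p : Fin n × Fin n, p ∈ P → key p = z → p.2 = z := by
        intro p hp1 hp2
        by_cases ht : top p.2
        · exfalso
          have : p.1 = z := by
            rw [hkey] at hp2
            simpa [ht] using hp2
          have h7 := (hmem p hp1).2 ht
          rw [this] at h7
          exact hz h7
        · rw [hkey] at hp2
          simpa [ht] using hp2
      have h3 : (P.filter fun p => key p = z).card ≤
          (Finset.univ.filter fun y => Cov r y z).card := by
        apply Finset.card_le_card_of_injOn (fun p => p.1)
        · intro p hp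
          rw [Finset.mem_coe, Finset.mem_filter] at hp
          obtain ⟨hp1, hp2⟩ := hp
          simp only [Finset.coe_filter, Finset.mem_univ, true_and, Set.mem_ofPred_eq]
          rw [← e p hp1 hp2]
          exact (hmem p hp1).1
        · intro p hp q hq hpq
          rw [Finset.mem_coe, Finset.mem_filter] at hp hq
          exact Prod.ext hpq ((e p hp.1 hp.2).trans (e q hq.1 hq.2).symm)
      have h4 := h.dn z
      have h5 := hbot z hz
      have h6 : ((P.filter fun p => key p = z).card : ℝ) ≤
          ((Finset.univ.filter fun y => Cov r y z).card : ℝ) := by exact_mod_cast h3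
      linarith
  rw [h1]
  push_cast
  calc ∑ z : Fin n, ((P.filter fun p => key p = z).card : ℝ)
      ≤ ∑ _z : Fin n, 3 * m * n := Finset.sum_le_sum fun z _ => h2 z
    _ = 3 * m * n ^ 2 := by
        rw [Finset.sum_const, Finset.card_univ, Fintype.card_fin, nsmul_eq_mul]
        ring

open Classical in
/-- case C2: the lower part of the side `b` and the upper part of the other side are small -/
theorem case_two (hr : SO r) (h : Sided δ m n r Fp Fm side) (hδ : δ / 4 ≤ δ - 3 * m)
    {top : Fin n → Prop} (hn : 1 ≤ n) (hδ' : 3 * m < δ)
    (hs : ∀ x y, side x = side y → (r x y ↔ ¬ top x ∧ top y))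
    (hbot : ∀ x, ¬ top x → ((Fm x).card : ℝ) ≤ 2 * m * n)
    (htop : ∀ x, top x → ((Fp x).card : ℝ) ≤ 2 * m * n) (b : Bool)
    (h0 : ((Finset.univ.filter fun x => cls b side top x = 0).card : ℝ) < δ / 4 * n)
    (h3 : ((Finset.univ.filter fun x => cls b side top x = 3).card : ℝ) < δ / 4 * n) :
    C2 (δ / 4) n r := by
  have hn0 : (0 : ℝ) ≤ n := by positivity
  have hside : ∀ x, side x ≠ b → side x = !b := by
    intro x
    cases side x <;> cases b <;> simp
  -- the lower part of `b` is minimal
  have hA : ∀ a, side a = b → ¬ top a → ∀ v, ¬ Cov r v a := by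
    intro a ha hta v hv
    have h4 : (Finset.univ.filter fun y => Cov r a y).card ≤
        (Finset.univ.filter fun x => cls b side top x = 3).card := by
      apply Finset.card_le_card
      intro u hu
      rw [Finset.mem_filter] at hu ⊢
      rw [cls_three]
      have e1 := not_side' h hv ha
      have e2 := not_side h hu.2 ha
      exact ⟨Finset.mem_univ _, e2,
        ((hs v u (e1.trans e2.symm)).mp (hr.trans hv.1 hu.2.1)).2⟩
    have h5 : ((Finset.univ.filter fun y => Cov r a y).card : ℝ) ≤
        ((Finset.univ.filter fun x => cls b side top x = 3).card : ℝ) := by exact_mod_cast h4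
    have h6 := many_up h (hbot a hta)
    have h7 := mul_le_mul_of_nonneg_right hδ hn0
    linarith
  -- the upper part of the other side is maximal
  have hC : ∀ c, side c = !b → top c → ∀ v, ¬ Cov r c v := by
    intro c hc htc v hv
    have h4 : (Finset.univ.filter fun y => Cov r y c).card ≤
        (Finset.univ.filter fun x => cls b side top x = 0).card := by
      apply Finset.card_le_card
      intro u hu
      rw [Finset.mem_filter] at hu ⊢
      rw [cls_zero]
      have e1 := not_side h hv hc
      have e2 := not_side' h hu.2 hc
      rw [Bool.not_not] at e1 e2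
      exact ⟨Finset.mem_univ _, e2,
        ((hs u v (e2.trans e1.symm)).mp (hr.trans hu.2.1 hv.1)).1⟩
    have h5 : ((Finset.univ.filter fun y => Cov r y c).card : ℝ) ≤
        ((Finset.univ.filter fun x => cls b side top x = 0).card : ℝ) := by exact_mod_cast h4
    have h6 := many_dn h (htop c htc)
    have h7 := mul_le_mul_of_nonneg_right hδ hn0
    linarith
  -- the covers of the upper part of `b` belong to the upper part of the other side
  have hD : ∀ x y, side x = b → top x → Cov r x y → top y := by
    intro x y hx htx hxy
    obtain ⟨z, hz⟩ := exists_dn h hδ' hn (htop x htx)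
    have e1 := not_side' h hz hx
    have e2 := not_side h hxy hx
    exact ((hs z y (e1.trans e2.symm)).mp (hr.trans hz.1 hxy.1)).2
  refine ⟨cls b side top, h0, h3, ?_⟩
  intro x y hxy
  rw [cls_zero, cls_two, cls_three, cls_two, cls_one, cls_one]
  by_cases hx : side x = b
  · have hy := not_side h hxy hx
    by_cases htx : top x
    · exact Or.inr (Or.inr (Or.inr ⟨⟨hx, htx⟩, hy, hD x y hx htx hxy⟩))
    · by_cases hty : top y
      · exact Or.inr (Or.inl ⟨⟨hx, htx⟩, hy, hty⟩)
      · exact Or.inl ⟨⟨hx, htx⟩, hy, hty⟩
  · have hx' := hside x hx
    have hy := not_side h hxy hx'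
    rw [Bool.not_not] at hy
    by_cases hty : top y
    · by_cases htx : top x
      · exact absurd hxy (hC x hx' htx y)
      · exact Or.inr (Or.inr (Or.inl ⟨⟨hx', htx⟩, hy, hty⟩))
    · exact absurd hxy (hA y hy hty x)

open Classical in
/-- both sides are large -/
theorem side_large (h : Sided δ m n r Fp Fm side) (hδ : 0 < δ) (hn : 1 ≤ n) (b : Bool) :
    δ * n ≤ ((Finset.univ.filter fun x => side x = b).card : ℝ) := by
  have hn0 : (1 : ℝ) ≤ n := by exact_mod_cast hn
  have h1 : ∀ x, side x = !b →
      δ * n ≤ ((Finset.univ.filter fun x => side x = b).card : ℝ) := by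
    intro x hx
    refine (h.deg x).trans ?_
    have : Nb r x ⊆ Finset.univ.filter fun x => side x = b := by
      intro y hy
      rw [mem_Nb] at hy
      rw [Finset.mem_filter]
      refine ⟨Finset.mem_univ _, ?_⟩
      rcases hy with hy | hy
      · have := not_side h hy hx
        rwa [Bool.not_not] at this
      · have := not_side' h hy hx
        rwa [Bool.not_not] at this
    exact_mod_cast Finset.card_le_card this
  obtain ⟨w⟩ : Nonempty (Fin n) := ⟨⟨0, hn⟩⟩
  by_cases hw : side w = !b
  · exact h1 w hw
  · have hw' : side w = b := by
      revert hw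
      cases side w <;> cases b <;> simp
    have h2 : (0 : ℝ) < ((Nb r w).card : ℝ) :=
      lt_of_lt_of_le (mul_pos hδ (by linarith)) (h.deg w)
    have h3 : 0 < (Nb r w).card := by exact_mod_cast h2
    obtain ⟨y, hy⟩ := Finset.card_pos.mp h3
    rw [mem_Nb] at hy
    rcases hy with hy | hy
    · exact h1 y (not_side h hy hw')
    · exact h1 y (not_side' h hy hw')

theorem fromSides : FromSides := by
  classical
  intro δ m κ n r Fp Fm side hr hδ hδ1 hm hmδ hmκ hn h
  have hn0 : (1 : ℝ) ≤ n := by exact_mod_cast hn
  have hm1 : m ≤ 1 / 100 := by linarith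
  have h3m : 3 * m < δ := by linarith
  rcases anti_or_split hr hm hm1 hn h false with h0 | ⟨t0, h0⟩
  · rcases anti_or_split hr hm hm1 hn h true with h1 | ⟨t1, h1⟩
    · left
      apply lay_anti hr h
      intro b
      cases b
      · exact h0
      · exact h1
    · left
      exact lay_split hr h h3m hn h0 h1
  · rcases anti_or_split hr hm hm1 hn h true with h1 | ⟨t1, h1⟩
    · left
      exact lay_split hr h h3m hn h1 h0
    · right
      set top : Fin n → Prop := fun x => if side x = false then t0 x else t1 x with htop'
      have e0 : ∀ x, side x = false → (top x ↔ t0 x) := by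
        intro x hx
        simp [htop', hx]
      have e1 : ∀ x, side x = true → (top x ↔ t1 x) := by
        intro x hx
        simp [htop', hx]
      have hs : ∀ x y, side x = side y → (r x y ↔ ¬ top x ∧ top y) := by
        intro x y hxy
        cases hx : side x
        · have hy : side y = false := hxy.symm.trans hx
          rw [e0 x hx, e0 y hy]
          exact h0.1 x y hx hy
        · have hy : side y = true := hxy.symm.trans hx
          rw [e1 x hx, e1 y hy]
          exact h1.1 x y hx hy
      have hbot : ∀ x, ¬ top x → ((Fm x).card : ℝ) ≤ 2 * m * n := by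
        intro x ht
        cases hx : side x
        · rw [e0 x hx] at ht
          exact h0.2.1 x hx ht
        · rw [e1 x hx] at ht
          exact h1.2.1 x hx ht
      have htop : ∀ x, top x → ((Fp x).card : ℝ) ≤ 2 * m * n := by
        intro x ht
        cases hx : side x
        · rw [e0 x hx] at ht
          exact h0.2.2 x hx ht
        · rw [e1 x hx] at ht
          exact h1.2.2 x hx ht
      set A := Finset.univ.filter fun x => cls false side top x = 0 with hA
      set C := Finset.univ.filter fun x => cls false side top x = 1 with hC
      set A' := Finset.univ.filter fun x => cls false side top x = 2 with hA'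
      set C' := Finset.univ.filter fun x => cls false side top x = 3 with hC'
      by_cases hc1 : (δ / 4 * n ≤ (A.card : ℝ) ∧ δ / 4 * n ≤ (A'.card : ℝ)) ∨
          (δ / 4 * n ≤ (C.card : ℝ) ∧ δ / 4 * n ≤ (C'.card : ℝ))
      · left
        refine ⟨cls false side top, ?_, ?_⟩
        · exact hc1
        · refine (few_anomalies h hbot htop false).trans ?_
          have : (0 : ℝ) ≤ (n : ℝ) ^ 2 := by positivity
          nlinarith
      · right
        rw [not_or, not_and_or, not_and_or] at hc1
        simp only [not_le] at hc1
        have hS0 : δ * n ≤ (A.card : ℝ) + C.card := by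
          refine (side_large h hδ hn false).trans ?_
          have : (Finset.univ.filter fun x => side x = false) ⊆ A ∪ C := by
            intro x hx
            rw [Finset.mem_filter] at hx
            rw [Finset.mem_union, hA, hC, Finset.mem_filter, Finset.mem_filter, cls_zero, cls_one]
            by_cases ht : top x
            · exact Or.inr ⟨Finset.mem_univ _, hx.2, ht⟩
            · exact Or.inl ⟨Finset.mem_univ _, hx.2, ht⟩
          have h5 := (Finset.card_le_card this).trans (Finset.card_union_le _ _)
          exact_mod_cast h5
        have hS1 : δ * n ≤ (A'.card : ℝ) + C'.card := by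
          refine (side_large h hδ hn true).trans ?_
          have : (Finset.univ.filter fun x => side x = true) ⊆ A' ∪ C' := by
            intro x hx
            rw [Finset.mem_filter] at hx
            rw [Finset.mem_union, hA', hC', Finset.mem_filter, Finset.mem_filter, cls_two,
              cls_three]
            by_cases ht : top x
            · exact Or.inr ⟨Finset.mem_univ _, hx.2, ht⟩
            · exact Or.inl ⟨Finset.mem_univ _, hx.2, ht⟩
          have h5 := (Finset.card_le_card this).trans (Finset.card_union_le _ _)
          exact_mod_cast h5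
        have hδn : 0 < δ * n := by positivity
        have hq : δ / 4 ≤ δ - 3 * m := by linarith
        by_cases hAs : (A.card : ℝ) < δ / 4 * n
        · have hCl : ¬ (C.card : ℝ) < δ / 4 * n := by
            intro hh
            linarith
          have hC's : (C'.card : ℝ) < δ / 4 * n := by
            rcases hc1.2 with hh | hh
            · exact absurd hh hCl
            · exact hh
          exact case_two hr h hq hn h3m hs hbot htop false hAs hC's
        · have hA's : (A'.card : ℝ) < δ / 4 * n := by
            rcases hc1.1 with hh | hh
            · exact absurd hh hAs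
            · exact hh
          have hC'l : ¬ (C'.card : ℝ) < δ / 4 * n := by
            intro hh
            linarith
          have hCs : (C.card : ℝ) < δ / 4 * n := by
            rcases hc1.2 with hh | hh
            · exact hh
            · exact absurd hh hC'l
          have f0 : (Finset.univ.filter fun x => cls true side top x = 0) = A' := by
            rw [hA']
            apply Finset.filter_congr
            intro x _
            rw [cls_zero, cls_two]
            simp
          have f3 : (Finset.univ.filter fun x => cls true side top x = 3) = C := by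
            rw [hC]
            apply Finset.filter_congr
            intro x _
            rw [cls_three, cls_one]
            simp
          refine case_two hr h hq hn h3m hs hbot htop true ?_ ?_
          · rw [f0]
            exact hA's
          · rw [f3]
            exact hCs

end

end Pool.Agent.Lib.MP_5bc52d_co.KR
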