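import Pool.Agent.Lib.MP_5bc52d_co.KR.Defs

/-!
# The lower bound for the number of orders with three balanced layers
-/

namespace Pool.Agent.Lib.MP_5bc52d_co.KR

open Finset

section Low

variable {V : Type*} [Fintype V] [DecidableEq V]

/-- the order with the layers `A`, `B`, `V ∖ (A ∪ B)` given by a set of pairs -/
def lowRel (A B : Finset V) (E : Finset (V × V)) (x y : V) : Prop :=
  (x ∈ A ∧ y ∈ B ∧ (x, y) ∈ E) ∨ (x ∈ B ∧ y ∉ A ∧ y ∉ B ∧ (y, x) ∈ E) ∨
    (x ∈ A ∧ y ∉ A ∧ y ∉ B)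

/-- the good orders with the lowest layer `A` and the middle layer `B` -/
def Good (A B : Finset V) (r : V → V → Prop) : Prop :=
  (∀ x y, r x y → (x ∈ A ∧ y ∈ B) ∨ (x ∈ B ∧ y ∉ A ∧ y ∉ B) ∨ (x ∈ A ∧ y ∉ A ∧ y ∉ B)) ∧
  (∀ a ∈ A, ∀ c, c ∉ A → c ∉ B → r a c) ∧
  ∀ b ∈ B, (∃ a ∈ A, r a b) ∧ ∃ c, c ∉ A ∧ c ∉ B ∧ r b c

omit [Fintype V] [DecidableEq V] in
theorem Good.so {A B : Finset V} (hAB : Disjoint A B) {r : V → V → Prop} (h : Good A B r) :
    SO r := by
  have hd : ∀ x, x ∈ A → x ∈ B → False := fun x h1 h2 =>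
    (Finset.disjoint_left.mp hAB) h1 h2
  refine ⟨fun x hx => ?_, fun x y z h1 h2 => ?_⟩
  · rcases h.1 x x hx with h1 | h1 | h1
    · exact hd x h1.1 h1.2
    · exact h1.2.2 h1.1
    · exact h1.2.1 h1.1
  · rcases h.1 x y h1 with h3 | h3 | h3
    · rcases h.1 y z h2 with h4 | h4 | h4
      · exact (hd y h4.1 h3.2).elim
      · exact h.2.1 x h3.1 z h4.2.1 h4.2.2
      · exact (hd y h4.1 h3.2).elim
    · rcases h.1 y z h2 with h4 | h4 | h4
      · exact (h3.2.1 h4.1).elim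
      · exact (h3.2.2 h4.1).elim
      · exact (h3.2.1 h4.1).elim
    · rcases h.1 y z h2 with h4 | h4 | h4
      · exact (h3.2.1 h4.1).elim
      · exact (h3.2.2 h4.1).elim
      · exact (h3.2.1 h4.1).elim

omit [Fintype V] [DecidableEq V] in
/-- `A` is the set of minimal elements -/
theorem Good.mem_left {A B : Finset V} (hAB : Disjoint A B) (hA : A.Nonempty) {r : V → V → Prop}
    (h : Good A B r) (x : V) : x ∈ A ↔ ∀ y, ¬ r y x := by
  constructor
  · intro hx y hy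
    rcases h.1 y x hy with h1 | h1 | h1
    · exact (Finset.disjoint_left.mp hAB) hx h1.2
    · exact h1.2.1 hx
    · exact h1.2.1 hx
  · intro hx
    by_contra hxA
    by_cases hxB : x ∈ B
    · obtain ⟨a, -, ha⟩ := (h.2.2 x hxB).1
      exact hx a ha
    · obtain ⟨a, ha⟩ := hA
      exact hx a (h.2.1 a ha x hxA hxB)

omit [Fintype V] [DecidableEq V] in
/-- the complement of `A ∪ B` is the set of maximal elements which are not in `A` -/
theorem Good.mem_right {A B : Finset V} (hAB : Disjoint A B) {r : V → V → Prop}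
    (h : Good A B r) (x : V) : x ∈ B ↔ x ∉ A ∧ ∃ y, r x y := by
  constructor
  · intro hx
    refine ⟨fun h1 => (Finset.disjoint_left.mp hAB) h1 hx, ?_⟩
    obtain ⟨c, -, -, hc⟩ := (h.2.2 x hx).2
    exact ⟨c, hc⟩
  · rintro ⟨hxA, y, hy⟩
    rcases h.1 x y hy with h1 | h1 | h1
    · exact (hxA h1.1).elim
    · exact h1.1
    · exact (hxA h1.1).elim

omit [Fintype V] [DecidableEq V] in
theorem Good.unique {A B A' B' : Finset V} (hAB : Disjoint A B) (hAB' : Disjoint A' B')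
    (hA : A.Nonempty) (hA' : A'.Nonempty) {r : V → V → Prop} (h : Good A B r)
    (h' : Good A' B' r) : A = A' ∧ B = B' := by
  have h1 : A = A' := by
    ext x
    rw [h.mem_left hAB hA, h'.mem_left hAB' hA']
  refine ⟨h1, ?_⟩
  ext x
  rw [h.mem_right hAB, h'.mem_right hAB', h1]

/-- the good sets of pairs -/
def GoodE (A B : Finset V) (E : Finset (V × V)) : Prop :=
  ∀ b ∈ B, (∃ a ∈ A, (a, b) ∈ E) ∧ ∃ c, c ∉ A ∧ c ∉ B ∧ (c, b) ∈ E

omit [Fintype V] [DecidableEq V] in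
theorem good_lowRel {A B : Finset V} {E : Finset (V × V)} (hE : GoodE A B E) :
    Good A B (lowRel A B E) := by
  refine ⟨fun x y h => ?_, fun a ha c hc hc' => Or.inr (Or.inr ⟨ha, hc, hc'⟩), fun b hb => ?_⟩
  · rcases h with h | h | h
    · exact Or.inl ⟨h.1, h.2.1⟩
    · exact Or.inr (Or.inl ⟨h.1, h.2.1, h.2.2.1⟩)
    · exact Or.inr (Or.inr h)
  · obtain ⟨⟨a, ha, hab⟩, c, hc, hc', hcb⟩ := hE b hb
    exact ⟨⟨a, ha, Or.inl ⟨ha, hb, hab⟩⟩, c, hc, hc', Or.inr (Or.inl ⟨hb, hc, hc', hcb⟩)⟩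

theorem lowRel_inj {A B : Finset V} (hAB : Disjoint A B) {E E' : Finset (V × V)}
    (hE : E ⊆ (univ \ B) ×ˢ B) (hE' : E' ⊆ (univ \ B) ×ˢ B)
    (h : lowRel A B E = lowRel A B E') : E = E' := by
  have hd : ∀ x, x ∈ A → x ∈ B → False := fun x h1 h2 =>
    (Finset.disjoint_left.mp hAB) h1 h2
  have key : ∀ E E' : Finset (V × V), E ⊆ (univ \ B) ×ˢ B → lowRel A B E = lowRel A B E' →
      E ⊆ E' := by
    intro E E' hE h p hp
    obtain ⟨x, y⟩ := p
    have h1 := hE hp
    rw [Finset.mem_product, Finset.mem_sdiff] at h1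
    by_cases hx : x ∈ A
    · have h2 : lowRel A B E' x y := by
        rw [← h]
        exact Or.inl ⟨hx, h1.2, hp⟩
      rcases h2 with h2 | h2 | h2
      · exact h2.2.2
      · exact (hd x hx h2.1).elim
      · exact (h2.2.2 h1.2).elim
    · have h2 : lowRel A B E' y x := by
        rw [← h]
        exact Or.inr (Or.inl ⟨h1.2, hx, h1.1.2, hp⟩)
      rcases h2 with h2 | h2 | h2
      · exact (hd y h2.1 h1.2).elim
      · exact h2.2.2.2
      · exact (hd y h2.1 h1.2).elim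
  exact Finset.Subset.antisymm (key E E' hE h) (key E' E hE' h.symm)

open Classical in
/-- half of the sets of pairs are good -/
theorem card_goodE {A B : Finset V} (hAB : Disjoint A B) {a : ℕ} (hA : a ≤ A.card)
    (hC : a ≤ (univ \ (A ∪ B)).card) (hb : 4 * B.card ≤ 2 ^ a) :
    2 ^ ((univ \ B).card * B.card) ≤
      2 * (((univ \ B) ×ˢ B).powerset.filter (GoodE A B)).card := by
  set U : Finset (V × V) := (univ \ B) ×ˢ B with hU
  have hUc : U.card = (univ \ B).card * B.card := by rw [hU, Finset.card_product]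
  -- for a set `S` of at least `a` elements outside of `B`
  have key : ∀ S : Finset V, S ⊆ univ \ B → a ≤ S.card → ∀ b ∈ B,
      2 ^ a * (U.powerset.filter fun E => ∀ s ∈ S, (s, b) ∉ E).card ≤ 2 ^ U.card := by
    intro S hS haS b hb
    have h1 : (U.powerset.filter fun E => ∀ s ∈ S, (s, b) ∉ E) ⊆ (U \ (S ×ˢ {b})).powerset := by
      intro E hE
      rw [Finset.mem_filter, Finset.mem_powerset] at hE
      rw [Finset.mem_powerset]
      intro p hp
      rw [Finset.mem_sdiff]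
      refine ⟨hE.1 hp, fun h2 => ?_⟩
      rw [Finset.mem_product, Finset.mem_singleton] at h2
      obtain ⟨x, y⟩ := p
      simp only at h2
      rw [h2.2] at hp
      exact hE.2 x h2.1 hp
    have h2' : (S ×ˢ ({b} : Finset V)).card = S.card := by
      rw [Finset.card_product, Finset.card_singleton, mul_one]
    have h2 : (U \ (S ×ˢ {b})).card = U.card - S.card := by
      rw [Finset.card_sdiff_of_subset, h2']
      intro p hp
      rw [Finset.mem_product, Finset.mem_singleton] at hp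
      rw [hU, Finset.mem_product]
      exact ⟨hS hp.1, hp.2 ▸ hb⟩
    have h3 : S.card ≤ U.card := by
      rw [hUc]
      calc S.card ≤ (univ \ B).card := Finset.card_le_card hS
        _ ≤ (univ \ B).card * B.card := Nat.le_mul_of_pos_right _ (Finset.card_pos.mpr ⟨b, hb⟩)
    have h4 := Finset.card_le_card h1
    rw [Finset.card_powerset, h2] at h4
    calc 2 ^ a * (U.powerset.filter fun E => ∀ s ∈ S, (s, b) ∉ E).card
        ≤ 2 ^ S.card * 2 ^ (U.card - S.card) :=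
          Nat.mul_le_mul (Nat.pow_le_pow_right (by norm_num) haS) h4
      _ = 2 ^ U.card := by
          rw [← pow_add]
          congr 1
          omega
  have hbad : U.powerset ⊆ (U.powerset.filter (GoodE A B)) ∪
      (B.biUnion fun b => (U.powerset.filter fun E => ∀ s ∈ A, (s, b) ∉ E) ∪
        (U.powerset.filter fun E => ∀ s ∈ univ \ (A ∪ B), (s, b) ∉ E)) := by
    intro E hE
    rw [Finset.mem_union, Finset.mem_filter]
    by_cases hg : GoodE A B E
    · exact Or.inl ⟨hE, hg⟩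
    · right
      unfold GoodE at hg
      push Not at hg
      obtain ⟨b, hb, h1⟩ := hg
      rw [Finset.mem_biUnion]
      refine ⟨b, hb, ?_⟩
      rw [Finset.mem_union, Finset.mem_filter, Finset.mem_filter]
      by_cases h2 : ∃ a ∈ A, (a, b) ∈ E
      · right
        refine ⟨hE, fun s hs => ?_⟩
        rw [Finset.mem_sdiff, Finset.mem_union] at hs
        push Not at hs
        exact h1 h2 s hs.2.1 hs.2.2
      · left
        push Not at h2
        exact ⟨hE, h2⟩
  have hcard := Finset.card_le_card hbad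
  rw [Finset.card_powerset] at hcard
  have h5 : 2 ^ a * (B.biUnion fun b => (U.powerset.filter fun E => ∀ s ∈ A, (s, b) ∉ E) ∪
        (U.powerset.filter fun E => ∀ s ∈ univ \ (A ∪ B), (s, b) ∉ E)).card ≤
      B.card * (2 * 2 ^ U.card) := by
    calc _ ≤ 2 ^ a * ∑ b ∈ B, ((U.powerset.filter fun E => ∀ s ∈ A, (s, b) ∉ E) ∪
        (U.powerset.filter fun E => ∀ s ∈ univ \ (A ∪ B), (s, b) ∉ E)).card :=
          Nat.mul_le_mul_left _ Finset.card_biUnion_le
      _ = ∑ b ∈ B, 2 ^ a * ((U.powerset.filter fun E => ∀ s ∈ A, (s, b) ∉ E) ∪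
        (U.powerset.filter fun E => ∀ s ∈ univ \ (A ∪ B), (s, b) ∉ E)).card := by
          rw [Finset.mul_sum]
      _ ≤ ∑ b ∈ B, 2 * 2 ^ U.card := by
          apply Finset.sum_le_sum
          intro b hb
          have h6 := key A (by
            intro x hx
            rw [Finset.mem_sdiff]
            exact ⟨Finset.mem_univ x, fun h => (Finset.disjoint_left.mp hAB) hx h⟩) hA b hb
          have h7 := key (univ \ (A ∪ B)) (by
            intro x hx
            rw [Finset.mem_sdiff, Finset.mem_union] at hx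
            rw [Finset.mem_sdiff]
            exact ⟨Finset.mem_univ x, fun h => hx.2 (Or.inr h)⟩) hC b hb
          calc _ ≤ 2 ^ a * ((U.powerset.filter fun E => ∀ s ∈ A, (s, b) ∉ E).card +
                (U.powerset.filter fun E => ∀ s ∈ univ \ (A ∪ B), (s, b) ∉ E).card) :=
                Nat.mul_le_mul_left _ (Finset.card_union_le _ _)
            _ = 2 ^ a * (U.powerset.filter fun E => ∀ s ∈ A, (s, b) ∉ E).card +
                2 ^ a * (U.powerset.filter fun E => ∀ s ∈ univ \ (A ∪ B), (s, b) ∉ E).card := by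
                rw [Nat.mul_add]
            _ ≤ 2 * 2 ^ U.card := by omega
      _ = B.card * (2 * 2 ^ U.card) := by rw [Finset.sum_const, smul_eq_mul]
  have h8 := Finset.card_union_le (U.powerset.filter (GoodE A B))
    (B.biUnion fun b => (U.powerset.filter fun E => ∀ s ∈ A, (s, b) ∉ E) ∪
        (U.powerset.filter fun E => ∀ s ∈ univ \ (A ∪ B), (s, b) ∉ E))
  set X := (B.biUnion fun b => (U.powerset.filter fun E => ∀ s ∈ A, (s, b) ∉ E) ∪
        (U.powerset.filter fun E => ∀ s ∈ univ \ (A ∪ B), (s, b) ∉ E)).card with hX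
  -- `2 X ≤ 2 ^ U.card`
  have h9 : 2 * X ≤ 2 ^ U.card := by
    have h10 : 2 ^ a * (2 * X) ≤ 2 ^ a * 2 ^ U.card := by
      calc 2 ^ a * (2 * X) = 2 * (2 ^ a * X) := by ring
        _ ≤ 2 * (B.card * (2 * 2 ^ U.card)) := Nat.mul_le_mul_left _ h5
        _ = (4 * B.card) * 2 ^ U.card := by ring
        _ ≤ 2 ^ a * 2 ^ U.card := Nat.mul_le_mul_right _ hb
    exact Nat.le_of_mul_le_mul_left h10 (by positivity)
  rw [← hUc]
  omega

open Classical in
/-- the number of good orders for given layers -/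
theorem card_good {A B : Finset V} (hAB : Disjoint A B) {a : ℕ} (hA : a ≤ A.card)
    (hC : a ≤ (univ \ (A ∪ B)).card) (hb : 4 * B.card ≤ 2 ^ a) :
    2 ^ ((univ \ B).card * B.card) ≤
      2 * (Finset.univ.filter fun r : V → V → Prop => Good A B r).card := by
  refine le_trans (card_goodE hAB hA hC hb) (Nat.mul_le_mul_left _ ?_)
  apply Finset.card_le_card_of_injOn (fun E => lowRel A B E)
  · intro E hE
    rw [Finset.mem_coe, Finset.mem_filter] at hE
    rw [Finset.mem_coe, Finset.mem_filter]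
    exact ⟨Finset.mem_univ _, good_lowRel hE.2⟩
  · intro E hE E' hE' h
    rw [Finset.mem_coe, Finset.mem_filter, Finset.mem_powerset] at hE hE'
    exact lowRel_inj hAB hE.1 hE'.1 h

end Low

/-! ### Binomial coefficients -/

theorem two_pow_le_choose (n : ℕ) : 2 ^ n ≤ (n + 1) * n.choose (n / 2) := by
  rw [← Nat.sum_range_choose n]
  calc ∑ m ∈ Finset.range (n + 1), n.choose m ≤ ∑ _m ∈ Finset.range (n + 1), n.choose (n / 2) :=
        Finset.sum_le_sum fun i _ => Nat.choose_le_middle i n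
    _ = (n + 1) * n.choose (n / 2) := by
        rw [Finset.sum_const, Finset.card_range, smul_eq_mul]

/-- the pairs `(B, A)` of layers which are used -/
def lowPairs (n : ℕ) : Finset (Σ _ : Finset (Fin n), Finset (Fin n)) :=
  (Finset.powersetCard (n / 2) Finset.univ).sigma fun B =>
    Finset.powersetCard ((n - n / 2) / 2) (Finset.univ \ B)

theorem card_lowPairs (n : ℕ) :
    (lowPairs n).card = n.choose (n / 2) * (n - n / 2).choose ((n - n / 2) / 2) := by
  unfold lowPairs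
  rw [Finset.card_sigma]
  calc ∑ B ∈ Finset.powersetCard (n / 2) (Finset.univ : Finset (Fin n)),
        (Finset.powersetCard ((n - n / 2) / 2) (Finset.univ \ B)).card
      = ∑ _B ∈ Finset.powersetCard (n / 2) (Finset.univ : Finset (Fin n)),
        (n - n / 2).choose ((n - n / 2) / 2) := by
        apply Finset.sum_congr rfl
        intro B hB
        rw [Finset.mem_powersetCard] at hB
        rw [Finset.card_powersetCard, Finset.card_sdiff_of_subset (Finset.subset_univ B),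
          Finset.card_univ, Fintype.card_fin, hB.2]
    _ = n.choose (n / 2) * (n - n / 2).choose ((n - n / 2) / 2) := by
        rw [Finset.sum_const, Finset.card_powersetCard, Finset.card_univ, Fintype.card_fin,
          smul_eq_mul]

theorem mem_lowPairs {n : ℕ} {p : Σ _ : Finset (Fin n), Finset (Fin n)} (hp : p ∈ lowPairs n) :
    p.1.card = n / 2 ∧ p.2.card = (n - n / 2) / 2 ∧ Disjoint p.2 p.1 ∧
      (Finset.univ \ p.1).card = n - n / 2 ∧
      (Finset.univ \ (p.2 ∪ p.1)).card = (n - n / 2) - (n - n / 2) / 2 := by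
  unfold lowPairs at hp
  rw [Finset.mem_sigma, Finset.mem_powersetCard, Finset.mem_powersetCard] at hp
  have hd : Disjoint p.2 p.1 := by
    rw [Finset.disjoint_left]
    intro x hx hx'
    have := hp.2.1 hx
    rw [Finset.mem_sdiff] at this
    exact this.2 hx'
  refine ⟨hp.1.2, hp.2.2, hd, ?_, ?_⟩
  · rw [Finset.card_sdiff_of_subset (Finset.subset_univ _), Finset.card_univ, Fintype.card_fin,
      hp.1.2]
  · rw [Finset.card_sdiff_of_subset (Finset.subset_univ _), Finset.card_univ, Fintype.card_fin,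
      Finset.card_union_of_disjoint hd, hp.1.2, hp.2.2]
    omega

/-- a good order with balanced layers satisfies `LayB` -/
theorem layB_of_good {n : ℕ} {A B : Finset (Fin n)} (hAB : Disjoint A B) {δ : ℝ}
    (h1 : δ * n ≤ A.card) (h2 : δ * n ≤ B.card) (h3 : δ * n ≤ (Finset.univ \ (A ∪ B)).card)
    {r : Fin n → Fin n → Prop} (h : Good A B r) : LayB δ n r := by
  have hm : ∀ x, x ∈ Finset.univ \ (A ∪ B) ↔ x ∉ A ∧ x ∉ B := by
    intro x
    rw [Finset.mem_sdiff, Finset.mem_union]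
    constructor
    · rintro ⟨-, h⟩
      exact ⟨fun h' => h (Or.inl h'), fun h' => h (Or.inr h')⟩
    · rintro ⟨h, h'⟩
      exact ⟨Finset.mem_univ x, fun h'' => h''.elim h h'⟩
  refine ⟨A, B, Finset.univ \ (A ∪ B), ⟨fun x => ?_, hAB, ?_, ?_, h1, h2, h3⟩,
    fun x y hxy => ?_, fun a ha c hc => ?_⟩
  · rw [hm]
    tauto
  · rw [Finset.disjoint_left]
    intro x hx hx'
    exact ((hm x).mp hx').2 hx
  · rw [Finset.disjoint_left]
    intro x hx hx'
    exact ((hm x).mp hx').1 hx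
  · rw [hm]
    rcases h.1 x y hxy with h4 | h4 | h4
    · exact Or.inl h4
    · exact Or.inr (Or.inl h4)
    · exact Or.inr (Or.inr h4)
  · rw [hm] at hc
    exact h.2.1 a ha c hc.1 hc.2

/-- the count -/
theorem card_layB {n : ℕ} {δ : ℝ} (hδ : δ * n ≤ (((n - n / 2) / 2 : ℕ) : ℝ))
    (hn : 4 * (n / 2) ≤ 2 ^ ((n - n / 2) / 2)) (hn' : 0 < (n - n / 2) / 2) :
    n.choose (n / 2) * (n - n / 2).choose ((n - n / 2) / 2) * 2 ^ ((n - n / 2) * (n / 2)) ≤
      2 * num n (LayB δ n) := by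
  classical
  have hsub : (lowPairs n).biUnion
      (fun p => Finset.univ.filter fun r : Fin n → Fin n → Prop => Good p.2 p.1 r) ⊆
      Finset.univ.filter fun r : Fin n → Fin n → Prop => SO r ∧ LayB δ n r := by
    intro r hr
    rw [Finset.mem_biUnion] at hr
    obtain ⟨p, hp, hr⟩ := hr
    rw [Finset.mem_filter] at hr
    obtain ⟨h1, h2, h3, h4, h5⟩ := mem_lowPairs hp
    rw [Finset.mem_filter]
    refine ⟨Finset.mem_univ r, hr.2.so h3, layB_of_good h3 ?_ ?_ ?_ hr.2⟩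
    · rw [h2]
      exact hδ
    · rw [h1]
      refine le_trans hδ ?_
      exact_mod_cast (by omega : (n - n / 2) / 2 ≤ n / 2)
    · rw [h5]
      refine le_trans hδ ?_
      exact_mod_cast (by omega : (n - n / 2) / 2 ≤ (n - n / 2) - (n - n / 2) / 2)
  have hdisj : ∀ p ∈ lowPairs n, ∀ q ∈ lowPairs n, p ≠ q →
      Disjoint (Finset.univ.filter fun r : Fin n → Fin n → Prop => Good p.2 p.1 r)
        (Finset.univ.filter fun r : Fin n → Fin n → Prop => Good q.2 q.1 r) := by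
    intro p hp q hq hpq
    rw [Finset.disjoint_left]
    intro r hr hr'
    rw [Finset.mem_filter] at hr hr'
    obtain ⟨h1, h2, h3, -, -⟩ := mem_lowPairs hp
    obtain ⟨h1', h2', h3', -, -⟩ := mem_lowPairs hq
    have h6 := hr.2.unique h3 h3' (Finset.card_pos.mp (by omega)) (Finset.card_pos.mp (by omega))
      hr'.2
    apply hpq
    obtain ⟨p1, p2⟩ := p
    obtain ⟨q1, q2⟩ := q
    simp only at h6
    rw [h6.1, h6.2]
  have h1 := Finset.card_le_card hsub
  rw [Finset.card_biUnion hdisj] at h1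
  have h2 : ∑ p ∈ lowPairs n, 2 ^ ((n - n / 2) * (n / 2)) ≤ 2 * ∑ p ∈ lowPairs n,
      (Finset.univ.filter fun r : Fin n → Fin n → Prop => Good p.2 p.1 r).card := by
    rw [Finset.mul_sum]
    apply Finset.sum_le_sum
    intro p hp
    obtain ⟨h1, h2, h3, h4, h5⟩ := mem_lowPairs hp
    have h6 := card_good (A := p.2) (B := p.1) h3 (a := (n - n / 2) / 2) (by omega) (by omega)
      (by rw [h1]; exact hn)
    rw [h4, h1] at h6
    exact h6
  rw [Finset.sum_const, card_lowPairs, smul_eq_mul] at h2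
  refine le_trans h2 (Nat.mul_le_mul_left _ ?_)
  unfold num
  convert h1

/-! ### Asymptotics -/

theorem eventually_pow_le : ∃ N : ℕ, ∀ n ≥ N, 4 * ((n : ℝ) + 1) ^ 2 ≤ (2 : ℝ) ^ ((n : ℝ) / 8) := by
  have h1 : (1 : ℝ) < (2 : ℝ) ^ (1 / 8 : ℝ) := Real.one_lt_rpow (by norm_num) (by norm_num)
  have h2 := tendsto_pow_const_div_const_pow_of_one_lt 3 h1
  have h3 : ∀ᶠ n : ℕ in Filter.atTop, (n : ℝ) ^ 3 / ((2 : ℝ) ^ (1 / 8 : ℝ)) ^ n < 1 :=
    h2.eventually (gt_mem_nhds (by norm_num))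
  obtain ⟨N, hN⟩ := Filter.eventually_atTop.mp h3
  refine ⟨max N 8, fun n hn => ?_⟩
  have h4 := hN n (le_trans (le_max_left _ _) hn)
  have h5 : (8 : ℝ) ≤ n := by exact_mod_cast le_trans (le_max_right _ _) hn
  have h6 : ((2 : ℝ) ^ (1 / 8 : ℝ)) ^ n = (2 : ℝ) ^ ((n : ℝ) / 8) := by
    rw [← Real.rpow_natCast, ← Real.rpow_mul (by norm_num)]
    congr 1
    ring
  rw [h6, div_lt_one (by positivity)] at h4
  have h7 : 4 * ((n : ℝ) + 1) ^ 2 ≤ (n : ℝ) ^ 3 := by nlinarith [sq_nonneg ((n : ℝ) - 8)]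
  linarith

/-- K11a: the lower bound -/
theorem lower : Lower := by
  refine ⟨1 / 8, by norm_num, fun δ hδ hδ' => ?_⟩
  obtain ⟨N, hN⟩ := eventually_pow_le
  refine ⟨max N 8, fun n hn => ?_⟩
  have h1 := hN n (le_trans (le_max_left _ _) hn)
  have h2 : 8 ≤ n := le_trans (le_max_right _ _) hn
  have h2' : (8 : ℝ) ≤ n := by exact_mod_cast h2
  set b := n / 2 with hb
  set a := (n - b) / 2 with ha
  have hb1 : (n : ℝ) / 2 - 1 / 2 ≤ (b : ℝ) ∧ (b : ℝ) ≤ (n : ℝ) / 2 := by
    have h3 : (n : ℝ) ≤ 2 * b + 1 := by exact_mod_cast (by omega : n ≤ 2 * b + 1)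
    have h4 : 2 * (b : ℝ) ≤ n := by exact_mod_cast (by omega : 2 * b ≤ n)
    constructor <;> linarith
  have hnb : ((n - b : ℕ) : ℝ) = (n : ℝ) - b := by
    rw [Nat.cast_sub (by omega)]
  have ha1 : (n : ℝ) / 8 ≤ (a : ℝ) := by
    have h3 : ((n - b : ℕ) : ℝ) ≤ 2 * a + 1 := by exact_mod_cast (by omega : n - b ≤ 2 * a + 1)
    rw [hnb] at h3
    linarith [hb1.2]
  have h3 : 4 * b ≤ 2 ^ a := by
    have h4 : (4 : ℝ) * b ≤ (2 : ℝ) ^ a := by
      calc (4 : ℝ) * b ≤ 4 * ((n : ℝ) + 1) ^ 2 := by nlinarith [hb1.2]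
        _ ≤ (2 : ℝ) ^ ((n : ℝ) / 8) := h1
        _ ≤ (2 : ℝ) ^ (a : ℝ) := Real.rpow_le_rpow_of_exponent_le (by norm_num) ha1
        _ = (2 : ℝ) ^ a := Real.rpow_natCast 2 a
    exact_mod_cast h4
  have h4 := card_layB (n := n) (δ := δ) (by
    refine le_trans ?_ ha1
    nlinarith) h3 (by omega)
  rw [← hb, ← ha] at h4
  have h5 := two_pow_le_choose n
  have h6 := two_pow_le_choose (n - b)
  rw [← hb] at h5
  rw [← ha] at h6
  have h7 : 2 ^ n * 2 ^ (n - b) * 2 ^ ((n - b) * b) ≤ (n + 1) ^ 2 * (2 * num n (LayB δ n)) := by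
    calc 2 ^ n * 2 ^ (n - b) * 2 ^ ((n - b) * b)
        ≤ ((n + 1) * n.choose b) * ((n - b + 1) * (n - b).choose a) * 2 ^ ((n - b) * b) :=
          Nat.mul_le_mul_right _ (Nat.mul_le_mul h5 h6)
      _ ≤ ((n + 1) * n.choose b) * ((n + 1) * (n - b).choose a) * 2 ^ ((n - b) * b) :=
          Nat.mul_le_mul_right _ (Nat.mul_le_mul_left _ (Nat.mul_le_mul_right _ (by omega)))
      _ = (n + 1) ^ 2 * (n.choose b * (n - b).choose a * 2 ^ ((n - b) * b)) := by ring
      _ ≤ (n + 1) ^ 2 * (2 * num n (LayB δ n)) := Nat.mul_le_mul_left _ h4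
  have h8 : (2 : ℝ) ^ ((n : ℝ) + ((n : ℝ) - b) + ((n : ℝ) - b) * b) ≤
      ((n : ℝ) + 1) ^ 2 * (2 * (num n (LayB δ n) : ℝ)) := by
    have h9 : ((2 ^ n * 2 ^ (n - b) * 2 ^ ((n - b) * b) : ℕ) : ℝ) ≤
        (((n + 1) ^ 2 * (2 * num n (LayB δ n)) : ℕ) : ℝ) := by exact_mod_cast h7
    push_cast at h9
    refine le_trans (le_of_eq ?_) h9
    rw [Real.rpow_add (by norm_num), Real.rpow_add (by norm_num), ← hnb,
      ← Nat.cast_mul, Real.rpow_natCast, Real.rpow_natCast, Real.rpow_natCast]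
  have h10 : (n : ℝ) ^ 2 / 4 + 11 / 8 * n + n / 8 ≤
      (n : ℝ) + ((n : ℝ) - b) + ((n : ℝ) - b) * b + 1 / 4 := by
    nlinarith [hb1.1, hb1.2, mul_nonneg (sub_nonneg.mpr hb1.2) (sub_nonneg.mpr hb1.1)]
  have h11 : (2 : ℝ) ^ ((n : ℝ) ^ 2 / 4 + 11 / 8 * n) * (2 : ℝ) ^ ((n : ℝ) / 8) ≤
      ((n : ℝ) + 1) ^ 2 * (2 * (num n (LayB δ n) : ℝ)) * 2 := by
    rw [← Real.rpow_add (by norm_num)]
    calc (2 : ℝ) ^ ((n : ℝ) ^ 2 / 4 + 11 / 8 * n + n / 8)
        ≤ (2 : ℝ) ^ ((n : ℝ) + ((n : ℝ) - b) + ((n : ℝ) - b) * b + 1) :=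
          Real.rpow_le_rpow_of_exponent_le (by norm_num) (by linarith)
      _ = (2 : ℝ) ^ ((n : ℝ) + ((n : ℝ) - b) + ((n : ℝ) - b) * b) * 2 := by
          rw [Real.rpow_add (by norm_num), Real.rpow_one]
      _ ≤ ((n : ℝ) + 1) ^ 2 * (2 * (num n (LayB δ n) : ℝ)) * 2 := by
          apply mul_le_mul_of_nonneg_right h8 (by norm_num)
  have h12 : (2 : ℝ) ^ ((n : ℝ) ^ 2 / 4 + 11 / 8 * n) * (4 * ((n : ℝ) + 1) ^ 2) ≤
      (num n (LayB δ n) : ℝ) * (4 * ((n : ℝ) + 1) ^ 2) := by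
    calc (2 : ℝ) ^ ((n : ℝ) ^ 2 / 4 + 11 / 8 * n) * (4 * ((n : ℝ) + 1) ^ 2)
        ≤ (2 : ℝ) ^ ((n : ℝ) ^ 2 / 4 + 11 / 8 * n) * (2 : ℝ) ^ ((n : ℝ) / 8) :=
          mul_le_mul_of_nonneg_left h1 (by positivity)
      _ ≤ ((n : ℝ) + 1) ^ 2 * (2 * (num n (LayB δ n) : ℝ)) * 2 := h11
      _ = (num n (LayB δ n) : ℝ) * (4 * ((n : ℝ) + 1) ^ 2) := by ring
  exact le_of_mul_le_mul_right h12 (by positivity)

end Pool.Agent.Lib.MP_5bc52d_co.KR
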