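import Mathlib
import Pool.Agent.Lib.MP_5bc52d_co.KR.Engine
import Pool.Agent.Lib.MP_5bc52d_co.KR.Entropy

/-!
# The first removal class: an element with few covers
-/

namespace Pool.Agent.Lib.MP_5bc52d_co.KR

open Finset

section determined

variable {V : Type*} [Fintype V] [DecidableEq V] {r r' : V → V → Prop}

/-- The relations from `x` upwards are determined by the upper covers and the rest. -/
theorem up_of_covers (hr : SO r) (hr' : SO r') {x : V} (hres : res {x} r = res {x} r')
    (hu : Nbs true r x = Nbs true r' x) {v : V} (h : r x v) : r' x v := by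
  obtain ⟨z, hz, hzv⟩ := exists_cov_left hr h
  have hz1 : z ∈ Nbs true r x := by
    rw [mem_Nbs, sg_true]
    exact hz
  rw [hu, mem_Nbs, sg_true] at hz1
  rcases hzv with rfl | hzv
  · exact hz1.1
  · have hzx : z ∉ ({x} : Finset V) := by
      rw [Finset.mem_singleton]
      exact (hr.ne hz.1).symm
    have hvx : v ∉ ({x} : Finset V) := by
      rw [Finset.mem_singleton]
      exact (hr.ne h).symm
    exact hr'.trans hz1.1 ((res_iff hres hzx hvx).mp hzv)

/-- The relations from `x` downwards are determined by the lower covers and the rest. -/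
theorem down_of_covers (hr : SO r) (hr' : SO r') {x : V} (hres : res {x} r = res {x} r')
    (hu : Nbs false r x = Nbs false r' x) {v : V} (h : r v x) : r' v x := by
  obtain ⟨z, hz, hzv⟩ := exists_cov_right hr h
  have hz1 : z ∈ Nbs false r x := by
    rw [mem_Nbs, sg_false, cov_dual]
    exact hz
  rw [hu, mem_Nbs, sg_false, cov_dual] at hz1
  rcases hzv with rfl | hzv
  · exact hz1.1
  · have hzx : z ∉ ({x} : Finset V) := by
      rw [Finset.mem_singleton]
      exact hr.ne hz.1
    have hvx : v ∉ ({x} : Finset V) := by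
      rw [Finset.mem_singleton]
      exact hr.ne h
    exact hr'.trans ((res_iff hres hvx hzx).mp hzv) hz1.1

theorem eq_of_covers (hr : SO r) (hr' : SO r') {x : V} (hres : res {x} r = res {x} r')
    (h1 : Nbs true r x = Nbs true r' x) (h2 : Nbs false r x = Nbs false r' x) : r = r' := by
  funext u v
  apply propext
  by_cases hu : u = x
  · subst hu
    exact ⟨fun h => up_of_covers hr hr' hres h1 h, fun h => up_of_covers hr' hr hres.symm h1.symm h⟩
  · by_cases hv : v = x
    · subst hv
      exact ⟨fun h => down_of_covers hr hr' hres h2 h,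
        fun h => down_of_covers hr' hr hres.symm h2.symm h⟩
    · exact res_iff hres (by rwa [Finset.mem_singleton]) (by rwa [Finset.mem_singleton])

theorem Nbs_subset_Nb_aux (s : Bool) (r : V → V → Prop) (x : V) : Nbs s r x ⊆ Nb r x := by
  intro y hy
  rw [mem_Nbs] at hy
  rw [mem_Nb]
  cases s
  · rw [sg_false, cov_dual] at hy
    exact Or.inr hy
  · rw [sg_true] at hy
    exact Or.inl hy

end determined

/-- K2 -/
theorem bR0 : BR0 := by
  classical
  obtain ⟨t₀, ht₀, hent⟩ := card_small_fin (η := 1 / 8) (by norm_num)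
  refine ⟨t₀, ht₀, fun δ _ hδ => ?_⟩
  obtain ⟨N, hN⟩ := absorb 1 1 (1 / 4) (3 / 8) (by norm_num)
  refine ⟨1 / 8, 1, N, by norm_num, by norm_num, fun n hn _ => ?_⟩
  have heng := engine (n := n) (k := 1) (D := Unit) (R0 δ n)
    (fun S _ r => ∃ x, S = {x} ∧ ((Nb r x).card : ℝ) < δ * n)
    ((2 : ℝ) ^ ((1 / 8 : ℝ) * n) * (2 : ℝ) ^ ((1 / 8 : ℝ) * n)) (by positivity)
    (fun r _ hr => by
      obtain ⟨x, hx⟩ := hr
      exact ⟨{x}, Finset.card_singleton x, (), x, rfl, hx⟩)
    (by
      intro S hS d ρ
      obtain ⟨x, rfl⟩ := Finset.card_eq_one.mp hS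
      set F := Finset.univ.filter fun r : Fin n → Fin n → Prop =>
        SO r ∧ (∃ y, ({x} : Finset (Fin n)) = {y} ∧ ((Nb r y).card : ℝ) < δ * n) ∧
          res {x} r = ρ with hF
      set T := Finset.univ.filter fun S : Finset (Fin n) => (S.card : ℝ) ≤ δ * n with hT
      have h1 : F.card ≤ (T ×ˢ T).card := by
        refine Finset.card_le_card_of_injOn (fun r => (Nbs true r x, Nbs false r x)) ?_ ?_
        · intro r hr
          have hr1 := (Finset.mem_filter.mp (Finset.mem_coe.mp hr)).2
          obtain ⟨hso, ⟨y, hy, hcard⟩, _⟩ := hr1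
          rw [Finset.singleton_inj] at hy
          subst hy
          have hle : ∀ s, ((Nbs s r x).card : ℝ) ≤ δ * n := by
            intro s
            have h2 : ((Nbs s r x).card : ℝ) ≤ (Nb r x).card := by
              exact_mod_cast Finset.card_le_card (Nbs_subset_Nb_aux s r x)
            linarith
          exact Finset.mem_coe.mpr (Finset.mem_product.mpr
            ⟨Finset.mem_filter.mpr ⟨Finset.mem_univ _, hle true⟩,
              Finset.mem_filter.mpr ⟨Finset.mem_univ _, hle false⟩⟩)
        · intro r hr r' hr' heq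
          have hr1 := (Finset.mem_filter.mp (Finset.mem_coe.mp hr)).2
          have hr1' := (Finset.mem_filter.mp (Finset.mem_coe.mp hr')).2
          simp only [Prod.mk.injEq] at heq
          exact eq_of_covers hr1.1 hr1'.1 (hr1.2.2.trans hr1'.2.2.symm) heq.1 heq.2
      have h2 : (T.card : ℝ) ≤ (2 : ℝ) ^ ((1 / 8 : ℝ) * n) := hent δ hδ n
      have h3 : (F.card : ℝ) ≤ (T.card : ℝ) * T.card := by
        rw [Finset.card_product] at h1
        exact_mod_cast h1
      refine le_trans ?_ (h3.trans (mul_le_mul h2 h2 (Nat.cast_nonneg _) (by positivity)))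
      apply le_of_eq
      congr 2
      ext r
      simp only [hF, Finset.mem_filter])
  refine heng.trans (mul_le_mul_of_nonneg_right ?_ (Nat.cast_nonneg _))
  have h4 := hN n hn
  have h5 : (2 : ℝ) ^ ((1 / 8 : ℝ) * n) * (2 : ℝ) ^ ((1 / 8 : ℝ) * n) =
      (2 : ℝ) ^ ((1 / 4 : ℝ) * n) := by
    rw [← Real.rpow_add (by norm_num)]
    congr 1
    ring
  have h6 : (((1 : ℕ) : ℝ) / 2 - 1 / 8) * n = 3 / 8 * n := by
    push_cast
    ring
  rw [h6, h5, Fintype.card_unit, Nat.cast_one, mul_one]
  rw [one_mul] at h4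
  exact h4

end Pool.Agent.Lib.MP_5bc52d_co.KR
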