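import Mathlib
import Pool.Agent.Lib.MP_5bc52d_co.KR.Engine

/-!
# The class `R1`: two sets of candidates for the same element with a small intersection
-/

namespace Pool.Agent.Lib.MP_5bc52d_co.KR

open Finset

namespace R1aux

section

variable {V : Type*} [Fintype V] [DecidableEq V] {r r' : V → V → Prop}

/-- `x` itself is always a candidate -/
theorem self_mem_FF {K : ℕ} {s : Bool} {x : V} {Q : Finset V} (hr : SO r) (h : OK K s r x Q) :
    x ∈ FF s r Q :=
  mem_FF.mpr (Or.inl (mem_G1.mpr ⟨h.notMem hr, fun q hq => (h.2 q hq).1⟩))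

/-- the candidates depend on the rest only -/
theorem FF_mono {K : ℕ} {s : Bool} {x : V} {Q : Finset V} (hr : SO r) (hr' : SO r')
    (h : OK K s r x Q) (h' : OK K s r' x Q) (hres : res {x} r = res {x} r') :
    FF s r Q ⊆ FF s r' Q := by
  intro v hv
  by_cases hvx : v = x
  · rw [hvx]
    exact self_mem_FF hr' h'
  · have hvS : v ∉ ({x} : Finset V) := by simpa using hvx
    have hQ : ∀ q ∈ Q, q ∉ ({x} : Finset V) := by
      intro q hq hqx
      rw [Finset.mem_singleton] at hqx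
      rw [hqx] at hq
      exact h.notMem hr hq
    have hsg : ∀ q ∈ Q, (sg s r v q ↔ sg s r' v q) := by
      intro q hq
      cases s
      · simp only [sg_false, KR.dual]
        exact res_iff hres (hQ q hq) hvS
      · simp only [sg_true]
        exact res_iff hres hvS (hQ q hq)
    rw [mem_FF, mem_G1, mem_G2] at hv ⊢
    rcases hv with ⟨h1, h2⟩ | ⟨h1, h2⟩
    · exact Or.inl ⟨h1, fun q hq => (hsg q hq).mp (h2 q hq)⟩
    · exact Or.inr ⟨h1, fun q hq => ⟨fun h3 => (h2 q hq).1 ((res_iff hres hvS (hQ q hq)).mpr h3),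
        fun h3 => (h2 q hq).2 ((res_iff hres (hQ q hq) hvS).mpr h3)⟩⟩

theorem FF_eq_of_res {K : ℕ} {s : Bool} {x : V} {Q : Finset V} (hr : SO r) (hr' : SO r')
    (h : OK K s r x Q) (h' : OK K s r' x Q) (hres : res {x} r = res {x} r') :
    FF s r Q = FF s r' Q :=
  Finset.Subset.antisymm (FF_mono hr hr' h h' hres) (FF_mono hr' hr h' h hres.symm)

/-- the order is determined by the rest and the bits of the common candidates -/
theorem eq_of_bits {K : ℕ} (hK : 1 ≤ K) {s s' : Bool} {x : V} {Q Q' : Finset V}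
    (hr : SO r) (hr' : SO r')
    (h1 : OK K s r x Q) (h1' : OK K s r' x Q) (h2 : OK K s' r x Q') (h2' : OK K s' r' x Q')
    (hres : res {x} r = res {x} r')
    (hbit : ∀ v ∈ FF s r Q ∩ FF s' r Q', (r x v ∨ r v x) ↔ (r' x v ∨ r' v x)) : r = r' := by
  have hQ : ∀ q ∈ Q, q ∉ ({x} : Finset V) := by
    intro q hq hqx
    rw [Finset.mem_singleton] at hqx
    rw [hqx] at hq
    exact h1.notMem hr hq
  have hQ' : ∀ q ∈ Q', q ∉ ({x} : Finset V) := by
    intro q hq hqx
    rw [Finset.mem_singleton] at hqx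
    rw [hqx] at hq
    exact h2.notMem hr hq
  have key : ∀ v, (r x v ↔ r' x v) ∧ (r v x ↔ r' v x) := by
    intro v
    by_cases hvx : v = x
    · rw [hvx]
      exact ⟨iff_of_false (hr.irrefl x) (hr'.irrefl x), iff_of_false (hr.irrefl x) (hr'.irrefl x)⟩
    · have hvS : v ∉ ({x} : Finset V) := by simpa using hvx
      have hQv : ∀ q ∈ Q, (r q v ↔ r' q v) ∧ (r v q ↔ r' v q) := fun q hq =>
        ⟨res_iff hres (hQ q hq) hvS, res_iff hres hvS (hQ q hq)⟩
      have hQv' : ∀ q ∈ Q', (r q v ↔ r' q v) ∧ (r v q ↔ r' v q) := fun q hq =>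
        ⟨res_iff hres (hQ' q hq) hvS, res_iff hres hvS (hQ' q hq)⟩
      by_cases hv : v ∈ FF s r Q
      · by_cases hv' : v ∈ FF s' r Q'
        · exact rel_eq_of_mem_FF hr hr' h1 h1' (h1.nonempty hK) hQv hv
            (hbit v (Finset.mem_inter.mpr ⟨hv, hv'⟩))
        · exact rel_eq_of_notMem_FF hr hr' h2 h2' hQv' hv'
      · exact rel_eq_of_notMem_FF hr hr' h1 h1' hQv hv
  funext u v
  apply propext
  by_cases hu : u = x
  · rw [hu]
    exact (key v).1
  · by_cases hv : v = x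
    · rw [hv]
      exact (key u).2
    · exact res_iff hres (by simpa using hu) (by simpa using hv)

end

/-- the data: two signs and two lists -/
abbrev Dat (K n : ℕ) : Type := (Bool × (Fin K → Fin n)) × (Bool × (Fin K → Fin n))

open Classical in
/-- the set of the elements of a list -/
noncomputable def rg {K n : ℕ} (f : Fin K → Fin n) : Finset (Fin n) := Finset.univ.image f

theorem exists_rg {K n : ℕ} {Q : Finset (Fin n)} (h : Q.card = K) : ∃ f : Fin K → Fin n, rg f = Q := by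
  classical
  refine ⟨fun i => (Q.orderIsoOfFin h i : Fin n), ?_⟩
  ext v
  rw [rg, Finset.mem_image]
  constructor
  · rintro ⟨i, -, rfl⟩
    exact (Q.orderIsoOfFin h i).2
  · intro hv
    exact ⟨(Q.orderIsoOfFin h).symm ⟨v, hv⟩, Finset.mem_univ _, by simp⟩

/-- the property with the data -/
def P' (ε : ℝ) (K n : ℕ) (S : Finset (Fin n)) (d : Dat K n) (r : Fin n → Fin n → Prop) : Prop :=
  ∃ x, S = {x} ∧ OK K d.1.1 r x (rg d.1.2) ∧ OK K d.2.1 r x (rg d.2.2) ∧
    ((FF d.1.1 r (rg d.1.2) ∩ FF d.2.1 r (rg d.2.2)).card : ℝ) ≤ (1 / 2 - ε) * n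

theorem fibre {ε : ℝ} {K n : ℕ} (hK : 1 ≤ K) (S : Finset (Fin n)) (d : Dat K n)
    (rho : Fin n → Fin n → Prop) (A : Finset (Fin n → Fin n → Prop))
    (hA : ∀ r ∈ A, SO r ∧ P' ε K n S d r ∧ res S r = rho) :
    (A.card : ℝ) ≤ (2 : ℝ) ^ ((1 / 2 - ε) * n) := by
  classical
  by_cases hne : A.Nonempty
  swap
  · rw [Finset.not_nonempty_iff_eq_empty] at hne
    rw [hne, Finset.card_empty, Nat.cast_zero]
    positivity
  obtain ⟨r₀, hr₀⟩ := hne
  obtain ⟨hso₀, ⟨x, hS, h1₀, h2₀, hcard⟩, hres₀⟩ := hA r₀ hr₀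
  have hall : ∀ r ∈ A, SO r ∧ OK K d.1.1 r x (rg d.1.2) ∧ OK K d.2.1 r x (rg d.2.2) ∧
      res {x} r = rho := by
    intro r hr
    obtain ⟨hso, ⟨y, hS', h1, h2, -⟩, hres⟩ := hA r hr
    have hxy : y = x := by
      rw [hS] at hS'
      exact (Finset.singleton_injective hS').symm
    rw [hxy] at h1 h2
    rw [hS] at hres
    exact ⟨hso, h1, h2, hres⟩
  set E : Finset (Fin n) := FF d.1.1 r₀ (rg d.1.2) ∩ FF d.2.1 r₀ (rg d.2.2) with hE
  rw [hS] at hres₀
  have hEr : ∀ r ∈ A, FF d.1.1 r (rg d.1.2) ∩ FF d.2.1 r (rg d.2.2) = E := by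
    intro r hr
    obtain ⟨hso, h1, h2, hres⟩ := hall r hr
    rw [hE, FF_eq_of_res hso hso₀ h1 h1₀ (hres.trans hres₀.symm),
      FF_eq_of_res hso hso₀ h2 h2₀ (hres.trans hres₀.symm)]
  have hle : A.card ≤ E.powerset.card := by
    refine Finset.card_le_card_of_injOn (fun r => E.filter fun v => r x v ∨ r v x) ?_ ?_
    · intro r _
      simp only [Finset.coe_powerset, Set.mem_preimage, Set.mem_powerset_iff, Finset.coe_subset]
      exact Finset.filter_subset _ _
    · intro r hr r' hr' heq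
      obtain ⟨hso, h1, h2, hres⟩ := hall r hr
      obtain ⟨hso', h1', h2', hres'⟩ := hall r' hr'
      refine eq_of_bits hK hso hso' h1 h1' h2 h2' (hres.trans hres'.symm) ?_
      intro v hv
      rw [hEr r hr] at hv
      have h3 := Finset.ext_iff.mp heq v
      simp only [Finset.mem_filter, hv, true_and] at h3
      exact h3
  rw [Finset.card_powerset] at hle
  calc (A.card : ℝ) ≤ ((2 ^ E.card : ℕ) : ℝ) := by exact_mod_cast hle
    _ = (2 : ℝ) ^ (E.card : ℝ) := by
      rw [Real.rpow_natCast]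
      push_cast
      rfl
    _ ≤ (2 : ℝ) ^ ((1 / 2 - ε) * n) := Real.rpow_le_rpow_of_exponent_le (by norm_num) hcard

end R1aux

open R1aux in
/-- K3 -/
theorem bR1 : BR1 := by
  classical
  intro ε K hε hK
  obtain ⟨N, hN⟩ := absorb 4 (2 * K + 1) (1 / 2 - ε) (1 / 2 - ε / 2) (by linarith)
  refine ⟨ε / 2, 1, N, by positivity, one_pos, fun n hn _ => ?_⟩
  have h := engine (n := n) (k := 1) (D := Dat K n) (R1 ε K n) (P' ε K n)
    ((2 : ℝ) ^ ((1 / 2 - ε) * n)) (by positivity) ?_ ?_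
  · refine h.trans ?_
    have hD : (Fintype.card (Dat K n) : ℝ) = 4 * (n : ℝ) ^ (2 * K) := by
      simp only [Dat, Fintype.card_prod, Fintype.card_bool, Fintype.card_fun, Fintype.card_fin]
      push_cast
      ring
    rw [hD]
    apply mul_le_mul_of_nonneg_right _ (Nat.cast_nonneg _)
    refine le_trans (le_of_eq ?_) ((hN n hn).trans (le_of_eq ?_))
    · ring
    · push_cast
      ring_nf
  · rintro r hr ⟨x, s, Q, s', Q', h1, h2, h3⟩
    obtain ⟨f, hf⟩ := exists_rg h1.1
    obtain ⟨f', hf'⟩ := exists_rg h2.1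
    refine ⟨{x}, Finset.card_singleton x, ((s, f), (s', f')), x, rfl, ?_, ?_, ?_⟩
    · simpa only [hf] using h1
    · simpa only [hf'] using h2
    · simpa only [hf, hf'] using h3
  · intro S _ d rho
    refine fibre (ε := ε) hK S d rho _ ?_
    intro r hr
    simpa using hr

end Pool.Agent.Lib.MP_5bc52d_co.KR
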