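import Mathlib
import Pool.Agent.Lib.MP_5bc52d_co.KR.Engine

/-!
# K4: orders with too many candidates are rare
-/

namespace Pool.Agent.Lib.MP_5bc52d_co.KR

open Finset

/-- The case of upper covers. -/
def P2 (ε : ℝ) (K n : ℕ) (r : Fin n → Fin n → Prop) : Prop :=
  ∃ x Q, OK K true r x Q ∧ ((RR true r Q).card : ℝ) ≤ (1 / 2 - ε) * n

theorem RR_dual {n : ℕ} (r : Fin n → Fin n → Prop) (Q : Finset (Fin n)) :
    RR true (KR.dual r) Q = RR false r Q := by
  have h1 : G1 true (KR.dual r) Q = G1 false r Q := by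
    ext v
    rw [mem_G1, mem_G1, sg_true, sg_false]
  have h2 : G2 (KR.dual r) Q = G2 r Q := by
    ext v
    rw [mem_G2, mem_G2]
    exact and_congr_right fun _ => forall₂_congr fun q _ => and_comm
  rw [RR, RR, FF, FF, h1, h2]

theorem R2_imp {ε : ℝ} {K n : ℕ} {r : Fin n → Fin n → Prop} (h : R2 ε K n r) :
    P2 ε K n r ∨ P2 ε K n (KR.dual r) := by
  obtain ⟨x, s, Q, hOK, hc⟩ := h
  cases s
  · right
    refine ⟨x, Q, ?_, ?_⟩
    · refine ⟨hOK.1, fun q hq => ?_⟩
      have := hOK.2 q hq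
      rw [sg_false] at this
      rw [sg_true]
      exact this
    · rw [RR_dual]
      exact hc
  · left
    exact ⟨x, Q, hOK, hc⟩

open Classical in
/-- the class of an element outside of `S` -/
noncomputable def code2 {n : ℕ} (S : Finset (Fin n)) (r : Fin n → Fin n → Prop) :
    Fin n → Fin 4 :=
  fun v => if v ∈ G1 true r S then 0 else if v ∈ G2 r S then 1 else
    if ∃ q ∈ S, r q v then 2 else 3

/-- the property of the fibres -/
def P2' (ε : ℝ) (K n : ℕ) (S : Finset (Fin n)) (g : Fin n → Fin 4)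
    (r : Fin n → Fin n → Prop) : Prop :=
  ∃ x, OK K true r x S ∧ ((RR true r S).card : ℝ) ≤ (1 / 2 - ε) * n ∧ g = code2 S r

theorem code2_zero {n : ℕ} {S : Finset (Fin n)} {r : Fin n → Fin n → Prop} {v : Fin n}
    (h : code2 S r v = 0) : v ∈ G1 true r S := by
  classical
  by_contra hn
  simp only [code2, hn, if_false] at h
  split_ifs at h
  · exact absurd h (by decide)
  · exact absurd h (by decide)
  · exact absurd h (by decide)

theorem code2_one {n : ℕ} {S : Finset (Fin n)} {r : Fin n → Fin n → Prop} {v : Fin n}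
    (h : code2 S r v = 1) : v ∈ G2 r S := by
  classical
  by_contra hn
  simp only [code2, hn, if_false] at h
  split_ifs at h
  · exact absurd h (by decide)
  · exact absurd h (by decide)
  · exact absurd h (by decide)

theorem code2_two {n : ℕ} {S : Finset (Fin n)} {r : Fin n → Fin n → Prop} {v : Fin n}
    (h : code2 S r v = 2) : v ∉ G1 true r S ∧ v ∉ G2 r S ∧ ∃ q ∈ S, r q v := by
  classical
  simp only [code2] at h
  split_ifs at h with h1 h2 h3
  · exact absurd h (by decide)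
  · exact absurd h (by decide)
  · exact ⟨h1, h2, h3⟩
  · exact absurd h (by decide)

theorem code2_three {n : ℕ} {S : Finset (Fin n)} {r : Fin n → Fin n → Prop} {v : Fin n}
    (h : code2 S r v = 3) : v ∉ G1 true r S ∧ v ∉ G2 r S ∧ ¬ ∃ q ∈ S, r q v := by
  classical
  simp only [code2] at h
  split_ifs at h with h1 h2 h3
  · exact absurd h (by decide)
  · exact absurd h (by decide)
  · exact absurd h (by decide)
  · exact ⟨h1, h2, h3⟩

theorem code2_cases {n : ℕ} (S : Finset (Fin n)) (r : Fin n → Fin n → Prop) (v : Fin n) :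
    code2 S r v = 0 ∨ code2 S r v = 1 ∨ code2 S r v = 2 ∨ code2 S r v = 3 := by
  classical
  simp only [code2]
  split_ifs <;> simp

theorem mem_RR_code {n : ℕ} {S : Finset (Fin n)} {r : Fin n → Fin n → Prop} {v : Fin n} :
    v ∈ RR true r S ↔ v ∉ S ∧ (code2 S r v = 2 ∨ code2 S r v = 3) := by
  rw [mem_RR, mem_FF, not_or]
  constructor
  · rintro ⟨h1, h2, h3⟩
    refine ⟨h1, ?_⟩
    rcases code2_cases S r v with h | h | h | h
    · exact absurd (code2_zero h) h2
    · exact absurd (code2_one h) h3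
    · exact Or.inl h
    · exact Or.inr h
  · rintro ⟨h1, h | h⟩
    · exact ⟨h1, (code2_two h).1, (code2_two h).2.1⟩
    · exact ⟨h1, (code2_three h).1, (code2_three h).2.1⟩

/-- The relations between `S` and its complement are determined. -/
theorem key2 {n K : ℕ} {S : Finset (Fin n)} {r r' : Fin n → Fin n → Prop} (hr : SO r)
    (hr' : SO r') {x x' : Fin n} (h : OK K true r x S) (h' : OK K true r' x' S)
    (hg : code2 S r = code2 S r') {v q : Fin n} (hv : v ∉ S) (hq : q ∈ S)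
    (hc : v ∈ RR true r S → ((r v q ∨ r q v) ↔ (r' v q ∨ r' q v))) :
    (r v q ↔ r' v q) ∧ (r q v ↔ r' q v) := by
  have hgv : code2 S r v = code2 S r' v := congrFun hg v
  have two : ∀ (ρ : Fin n → Fin n → Prop) (y : Fin n), SO ρ → OK K true ρ y S →
      code2 S ρ v = 2 → ¬ ρ v q := by
    intro ρ y hρ hy h2 hvq
    obtain ⟨-, -, q0, hq0, h0⟩ := code2_two h2
    have h3 := hy.2 q0 hq0
    have h4 := hy.2 q hq
    rw [sg_true] at h3 h4
    exact h4.2 v (hρ.trans h3.1 h0) hvq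
  rcases code2_cases S r v with h0 | h0 | h0 | h0
  · have h1 := (mem_G1.mp (code2_zero h0)).2 q hq
    have h2 := (mem_G1.mp (code2_zero (hgv ▸ h0))).2 q hq
    rw [sg_true] at h1 h2
    exact ⟨iff_of_true h1 h2, iff_of_false (hr.asymm h1) (hr'.asymm h2)⟩
  · have h1 := (mem_G2.mp (code2_one h0)).2 q hq
    have h2 := (mem_G2.mp (code2_one (hgv ▸ h0))).2 q hq
    exact ⟨iff_of_false h1.1 h2.1, iff_of_false h1.2 h2.2⟩
  · have h1 := two r x hr h h0
    have h2 := two r' x' hr' h' (hgv ▸ h0)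
    have h3 := hc (mem_RR_code.mpr ⟨hv, Or.inl h0⟩)
    refine ⟨iff_of_false h1 h2, ?_⟩
    constructor
    · intro h4
      exact (h3.mp (Or.inr h4)).resolve_left h2
    · intro h4
      exact (h3.mpr (Or.inr h4)).resolve_left h1
  · have h1 : ¬ r q v := fun h5 => (code2_three h0).2.2 ⟨q, hq, h5⟩
    have h2 : ¬ r' q v := fun h5 => (code2_three (hgv ▸ h0)).2.2 ⟨q, hq, h5⟩
    have h3 := hc (mem_RR_code.mpr ⟨hv, Or.inr h0⟩)
    refine ⟨?_, iff_of_false h1 h2⟩
    constructor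
    · intro h4
      exact (h3.mp (Or.inl h4)).resolve_right h2
    · intro h4
      exact (h3.mpr (Or.inl h4)).resolve_right h1

open Classical in
/-- The fibres. -/
theorem fibre2 (ε : ℝ) (K n : ℕ) (S : Finset (Fin n)) (g : Fin n → Fin 4)
    (ρ : Fin n → Fin n → Prop) :
    ((Finset.univ.filter fun r : Fin n → Fin n → Prop =>
        SO r ∧ P2' ε K n S g r ∧ res S r = ρ).card : ℝ) ≤ (2 : ℝ) ^ ((K : ℝ) * ((1 / 2 - ε) * n)) := by
  set F := Finset.univ.filter fun r : Fin n → Fin n → Prop =>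
        SO r ∧ P2' ε K n S g r ∧ res S r = ρ with hF
  rcases F.eq_empty_or_nonempty with h0 | ⟨r0, hr0⟩
  · rw [h0, card_empty, Nat.cast_zero]
    positivity
  have hmem : ∀ r ∈ F, SO r ∧ P2' ε K n S g r ∧ res S r = ρ := by
    intro r hr
    rw [hF, mem_filter] at hr
    exact hr.2
  obtain ⟨-, ⟨x0, hOK0, hcard0, hg0⟩, -⟩ := hmem r0 hr0
  let T : Finset (Fin n × Fin n) := (RR true r0 S) ×ˢ S
  have hTcard : (T.card : ℝ) ≤ (K : ℝ) * ((1 / 2 - ε) * n) := by
    simp only [T]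
    rw [card_product, hOK0.1]
    push_cast
    rw [mul_comm]
    exact mul_le_mul_of_nonneg_left hcard0 (by positivity)
  have hle : F.card ≤ 2 ^ T.card := by
    apply card_le_two_pow F T (fun r => T.filter fun p => r p.1 p.2 ∨ r p.2 p.1)
    · intro r hr r' hr' heq
      obtain ⟨hso, ⟨x, hOK, -, hg⟩, hres⟩ := hmem r hr
      obtain ⟨hso', ⟨x', hOK', -, hg'⟩, hres'⟩ := hmem r' hr'
      have hcode : code2 S r = code2 S r' := hg ▸ hg'
      have hRR : ∀ v, v ∈ RR true r S → v ∈ RR true r0 S := by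
        intro v hv
        rw [mem_RR_code] at hv ⊢
        rw [← hg0, hg]
        exact hv
      have hc : ∀ v q, q ∈ S → v ∈ RR true r S → ((r v q ∨ r q v) ↔ (r' v q ∨ r' q v)) := by
        intro v q hq hv
        have hT : (v, q) ∈ T := mem_product.mpr ⟨hRR v hv, hq⟩
        have h1 : (v, q) ∈ T.filter (fun p => r p.1 p.2 ∨ r p.2 p.1) ↔
            (v, q) ∈ T.filter (fun p => r' p.1 p.2 ∨ r' p.2 p.1) := by
          have heq' : T.filter (fun p => r p.1 p.2 ∨ r p.2 p.1) =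
            T.filter (fun p => r' p.1 p.2 ∨ r' p.2 p.1) := heq
          rw [heq']
        rw [mem_filter, mem_filter] at h1
        constructor
        · intro h2
          exact (h1.mp ⟨hT, h2⟩).2
        · intro h2
          exact (h1.mpr ⟨hT, h2⟩).2
      have hk : ∀ v q, v ∉ S → q ∈ S → (r v q ↔ r' v q) ∧ (r q v ↔ r' q v) := by
        intro v q hv hq
        exact key2 hso hso' hOK hOK' hcode hv hq (hc v q hq)
      funext a b
      apply propext
      by_cases ha : a ∈ S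
      · by_cases hb : b ∈ S
        · exact iff_of_false (hOK.anti ha hb) (hOK'.anti ha hb)
        · exact (hk b a hb ha).2
      · by_cases hb : b ∈ S
        · exact (hk a b ha hb).1
        · exact res_iff (hres.trans hres'.symm) ha hb
    · intro r _
      exact filter_subset _ _
  calc (F.card : ℝ) ≤ ((2 ^ T.card : ℕ) : ℝ) := by exact_mod_cast hle
    _ ≤ _ := two_pow_card_le T hTcard

theorem num_P2_le (ε : ℝ) (K n : ℕ) :
    (num n (P2 ε K n) : ℝ) ≤ (n : ℝ) ^ K * ((4 : ℝ) ^ n) *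
      (2 : ℝ) ^ ((K : ℝ) * ((1 / 2 - ε) * n)) * numPO (n - K) := by
  have h := engine (n := n) (k := K) (D := Fin n → Fin 4) (P2 ε K n) (P2' ε K n)
    ((2 : ℝ) ^ ((K : ℝ) * ((1 / 2 - ε) * n))) (by positivity)
    (by
      rintro r - ⟨x, Q, hOK, hc⟩
      exact ⟨Q, hOK.1, code2 Q r, x, hOK, hc, rfl⟩)
    (by
      intro S _ g ρ
      convert fibre2 ε K n S g ρ)
  have hcard : (Fintype.card (Fin n → Fin 4) : ℝ) = (4 : ℝ) ^ n := by
    rw [Fintype.card_fun, Fintype.card_fin, Fintype.card_fin]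
    push_cast
    rfl
  rw [hcard] at h
  exact h

/-- K4 -/
theorem bR2 : BR2 := by
  intro ε K hε hK
  have hK0 : 0 < K := by
    rcases Nat.eq_zero_or_pos K with h | h
    · rw [h] at hK
      norm_num at hK
    · exact h
  obtain ⟨N, hN⟩ := absorb 2 K ((K : ℝ) / 2 - 1) ((K : ℝ) / 2 - 1 / 2) (by linarith)
  refine ⟨1 / 2, K, N, by norm_num, hK0, ?_⟩
  intro n hn _
  have h1 : num n (R2 ε K n) ≤ num n (P2 ε K n) + num n (P2 ε K n) := by
    refine (num_mono (P' := fun r => P2 ε K n r ∨ P2 ε K n (KR.dual r))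
      (fun r _ h => R2_imp h)).trans ?_
    refine (num_or_le _ _).trans ?_
    rw [← num_dual n (P2 ε K n)]
  have h2 : (num n (R2 ε K n) : ℝ) ≤ 2 * (num n (P2 ε K n) : ℝ) := by
    have : (num n (R2 ε K n) : ℝ) ≤ ((num n (P2 ε K n) + num n (P2 ε K n) : ℕ) : ℝ) := by
      exact_mod_cast h1
    push_cast at this
    linarith
  have h3 := num_P2_le ε K n
  have h4 : (4 : ℝ) ^ n * (2 : ℝ) ^ ((K : ℝ) * ((1 / 2 - ε) * n)) ≤
      (2 : ℝ) ^ (((K : ℝ) / 2 - 1) * n) := by
    have h5 : (4 : ℝ) ^ n = (2 : ℝ) ^ (2 * (n : ℝ)) := by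
      have := four_pow_eq n
      push_cast at this
      exact this
    rw [h5, ← Real.rpow_add (by norm_num)]
    apply Real.rpow_le_rpow_of_exponent_le (by norm_num)
    have h6 : (0 : ℝ) ≤ n := Nat.cast_nonneg n
    nlinarith
  have h7 := hN n hn
  have h8 : (0 : ℝ) ≤ numPO (n - K) := by positivity
  have h9 : (0 : ℝ) ≤ (n : ℝ) ^ K := by positivity
  calc (num n (R2 ε K n) : ℝ) ≤ 2 * (num n (P2 ε K n) : ℝ) := h2
    _ ≤ 2 * ((n : ℝ) ^ K * ((4 : ℝ) ^ n) *
      (2 : ℝ) ^ ((K : ℝ) * ((1 / 2 - ε) * n)) * numPO (n - K)) := by linarith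
    _ = (2 * (n : ℝ) ^ K) * ((4 : ℝ) ^ n * (2 : ℝ) ^ ((K : ℝ) * ((1 / 2 - ε) * n)))
        * numPO (n - K) := by ring
    _ ≤ (2 * (n : ℝ) ^ K) * ((2 : ℝ) ^ (((K : ℝ) / 2 - 1) * n)) * numPO (n - K) := by
        apply mul_le_mul_of_nonneg_right _ h8
        exact mul_le_mul_of_nonneg_left h4 (by positivity)
    _ ≤ (2 : ℝ) ^ (((K : ℝ) / 2 - 1 / 2) * n) * numPO (n - K) :=
        mul_le_mul_of_nonneg_right h7 h8

end Pool.Agent.Lib.MP_5bc52d_co.KR
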