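import Mathlib
import Pool.Agent.Lib.MP_5bc52d_co.KR.Engine

/-!
# The removal class R3: pairs
-/

namespace Pool.Agent.Lib.MP_5bc52d_co.KR

open Finset

section count

/-- A set with an injective code: two bits at every element, with restrictions. -/
theorem card_le_of_code3 {V α : Type*} [Fintype V] [DecidableEq V] (T : Finset α)
    (code : α → V → Bool × Bool) (hinj : Set.InjOn code T) (F F' B : Finset V)
    (h1 : ∀ r ∈ T, ∀ v ∉ F, (code r v).1 = false)
    (h2 : ∀ r ∈ T, ∀ v ∉ F', (code r v).2 = false)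
    (h3 : ∀ v ∈ B, ∃ p, ∀ r ∈ T, code r v ≠ p) (hB : B ⊆ F ∩ F') :
    (T.card : ℝ) ≤ 2 ^ F.card * 2 ^ F'.card * (3 / 4) ^ B.card := by
  classical
  set O : V → Finset (Bool × Bool) := fun v =>
    Finset.univ.filter fun p => ∃ r ∈ T, code r v = p with hO
  have hcard : T.card ≤ (Fintype.piFinset O).card := by
    apply Finset.card_le_card_of_injOn code
    · intro r hr
      rw [Finset.mem_coe, Fintype.mem_piFinset]
      intro v
      simp only [hO, Finset.mem_filter, Finset.mem_univ, true_and]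
      exact ⟨r, hr, rfl⟩
    · exact hinj
  rw [Fintype.card_piFinset] at hcard
  have hw : ∀ v, ((O v).card : ℝ) ≤
      (if v ∈ F then (2 : ℝ) else 1) * (if v ∈ F' then (2 : ℝ) else 1) *
        (if v ∈ B then (3 / 4 : ℝ) else 1) := by
    intro v
    by_cases hvB : v ∈ B
    · have hvF := Finset.mem_inter.mp (hB hvB)
      rw [if_pos hvF.1, if_pos hvF.2, if_pos hvB]
      obtain ⟨p, hp⟩ := h3 v hvB
      have hsub : O v ⊆ Finset.univ.erase p := by
        intro q hq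
        simp only [hO, Finset.mem_filter] at hq
        obtain ⟨r, hr, rfl⟩ := hq.2
        exact Finset.mem_erase.mpr ⟨hp r hr, Finset.mem_univ _⟩
      have h4 := Finset.card_le_card hsub
      rw [Finset.card_erase_of_mem (Finset.mem_univ _), Finset.card_univ] at h4
      have h5 : Fintype.card (Bool × Bool) = 4 := by decide
      rw [h5] at h4
      have h6 : ((O v).card : ℝ) ≤ 3 := by exact_mod_cast h4
      linarith
    · rw [if_neg hvB, mul_one]
      have hsub : O v ⊆ (if v ∈ F then (Finset.univ : Finset Bool) else {false}) ×ˢ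
          (if v ∈ F' then (Finset.univ : Finset Bool) else {false}) := by
        intro q hq
        simp only [hO, Finset.mem_filter] at hq
        obtain ⟨r, hr, rfl⟩ := hq.2
        rw [Finset.mem_product]
        constructor
        · split_ifs with h
          · exact Finset.mem_univ _
          · rw [Finset.mem_singleton]; exact h1 r hr v h
        · split_ifs with h
          · exact Finset.mem_univ _
          · rw [Finset.mem_singleton]; exact h2 r hr v h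
      have h4 := Finset.card_le_card hsub
      rw [Finset.card_product] at h4
      have h5 : ((O v).card : ℝ) ≤ ((if v ∈ F then (Finset.univ : Finset Bool) else {false}).card *
          (if v ∈ F' then (Finset.univ : Finset Bool) else {false}).card : ℕ) := by
        exact_mod_cast h4
      refine h5.trans (le_of_eq ?_)
      split_ifs <;> norm_num
  have hcard' : (T.card : ℝ) ≤ ∏ v, ((O v).card : ℝ) := by
    have : ((T.card : ℕ) : ℝ) ≤ ((∏ v, (O v).card : ℕ) : ℝ) := by exact_mod_cast hcard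
    simpa using this
  refine hcard'.trans ((Finset.prod_le_prod (fun v _ => by positivity) (fun v _ => hw v)).trans
    (le_of_eq ?_))
  rw [Finset.prod_mul_distrib, Finset.prod_mul_distrib, Finset.prod_ite_mem, Finset.prod_ite_mem,
    Finset.prod_ite_mem, Finset.univ_inter, Finset.univ_inter, Finset.univ_inter,
    Finset.prod_const, Finset.prod_const, Finset.prod_const]

end count

section congr

variable {V : Type*} [Fintype V] [DecidableEq V] {r r' : V → V → Prop}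

theorem Fs_congr3 {t s : Bool} {Q : Finset V} {v : V}
    (hQv : ∀ q ∈ Q, (r q v ↔ r' q v) ∧ (r v q ↔ r' v q)) :
    v ∈ Fs t s r Q ↔ v ∈ Fs t s r' Q := by
  have key : ∀ r r' : V → V → Prop, (∀ q ∈ Q, (r q v ↔ r' q v) ∧ (r v q ↔ r' v q)) →
      v ∈ Fs t s r Q → v ∈ Fs t s r' Q := by
    intro r r' hQv ht
    rw [Fs] at ht ⊢
    split_ifs at ht ⊢ with hst
    · rw [mem_G2] at ht ⊢
      exact ⟨ht.1, fun q hq => ⟨fun h3 => (ht.2 q hq).1 ((hQv q hq).2.mpr h3),
        fun h3 => (ht.2 q hq).2 ((hQv q hq).1.mpr h3)⟩⟩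
    · rw [mem_G1] at ht ⊢
      refine ⟨ht.1, fun q hq => ?_⟩
      have h3 := ht.2 q hq
      cases s
      · simp only [sg_false, KR.dual] at h3 ⊢
        exact (hQv q hq).1.mp h3
      · simp only [sg_true] at h3 ⊢
        exact (hQv q hq).2.mp h3
  exact ⟨key r r' hQv, key r' r fun q hq => ⟨(hQv q hq).1.symm, (hQv q hq).2.symm⟩⟩

theorem FF_congr3 {s : Bool} {Q : Finset V} {v : V}
    (hQv : ∀ q ∈ Q, (r q v ↔ r' q v) ∧ (r v q ↔ r' v q)) :
    v ∈ FF s r Q ↔ v ∈ FF s r' Q := by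
  rw [mem_FF_iff, mem_FF_iff, Fs_congr3 (t := true) hQv, Fs_congr3 (t := false) hQv]

theorem OK.above_iff3 {K : ℕ} {s : Bool} {x : V} {Q : Finset V} (hr : SO r)
    (h : OK K s r x Q) (hQ : Q.Nonempty) {v : V} (hv : v ∈ Fs true s r Q) :
    (r x v ∨ r v x) ↔ r x v :=
  ⟨fun h1 => h1.resolve_right (h.not_lt_of_above hr hQ hv), Or.inl⟩

theorem OK.below_iff3 {K : ℕ} {s : Bool} {x : V} {Q : Finset V} (hr : SO r)
    (h : OK K s r x Q) (hQ : Q.Nonempty) {v : V} (hv : v ∈ Fs false s r Q) :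
    (r x v ∨ r v x) ↔ r v x :=
  ⟨fun h1 => h1.resolve_left (h.not_gt_of_below hr hQ hv), Or.inr⟩

/-- Two orders with the same data and the same bits are equal. -/
theorem eq_of_bits3 {K : ℕ} {s s' : Bool} {x y : V} {Q Q' : Finset V} (hr : SO r) (hr' : SO r')
    (hQ : Q.Nonempty) (hQ' : Q'.Nonempty) (h : OK K s r x Q) (h' : OK K s r' x Q)
    (k : OK K s' r y Q') (k' : OK K s' r' y Q') (hyQ : y ∉ Q) (hxQ' : x ∉ Q')
    (hres : ∀ u v, u ≠ x → u ≠ y → v ≠ x → v ≠ y → (r u v ↔ r' u v))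
    (hxy : r x y ↔ r' x y) (hyx : r y x ↔ r' y x)
    (hb : ∀ v, v ≠ x → v ≠ y → v ∈ FF s r Q → ((r x v ∨ r v x) ↔ (r' x v ∨ r' v x)))
    (hb' : ∀ v, v ≠ x → v ≠ y → v ∈ FF s' r Q' → ((r y v ∨ r v y) ↔ (r' y v ∨ r' v y))) :
    r = r' := by
  have hx : ∀ v, v ≠ x → v ≠ y → (r x v ↔ r' x v) ∧ (r v x ↔ r' v x) := by
    intro v hvx hvy
    have hQv : ∀ q ∈ Q, (r q v ↔ r' q v) ∧ (r v q ↔ r' v q) := by
      intro q hq
      have hqx : q ≠ x := fun h1 => h.notMem hr (h1 ▸ hq)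
      have hqy : q ≠ y := fun h1 => hyQ (h1 ▸ hq)
      exact ⟨hres q v hqx hqy hvx hvy, hres v q hvx hvy hqx hqy⟩
    by_cases hv : v ∈ FF s r Q
    · exact rel_eq_of_mem_FF hr hr' h h' hQ hQv hv (hb v hvx hvy hv)
    · exact rel_eq_of_notMem_FF hr hr' h h' hQv hv
  have hy : ∀ v, v ≠ x → v ≠ y → (r y v ↔ r' y v) ∧ (r v y ↔ r' v y) := by
    intro v hvx hvy
    have hQv : ∀ q ∈ Q', (r q v ↔ r' q v) ∧ (r v q ↔ r' v q) := by
      intro q hq
      have hqy : q ≠ y := fun h1 => k.notMem hr (h1 ▸ hq)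
      have hqx : q ≠ x := fun h1 => hxQ' (h1 ▸ hq)
      exact ⟨hres q v hqx hqy hvx hvy, hres v q hvx hvy hqx hqy⟩
    by_cases hv : v ∈ FF s' r Q'
    · exact rel_eq_of_mem_FF hr hr' k k' hQ' hQv hv (hb' v hvx hvy hv)
    · exact rel_eq_of_notMem_FF hr hr' k k' hQv hv
  funext u v
  apply propext
  by_cases hux : u = x
  · by_cases hvx : v = x
    · rw [hux, hvx]
      exact iff_of_false (hr.irrefl x) (hr'.irrefl x)
    · by_cases hvy : v = y
      · rw [hux, hvy]; exact hxy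
      · rw [hux]; exact (hx v hvx hvy).1
  · by_cases huy : u = y
    · by_cases hvx : v = x
      · rw [huy, hvx]; exact hyx
      · by_cases hvy : v = y
        · rw [huy, hvy]
          exact iff_of_false (hr.irrefl y) (hr'.irrefl y)
        · rw [huy]; exact (hy v hvx hvy).1
    · by_cases hvx : v = x
      · rw [hvx]; exact (hx u hux huy).2
      · by_cases hvy : v = y
        · rw [hvy]; exact (hy u hux huy).2
        · exact hres u v hux huy hvx hvy

/-- the impossible pair of bits for `x < y` -/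
def imp3 (t t' : Bool) : Bool × Bool :=
  if t = false ∧ t' = false then (true, false)
  else if t = true ∧ t' = true then (false, true) else (true, true)

theorem imp_spec3 {K : ℕ} {s s' : Bool} {x y : V} {Q Q' : Finset V} (hr : SO r)
    (hQ : Q.Nonempty) (hQ' : Q'.Nonempty) (h : OK K s r x Q) (k : OK K s' r y Q')
    (hxy : r x y) {v : V} {t t' : Bool} (hv : v ∈ Fs t s r Q) (hv' : v ∈ Fs t' s' r Q')
    (hc : t = true → t' = false → Cov r x y) :
    ¬ (((r x v ∨ r v x) ↔ (imp3 t t').1 = true) ∧ ((r y v ∨ r v y) ↔ (imp3 t t').2 = true)) := by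
  cases t <;> cases t'
  · rw [h.below_iff3 hr hQ hv, k.below_iff3 hr hQ' hv']
    simp only [imp3]
    rintro ⟨h1, h2⟩
    have h3 : r v x := h1.mpr (by simp)
    have h4 := h2.mp (hr.trans h3 hxy)
    simp at h4
  · rw [h.below_iff3 hr hQ hv, k.above_iff3 hr hQ' hv']
    simp only [imp3]
    rintro ⟨h1, h2⟩
    have h3 : r v x := h1.mpr (by simp)
    exact k.not_lt_of_above hr hQ' hv' (hr.trans h3 hxy)
  · rw [h.above_iff3 hr hQ hv, k.below_iff3 hr hQ' hv']
    simp only [imp3]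
    rintro ⟨h1, h2⟩
    have h3 : r x v := h1.mpr (by simp)
    have h4 : r v y := h2.mpr (by simp)
    exact (hc rfl rfl).2 v h3 h4
  · rw [h.above_iff3 hr hQ hv, k.above_iff3 hr hQ' hv']
    simp only [imp3]
    rintro ⟨h1, h2⟩
    have h3 : r y v := h2.mpr (by simp)
    have h4 := h1.mp (hr.trans hxy h3)
    simp at h4

/-- Every bad element has an impossible pair of bits. -/
theorem exists_imp3 {K : ℕ} {s s' : Bool} {x y : V} {Q Q' : Finset V} {r₀ : V → V → Prop}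
    (hr₀ : SO r₀) (hQ : Q.Nonempty) (hQ' : Q'.Nonempty)
    (hxQ : x ∉ Q) (hyQ : y ∉ Q) (hxQ' : x ∉ Q') (hyQ' : y ∉ Q')
    {v : V} (hv : v ∈ Bad r₀ x y s Q s' Q') :
    ∃ p : Bool × Bool, ∀ r, SO r → OK K s r x Q → OK K s' r y Q' →
      (r x y ↔ r₀ x y) → (r y x ↔ r₀ y x) →
      ((Cov r x y ∨ Cov r y x) ↔ (Cov r₀ x y ∨ Cov r₀ y x)) →
      (∀ u v, u ≠ x → u ≠ y → v ≠ x → v ≠ y → (r u v ↔ r₀ u v)) →
      ¬ (((r x v ∨ r v x) ↔ p.1 = true) ∧ ((r y v ∨ r v y) ↔ p.2 = true)) := by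
  classical
  simp only [Bad, Finset.mem_filter, Finset.mem_sdiff, Finset.mem_inter, Finset.mem_insert,
    Finset.mem_singleton, not_or] at hv
  obtain ⟨⟨⟨hF, hF'⟩, hvx, hvy⟩, hbad⟩ := hv
  -- transfer of the candidates
  have htr : ∀ r : V → V → Prop,
      (∀ u v, u ≠ x → u ≠ y → v ≠ x → v ≠ y → (r u v ↔ r₀ u v)) →
      ∀ t, (v ∈ Fs t s r Q ↔ v ∈ Fs t s r₀ Q) ∧ (v ∈ Fs t s' r Q' ↔ v ∈ Fs t s' r₀ Q') := by
    intro r hres t
    constructor
    · apply Fs_congr3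
      intro q hq
      have hqx : q ≠ x := fun h1 => hxQ (h1 ▸ hq)
      have hqy : q ≠ y := fun h1 => hyQ (h1 ▸ hq)
      exact ⟨hres q v hqx hqy hvx hvy, hres v q hvx hvy hqx hqy⟩
    · apply Fs_congr3
      intro q hq
      have hqx : q ≠ x := fun h1 => hxQ' (h1 ▸ hq)
      have hqy : q ≠ y := fun h1 => hyQ' (h1 ▸ hq)
      exact ⟨hres q v hqx hqy hvx hvy, hres v q hvx hvy hqx hqy⟩
  obtain ⟨t, ht⟩ : ∃ t, v ∈ Fs t s r₀ Q := by
    rcases mem_FF_iff.mp hF with h1 | h1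
    · exact ⟨true, h1⟩
    · exact ⟨false, h1⟩
  obtain ⟨t', ht'⟩ : ∃ t', v ∈ Fs t' s' r₀ Q' := by
    rcases mem_FF_iff.mp hF' with h1 | h1
    · exact ⟨true, h1⟩
    · exact ⟨false, h1⟩
  by_cases hxy : r₀ x y
  · -- `x < y`
    refine ⟨imp3 t t', fun r hr h k e1 e2 e3 hres => ?_⟩
    have hyx₀ : ¬ r₀ y x := hr₀.asymm hxy
    have hyx : ¬ r y x := fun h1 => hyx₀ (e2.mp h1)
    refine imp_spec3 hr hQ hQ' h k (e1.mpr hxy) ((htr r hres t).1.mpr ht)
      ((htr r hres t').2.mpr ht') ?_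
    intro h1 h2
    rw [h1] at ht
    rw [h2] at ht'
    have h3 : Cov r₀ x y ∨ Cov r₀ y x := by
      rcases hbad with h3 | h3 | h3 | h3
      · exact h3
      · exact absurd ⟨ht, ht'⟩ h3.2
      · exact absurd h3.1 hyx₀
      · exact absurd hxy h3.1
    rcases e3.mpr h3 with h4 | h4
    · exact h4
    · exact absurd h4.1 hyx
  · by_cases hyx : r₀ y x
    · -- `y < x`
      refine ⟨((imp3 t' t).2, (imp3 t' t).1), fun r hr h k e1 e2 e3 hres => ?_⟩
      have hxy' : ¬ r x y := fun h1 => hxy (e1.mp h1)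
      have h0 := imp_spec3 hr hQ' hQ k h (e2.mpr hyx) ((htr r hres t').2.mpr ht')
        ((htr r hres t).1.mpr ht) (by
          intro h1 h2
          rw [h1] at ht'
          rw [h2] at ht
          have h3 : Cov r₀ x y ∨ Cov r₀ y x := by
            rcases hbad with h3 | h3 | h3 | h3
            · exact h3
            · exact absurd h3.1 hxy
            · exact absurd ⟨ht, ht'⟩ h3.2
            · exact absurd hyx h3.2.1
          rcases e3.mpr h3 with h4 | h4
          · exact absurd h4.1 hxy'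
          · exact h4)
      exact fun h1 => h0 ⟨h1.2, h1.1⟩
    · -- incomparable
      refine ⟨(true, true), fun r hr h k e1 e2 e3 hres => ?_⟩
      have hxy' : ¬ r x y := fun h1 => hxy (e1.mp h1)
      have hyx' : ¬ r y x := fun h1 => hyx (e2.mp h1)
      rintro ⟨h1, h2⟩
      have h1' : r x v ∨ r v x := h1.mpr rfl
      have h2' : r y v ∨ r v y := h2.mpr rfl
      rcases hbad with (h3 | h3) | h3 | h3 | h3
      · exact hxy h3.1
      · exact hyx h3.1
      · exact hxy h3.1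
      · exact hyx h3.1
      · rcases h3.2.2 with ⟨h4, h5⟩ | ⟨h4, h5⟩
        · have h6 := (h.above_iff3 hr hQ ((htr r hres true).1.mpr h4)).mp h1'
          have h7 := (k.below_iff3 hr hQ' ((htr r hres false).2.mpr h5)).mp h2'
          exact hxy' (hr.trans h6 h7)
        · have h6 := (h.below_iff3 hr hQ ((htr r hres false).1.mpr h4)).mp h1'
          have h7 := (k.above_iff3 hr hQ' ((htr r hres true).2.mpr h5)).mp h2'
          exact hyx' (hr.trans h7 h6)

end congr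

section fibre

variable {n : ℕ}

/-- the class of the orders with given data -/
def In3 (ε : ℝ) (K : ℕ) (x y : Fin n) (s : Bool) (Q : Finset (Fin n)) (s' : Bool)
    (Q' : Finset (Fin n)) (b : Bool × Bool × Bool) (r : Fin n → Fin n → Prop) : Prop :=
  x ≠ y ∧ OK K s r x Q ∧ OK K s' r y Q' ∧ y ∉ Q ∧ x ∉ Q' ∧
    ((FF s r Q).card : ℝ) ≤ (1 / 2 + ε) * n ∧ ((FF s' r Q').card : ℝ) ≤ (1 / 2 + ε) * n ∧
    6 * ε * n ≤ ((Bad r x y s Q s' Q').card : ℝ) ∧
    (r x y ↔ b.1 = true) ∧ (r y x ↔ b.2.1 = true) ∧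
    ((Cov r x y ∨ Cov r y x) ↔ b.2.2 = true)

theorem pow_bound3 {ε : ℝ} (hε : 0 < ε) {p q m : ℕ} (hp : (p : ℝ) ≤ (1 / 2 + ε) * n)
    (hq : (q : ℝ) ≤ (1 / 2 + ε) * n) (hm : 6 * ε * n ≤ (m : ℝ)) :
    (2 : ℝ) ^ p * 2 ^ q * (3 / 4) ^ m ≤ (2 : ℝ) ^ ((1 - 2 / 5 * ε) * n) := by
  have h1 : (3 / 4 : ℝ) ≤ (2 : ℝ) ^ (-(2 / 5 : ℝ)) := by
    have h2 : (3 / 4 : ℝ) ^ 5 ≤ ((2 : ℝ) ^ (-(2 / 5 : ℝ))) ^ 5 := by
      rw [← Real.rpow_natCast ((2 : ℝ) ^ (-(2 / 5 : ℝ))) 5, ← Real.rpow_mul (by norm_num)]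
      have h3 : (-(2 / 5 : ℝ)) * ((5 : ℕ) : ℝ) = ((-2 : ℤ) : ℝ) := by norm_num
      rw [h3, Real.rpow_intCast]
      norm_num
    exact le_of_pow_le_pow_left₀ (by norm_num) (by positivity) h2
  have h4 : (3 / 4 : ℝ) ^ m ≤ (2 : ℝ) ^ (-(2 / 5 : ℝ) * m) := by
    rw [Real.rpow_mul (by norm_num), Real.rpow_natCast]
    exact pow_le_pow_left₀ (by norm_num) h1 m
  have h5 : (2 : ℝ) ^ p * 2 ^ q = (2 : ℝ) ^ ((p : ℝ) + q) := by
    rw [Real.rpow_add (by norm_num), Real.rpow_natCast, Real.rpow_natCast]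
  rw [h5]
  calc (2 : ℝ) ^ ((p : ℝ) + q) * (3 / 4) ^ m
      ≤ (2 : ℝ) ^ ((p : ℝ) + q) * (2 : ℝ) ^ (-(2 / 5 : ℝ) * m) :=
        mul_le_mul_of_nonneg_left h4 (by positivity)
    _ = (2 : ℝ) ^ ((p : ℝ) + q + -(2 / 5 : ℝ) * m) := by
        rw [← Real.rpow_add (by norm_num)]
    _ ≤ _ := by
        apply Real.rpow_le_rpow_of_exponent_le (by norm_num)
        have hn : (0 : ℝ) ≤ n := by positivity
        nlinarith [mul_nonneg hε.le hn]

open Classical in
theorem fibre3 {ε : ℝ} (hε : 0 < ε) {K : ℕ} (hK : 1 ≤ K) (x y : Fin n) (s : Bool)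
    (Q : Finset (Fin n)) (s' : Bool) (Q' : Finset (Fin n)) (b : Bool × Bool × Bool)
    (T : Finset (Fin n → Fin n → Prop))
    (hT : ∀ r ∈ T, SO r ∧ In3 ε K x y s Q s' Q' b r)
    (hres : ∀ r ∈ T, ∀ r' ∈ T, ∀ u v, u ≠ x → u ≠ y → v ≠ x → v ≠ y → (r u v ↔ r' u v)) :
    (T.card : ℝ) ≤ (2 : ℝ) ^ ((1 - 2 / 5 * ε) * n) := by
  rcases T.eq_empty_or_nonempty with hTe | ⟨r₀, hr₀⟩
  · rw [hTe]
    simp only [Finset.card_empty, Nat.cast_zero]
    positivity
  obtain ⟨hso₀, hne, hok₀, hok₀', hyQ, hxQ', hc, hc', hbad, hb1, hb2, hb3⟩ := hT r₀ hr₀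
  have hxQ : x ∉ Q := hok₀.notMem hso₀
  have hyQ' : y ∉ Q' := hok₀'.notMem hso₀
  have hQ : Q.Nonempty := hok₀.nonempty hK
  have hQ' : Q'.Nonempty := hok₀'.nonempty hK
  set F : Finset (Fin n) := FF s r₀ Q \ {x, y} with hF
  set F' : Finset (Fin n) := FF s' r₀ Q' \ {x, y} with hF'
  -- candidates do not depend on the order
  have hFiff : ∀ r ∈ T, ∀ v, v ≠ x → v ≠ y → (v ∈ FF s r Q ↔ v ∈ FF s r₀ Q) := by
    intro r hr v hvx hvy
    apply FF_congr3
    intro q hq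
    have hqx : q ≠ x := fun h1 => hxQ (h1 ▸ hq)
    have hqy : q ≠ y := fun h1 => hyQ (h1 ▸ hq)
    exact ⟨hres r hr r₀ hr₀ q v hqx hqy hvx hvy, hres r hr r₀ hr₀ v q hvx hvy hqx hqy⟩
  have hFiff' : ∀ r ∈ T, ∀ v, v ≠ x → v ≠ y → (v ∈ FF s' r Q' ↔ v ∈ FF s' r₀ Q') := by
    intro r hr v hvx hvy
    apply FF_congr3
    intro q hq
    have hqx : q ≠ x := fun h1 => hxQ' (h1 ▸ hq)
    have hqy : q ≠ y := fun h1 => hyQ' (h1 ▸ hq)
    exact ⟨hres r hr r₀ hr₀ q v hqx hqy hvx hvy, hres r hr r₀ hr₀ v q hvx hvy hqx hqy⟩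
  set code : (Fin n → Fin n → Prop) → Fin n → Bool × Bool := fun r v =>
    (decide (v ∈ F ∧ (r x v ∨ r v x)), decide (v ∈ F' ∧ (r y v ∨ r v y))) with hcode
  have hinj : Set.InjOn code T := by
    intro r hr r' hr' heq
    rw [Finset.mem_coe] at hr hr'
    obtain ⟨hso, -, hok, hok', -, -, -, -, -, hc1, hc2, -⟩ := hT r hr
    obtain ⟨hso', -, kok, kok', -, -, -, -, -, hd1, hd2, -⟩ := hT r' hr'
    have hbits : ∀ v, ((v ∈ F ∧ (r x v ∨ r v x)) ↔ (v ∈ F ∧ (r' x v ∨ r' v x))) ∧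
        ((v ∈ F' ∧ (r y v ∨ r v y)) ↔ (v ∈ F' ∧ (r' y v ∨ r' v y))) := by
      intro v
      have h1 := congrFun heq v
      simp only [hcode, Prod.mk.injEq] at h1
      exact ⟨decide_eq_decide.mp h1.1, decide_eq_decide.mp h1.2⟩
    refine eq_of_bits3 hso hso' hQ hQ' hok kok hok' kok' hyQ hxQ' (hres r hr r' hr')
      (hc1.trans hd1.symm) (hc2.trans hd2.symm) ?_ ?_
    · intro v hvx hvy hv
      have hvF : v ∈ F := by
        rw [hF, Finset.mem_sdiff, Finset.mem_insert, Finset.mem_singleton]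
        exact ⟨(hFiff r hr v hvx hvy).mp hv, by simp [hvx, hvy]⟩
      have h1 := (hbits v).1
      simpa only [hvF, true_and] using h1
    · intro v hvx hvy hv
      have hvF : v ∈ F' := by
        rw [hF', Finset.mem_sdiff, Finset.mem_insert, Finset.mem_singleton]
        exact ⟨(hFiff' r hr v hvx hvy).mp hv, by simp [hvx, hvy]⟩
      have h1 := (hbits v).2
      simpa only [hvF, true_and] using h1
  have hBsub : Bad r₀ x y s Q s' Q' ⊆ F ∩ F' := by
    intro v hv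
    simp only [Bad, Finset.mem_filter, Finset.mem_sdiff, Finset.mem_inter] at hv
    rw [Finset.mem_inter, hF, hF', Finset.mem_sdiff, Finset.mem_sdiff]
    exact ⟨⟨hv.1.1.1, hv.1.2⟩, ⟨hv.1.1.2, hv.1.2⟩⟩
  have hmain := card_le_of_code3 T code hinj F F' (Bad r₀ x y s Q s' Q') ?_ ?_ ?_ hBsub
  · refine hmain.trans (pow_bound3 hε ?_ ?_ hbad)
    · refine le_trans ?_ hc
      exact_mod_cast Finset.card_le_card Finset.sdiff_subset
    · refine le_trans ?_ hc'
      exact_mod_cast Finset.card_le_card Finset.sdiff_subset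
  · intro r _ v hv
    simp only [hcode, decide_eq_false_iff_not]
    exact fun h1 => hv h1.1
  · intro r _ v hv
    simp only [hcode, decide_eq_false_iff_not]
    exact fun h1 => hv h1.1
  · intro v hv
    have hvF := Finset.mem_inter.mp (hBsub hv)
    obtain ⟨p, hp⟩ := exists_imp3 (K := K) hso₀ hQ hQ' hxQ hyQ hxQ' hyQ' hv
    refine ⟨p, fun r hr heq => ?_⟩
    obtain ⟨hso, -, hok, hok', -, -, -, -, -, hc1, hc2, hc3⟩ := hT r hr
    refine hp r hso hok hok' (hc1.trans hb1.symm) (hc2.trans hb2.symm) (hc3.trans hb3.symm)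
      (hres r hr r₀ hr₀) ?_
    rw [← heq]
    simp only [hcode, hvF.1, hvF.2, true_and, decide_eq_true_eq]

end fibre

section final

/-- the data -/
abbrev D3 (n K : ℕ) : Type :=
  (Fin n × Fin n) × (Bool × (Fin K → Fin n)) × (Bool × (Fin K → Fin n)) × (Bool × Bool × Bool)

theorem exists_param {n K : ℕ} {Q : Finset (Fin n)} (h : Q.card = K) :
    ∃ f : Fin K → Fin n, Finset.univ.image f = Q := by
  classical
  let e := Finset.equivFinOfCardEq h
  refine ⟨fun i => (e.symm i : Fin n), ?_⟩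
  ext q
  rw [Finset.mem_image]
  constructor
  · rintro ⟨i, -, rfl⟩
    exact (e.symm i).2
  · intro hq
    exact ⟨e ⟨q, hq⟩, Finset.mem_univ _, by simp⟩

theorem card_D3 (n K : ℕ) : Fintype.card (D3 n K) = 32 * n ^ (2 * K + 2) := by
  simp only [D3, Fintype.card_prod, Fintype.card_fin, Fintype.card_bool, Fintype.card_fun]
  ring

/-- the classes for the engine -/
def P3 (ε : ℝ) (n K : ℕ) (S : Finset (Fin n)) (d : D3 n K) (r : Fin n → Fin n → Prop) : Prop :=
  S = {d.1.1, d.1.2} ∧ In3 ε K d.1.1 d.1.2 d.2.1.1 (Finset.univ.image d.2.1.2)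
    d.2.2.1.1 (Finset.univ.image d.2.2.1.2) d.2.2.2 r

theorem bR3 : BR3 := by
  classical
  intro ε K hε _ hK
  obtain ⟨N, hN⟩ := absorb 32 (2 * K + 4) (1 - 2 / 5 * ε) (1 - 1 / 5 * ε) (by linarith)
  refine ⟨1 / 5 * ε, 2, N, by linarith, by norm_num, fun n hn _ => ?_⟩
  have h := engine (n := n) (k := 2) (D := D3 n K) (R3 ε K n)
    (P3 ε n K)
    ((2 : ℝ) ^ ((1 - 2 / 5 * ε) * n)) (by positivity) ?_ ?_
  · refine h.trans ?_
    apply mul_le_mul_of_nonneg_right _ (by positivity)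
    have h1 := hN n hn
    rw [card_D3]
    push_cast
    refine le_trans (le_of_eq ?_) (h1.trans (le_of_eq ?_))
    · ring
    · congr 1
      ring
  · intro r _ hr
    obtain ⟨x, y, s, Q, s', Q', hne, hok, hok', hyQ, hxQ', hc, hc', hbad⟩ := hr
    obtain ⟨f, hf⟩ := exists_param hok.1
    obtain ⟨f', hf'⟩ := exists_param hok'.1
    refine ⟨{x, y}, Finset.card_pair hne, ((x, y), (s, f), (s', f'),
      (decide (r x y), decide (r y x), decide (Cov r x y ∨ Cov r y x))), rfl, ?_⟩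
    simp only [hf, hf']
    refine ⟨hne, hok, hok', hyQ, hxQ', hc, hc', hbad, ?_, ?_, ?_⟩
    · simp
    · simp
    · simp
  · intro S _ d ρ
    refine fibre3 hε hK d.1.1 d.1.2 d.2.1.1 (Finset.univ.image d.2.1.2)
      d.2.2.1.1 (Finset.univ.image d.2.2.1.2) d.2.2.2 _ ?_ ?_
    · intro r hr
      simp only [Finset.mem_filter] at hr
      exact ⟨hr.2.1, hr.2.2.1.2⟩
    · intro r hr r' hr' u v hux huy hvx hvy
      simp only [Finset.mem_filter] at hr hr'
      have hS := hr.2.2.1.1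
      have h1 : res S r = res S r' := hr.2.2.2.trans hr'.2.2.2.symm
      apply res_iff h1
      · rw [hS, Finset.mem_insert, Finset.mem_singleton]
        simp [hux, huy]
      · rw [hS, Finset.mem_insert, Finset.mem_singleton]
        simp [hvx, hvy]

end final

end Pool.Agent.Lib.MP_5bc52d_co.KR
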