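import Mathlib
import Pool.Agent.Lib.MP_5bc52d_co.KR.Defs
import Pool.Agent.Lib.MP_5bc52d_co.KR.Basic
import Pool.Agent.Lib.MP_5bc52d_co.KR.Engine

/-!
# K6: the class `R4` is rare
-/

namespace Pool.Agent.Lib.MP_5bc52d_co.KR

open Finset

section det

variable {V : Type*} [Fintype V] [DecidableEq V] {r r' : V → V → Prop}

/-- the description of `r` for the removed antichain `Q`: `c.1` is the set of neighbours of `Q`,
`c.2` the set of the elements below some element of `Q` -/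
def Code4 (w : ℝ) (Q : Finset V) (c : Finset V × Finset V) (r : V → V → Prop) : Prop :=
  (∀ p ∈ Q, ∀ q ∈ Q, ¬ r p q) ∧ c.1 = Q.biUnion (Nb r) ∧ (c.1.card : ℝ) ≤ w ∧
    ∀ v, v ∈ c.2 ↔ ∃ q ∈ Q, r v q

open Classical in
/-- the pairs of an element of `Q` and one of its neighbours -/
noncomputable def tr4 (Q : Finset V) (r : V → V → Prop) : Finset (V × V) :=
  (Finset.univ : Finset (V × V)).filter fun p => p.1 ∈ Q ∧ p.2 ∈ Nb r p.1

theorem mem_tr4 {Q : Finset V} {p : V × V} : p ∈ tr4 Q r ↔ p.1 ∈ Q ∧ p.2 ∈ Nb r p.1 := by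
  simp [tr4]

theorem code4_half (hr : SO r) (hr' : SO r') {Q : Finset V} {w : ℝ}
    {c : Finset V × Finset V} (h : Code4 w Q c r) (h' : Code4 w Q c r')
    (ht : tr4 Q r = tr4 Q r')
    (hres : ∀ x, x ∉ Q → ∀ y, y ∉ Q → (r x y ↔ r' x y)) {x y : V} (hxy : r x y) : r' x y := by
  obtain ⟨ha, -, -, hs⟩ := h
  obtain ⟨ha', -, -, hs'⟩ := h'
  by_cases hx : x ∈ Q
  · by_cases hy : y ∈ Q
    · exact absurd hxy (ha x hx y hy)
    · obtain ⟨z, hz, hzy⟩ := exists_cov_left hr hxy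
      have hzQ : z ∉ Q := fun hzQ => ha x hx z hzQ hz.1
      have h1 : (x, z) ∈ tr4 Q r := mem_tr4.mpr ⟨hx, mem_Nb.mpr (Or.inl hz)⟩
      rw [ht] at h1
      have h2 := mem_Nb.mp (mem_tr4.mp h1).2
      have h3 : r' x z := by
        rcases h2 with h2 | h2
        · exact h2.1
        · exfalso
          have h4 : z ∈ c.2 := (hs' z).mpr ⟨x, hx, h2.1⟩
          obtain ⟨q, hq, hzq⟩ := (hs z).mp h4
          exact ha x hx q hq (hr.trans hz.1 hzq)
      rcases hzy with rfl | hzy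
      · exact h3
      · exact hr'.trans h3 ((hres z hzQ y hy).mp hzy)
  · by_cases hy : y ∈ Q
    · obtain ⟨z, hz, hxz⟩ := exists_cov_right hr hxy
      have hzQ : z ∉ Q := fun hzQ => ha z hzQ y hy hz.1
      have h1 : (y, z) ∈ tr4 Q r := mem_tr4.mpr ⟨hy, mem_Nb.mpr (Or.inr hz)⟩
      rw [ht] at h1
      have h2 := mem_Nb.mp (mem_tr4.mp h1).2
      have h3 : r' z y := by
        rcases h2 with h2 | h2
        · exfalso
          have h4 : z ∈ c.2 := (hs z).mpr ⟨y, hy, hz.1⟩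
          obtain ⟨q, hq, hzq⟩ := (hs' z).mp h4
          exact ha' y hy q hq (hr'.trans h2.1 hzq)
        · exact h2.1
      rcases hxz with rfl | hxz
      · exact h3
      · exact hr'.trans ((hres x hx z hzQ).mp hxz) h3
    · exact (hres x hx y hy).mp hxy

theorem code4_inj (hr : SO r) (hr' : SO r') {Q : Finset V} {w : ℝ}
    {c : Finset V × Finset V} (h : Code4 w Q c r) (h' : Code4 w Q c r')
    (ht : tr4 Q r = tr4 Q r')
    (hres : ∀ x, x ∉ Q → ∀ y, y ∉ Q → (r x y ↔ r' x y)) : r = r' := by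
  funext x y
  apply propext
  exact ⟨code4_half hr hr' h h' ht hres,
    code4_half hr' hr h' h ht.symm (fun x hx y hy => (hres x hx y hy).symm)⟩

open Classical in
theorem code4_mem {w : ℝ} {K : ℕ} {s : Bool} {x : V} {Q : Finset V} (h : OK K s r x Q)
    (hw : ((Q.biUnion (Nb r)).card : ℝ) ≤ w) : ∃ c, Code4 w Q c r :=
  ⟨(Q.biUnion (Nb r), Finset.univ.filter fun v => ∃ q ∈ Q, r v q),
    fun _ hp _ hq => h.anti hp hq, rfl, hw, fun v => by simp⟩

open Classical in
theorem code4_fibre {K : ℕ} {w : ℝ} {Q : Finset V} (hQ : Q.card = K) (c : Finset V × Finset V)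
    (ρ : V → V → Prop) (A : Finset (V → V → Prop))
    (hA : ∀ r ∈ A, SO r ∧ Code4 w Q c r ∧ ∀ x, x ∉ Q → ∀ y, y ∉ Q → (r x y ↔ ρ x y)) :
    (A.card : ℝ) ≤ (2 : ℝ) ^ ((K : ℝ) * w) := by
  rcases A.eq_empty_or_nonempty with rfl | ⟨r0, hr0⟩
  · rw [Finset.card_empty, Nat.cast_zero]
    positivity
  have h1 : A.card ≤ ((Q ×ˢ c.1).powerset).card := by
    apply Finset.card_le_card_of_injOn (fun r => tr4 Q r)
    · intro r hr
      obtain ⟨-, h2, -⟩ := hA r hr
      rw [Finset.mem_coe, Finset.mem_powerset]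
      intro p hp
      rw [mem_tr4] at hp
      rw [Finset.mem_product, h2.2.1]
      exact ⟨hp.1, Finset.mem_biUnion.mpr ⟨p.1, hp.1, hp.2⟩⟩
    · intro r hr r' hr' hrr
      obtain ⟨h1, h2, h3⟩ := hA r hr
      obtain ⟨h1', h2', h3'⟩ := hA r' hr'
      exact code4_inj h1 h1' h2 h2' hrr
        (fun x hx y hy => (h3 x hx y hy).trans (h3' x hx y hy).symm)
  rw [Finset.card_powerset, Finset.card_product, hQ] at h1
  have h2 : (A.card : ℝ) ≤ (2 : ℝ) ^ (K * c.1.card) := by exact_mod_cast h1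
  refine h2.trans ?_
  rw [← Real.rpow_natCast]
  apply Real.rpow_le_rpow_of_exponent_le (by norm_num)
  push_cast
  exact mul_le_mul_of_nonneg_left (hA r0 hr0).2.1.2.2.1 (by positivity)

end det

open Classical in
/-- K6 -/
theorem bR4 : BR4 := by
  intro ε K hε hK
  have hK0 : 0 < K := by
    rcases Nat.eq_zero_or_pos K with rfl | h
    · norm_num at hK
    · exact h
  obtain ⟨N, hN⟩ := absorb 1 K (2 + (K : ℝ) * (1 / 2 - ε)) ((K : ℝ) / 2 - 1 / 2)
    (by nlinarith)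
  refine ⟨1 / 2, K, N, by norm_num, hK0, fun n hn hKn => ?_⟩
  have h1 := engine (n := n) (k := K) (D := Finset (Fin n) × Finset (Fin n)) (R4 ε K n)
    (fun Q c r => Code4 ((1 / 2 - ε) * n) Q c r)
    ((2 : ℝ) ^ ((K : ℝ) * ((1 / 2 - ε) * n))) (by positivity) (by
      rintro r - ⟨x, s, Q, hQ, hw⟩
      exact ⟨Q, hQ.1, code4_mem hQ hw⟩) (by
      intro Q hQ c ρ
      apply code4_fibre hQ c ρ
      intro r hr
      rw [Finset.mem_filter] at hr
      refine ⟨hr.2.1, hr.2.2.1, fun x hx y hy => ?_⟩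
      rw [← hr.2.2.2]
      simp only [res, hx, hy, not_false_eq_true, true_and])
  refine h1.trans ?_
  apply mul_le_mul_of_nonneg_right _ (Nat.cast_nonneg _)
  have h2 : (Fintype.card (Finset (Fin n) × Finset (Fin n)) : ℝ) = (2 : ℝ) ^ (2 * (n : ℝ)) := by
    rw [Fintype.card_prod, Fintype.card_finset, Fintype.card_fin, two_mul,
      Real.rpow_add (by norm_num), Real.rpow_natCast]
    push_cast
    rfl
  rw [h2]
  refine le_trans (le_of_eq ?_) (hN n hn)
  rw [one_mul, mul_assoc, ← Real.rpow_add (by norm_num)]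
  congr 2
  ring

end Pool.Agent.Lib.MP_5bc52d_co.KR
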