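import Mathlib
import Pool.Agent.Lib.MP_5bc52d_co.KR.Basic

/-!
# The ratio of the numbers of three-layer orders
-/

namespace Pool.Agent.Lib.MP_5bc52d_co.KR

open Finset

/-- one new point, above the elements of `D` and below the elements of `U` -/
def ext {n : ℕ} (r : Fin n → Fin n → Prop) (D U : Finset (Fin n)) :
    Fin (n + 1) → Fin (n + 1) → Prop :=
  fun x y =>
    Fin.lastCases (motive := fun _ => Prop)
      (Fin.lastCases (motive := fun _ => Prop) False (fun b => b ∈ U) y)
      (fun a => Fin.lastCases (motive := fun _ => Prop) (a ∈ D) (fun b => r a b) y) x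

theorem ext_cc {n : ℕ} (r : Fin n → Fin n → Prop) (D U : Finset (Fin n)) (a b : Fin n) :
    ext r D U a.castSucc b.castSucc ↔ r a b := by
  simp [ext]

theorem ext_cl {n : ℕ} (r : Fin n → Fin n → Prop) (D U : Finset (Fin n)) (a : Fin n) :
    ext r D U a.castSucc (Fin.last n) ↔ a ∈ D := by
  simp [ext]

theorem ext_lc {n : ℕ} (r : Fin n → Fin n → Prop) (D U : Finset (Fin n)) (b : Fin n) :
    ext r D U (Fin.last n) b.castSucc ↔ b ∈ U := by
  simp [ext]

theorem ext_ll {n : ℕ} (r : Fin n → Fin n → Prop) (D U : Finset (Fin n)) :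
    ¬ ext r D U (Fin.last n) (Fin.last n) := by
  simp [ext]

theorem so_ext {n : ℕ} {r : Fin n → Fin n → Prop} {D U : Finset (Fin n)} (hr : SO r)
    (h1 : ∀ a ∈ D, ∀ c ∈ U, r a c) (h2 : ∀ a ∈ D, ∀ x, r x a → x ∈ D)
    (h3 : ∀ c ∈ U, ∀ y, r c y → y ∈ U) : SO (ext r D U) := by
  constructor
  · intro x
    induction x using Fin.lastCases with
    | last => exact ext_ll r D U
    | cast a => rw [ext_cc]; exact hr.irrefl a
  · intro x y z hxy hyz
    induction x using Fin.lastCases with
    | last =>
      induction y using Fin.lastCases with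
      | last => exact absurd hxy (ext_ll r D U)
      | cast b =>
        rw [ext_lc] at hxy
        induction z using Fin.lastCases with
        | last =>
          rw [ext_cl] at hyz
          exact absurd (h1 b hyz b hxy) (hr.irrefl b)
        | cast c =>
          rw [ext_cc] at hyz
          rw [ext_lc]
          exact h3 b hxy c hyz
    | cast a =>
      induction y using Fin.lastCases with
      | last =>
        rw [ext_cl] at hxy
        induction z using Fin.lastCases with
        | last => exact absurd hyz (ext_ll r D U)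
        | cast c =>
          rw [ext_lc] at hyz
          rw [ext_cc]
          exact h1 a hxy c hyz
      | cast b =>
        rw [ext_cc] at hxy
        induction z using Fin.lastCases with
        | last =>
          rw [ext_cl] at hyz ⊢
          exact h2 b hyz a hxy
        | cast c =>
          rw [ext_cc] at hyz ⊢
          exact hr.trans hxy hyz

theorem ext_inj {n : ℕ} {r r' : Fin n → Fin n → Prop} {D U D' U' : Finset (Fin n)}
    (h : ext r D U = ext r' D' U') : r = r' ∧ D = D' ∧ U = U' := by
  refine ⟨?_, ?_, ?_⟩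
  · funext a b
    apply propext
    rw [← ext_cc r D U a b, h, ext_cc]
  · ext a
    rw [← ext_cl r D U a, h, ext_cl]
  · ext b
    rw [← ext_lc r D U b, h, ext_lc]

open Classical in
/-- the same set, together with the new point if `p` -/
noncomputable def lift {n : ℕ} (S : Finset (Fin n)) (p : Prop) : Finset (Fin (n + 1)) :=
  Finset.univ.filter fun x => Fin.lastCases (motive := fun _ => Prop) p (fun a => a ∈ S) x

theorem mem_lift_cast {n : ℕ} {S : Finset (Fin n)} {p : Prop} {a : Fin n} :
    a.castSucc ∈ lift S p ↔ a ∈ S := by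
  simp [lift]

theorem mem_lift_last {n : ℕ} {S : Finset (Fin n)} {p : Prop} :
    Fin.last n ∈ lift S p ↔ p := by
  simp [lift]

theorem disjoint_lift {n : ℕ} {S T : Finset (Fin n)} {p q : Prop} (h : Disjoint S T)
    (hpq : ¬ (p ∧ q)) : Disjoint (lift S p) (lift T q) := by
  rw [Finset.disjoint_left] at h ⊢
  intro x hx hx'
  induction x using Fin.lastCases with
  | last =>
    rw [mem_lift_last] at hx hx'
    exact hpq ⟨hx, hx'⟩
  | cast a =>
    rw [mem_lift_cast] at hx hx'
    exact h hx hx'

/-- the new point in the lowest layer -/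
theorem lay3_low {n : ℕ} {r : Fin n → Fin n → Prop} {A B C T : Finset (Fin n)}
    (hc : ∀ x, x ∈ A ∨ x ∈ B ∨ x ∈ C) (hAB : Disjoint A B) (hBC : Disjoint B C)
    (hAC : Disjoint A C)
    (hrel : ∀ x y, r x y → (x ∈ A ∧ y ∈ B) ∨ (x ∈ B ∧ y ∈ C) ∨ (x ∈ A ∧ y ∈ C))
    (hf : ∀ a ∈ A, ∀ c ∈ C, r a c) (hT : T ⊆ B) : Lay3 (ext r ∅ (T ∪ C)) := by
  refine ⟨lift A True, lift B False, lift C False, ?_, disjoint_lift hAB (by simp),
    disjoint_lift hBC (by simp), disjoint_lift hAC (by simp), ?_, ?_⟩
  · intro x
    induction x using Fin.lastCases with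
    | last => left; rw [mem_lift_last]; trivial
    | cast a => simp only [mem_lift_cast]; exact hc a
  · intro x y hxy
    induction x using Fin.lastCases with
    | last =>
      induction y using Fin.lastCases with
      | last => exact absurd hxy (ext_ll _ _ _)
      | cast b =>
        rw [ext_lc, Finset.mem_union] at hxy
        simp only [mem_lift_cast, mem_lift_last]
        rcases hxy with h | h
        · exact Or.inl ⟨trivial, hT h⟩
        · exact Or.inr (Or.inr ⟨trivial, h⟩)
    | cast a =>
      induction y using Fin.lastCases with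
      | last =>
        rw [ext_cl] at hxy
        simp at hxy
      | cast b =>
        rw [ext_cc] at hxy
        simp only [mem_lift_cast]
        exact hrel a b hxy
  · intro a ha c hc'
    induction c using Fin.lastCases with
    | last => rw [mem_lift_last] at hc'; exact hc'.elim
    | cast c =>
      rw [mem_lift_cast] at hc'
      induction a using Fin.lastCases with
      | last =>
        rw [ext_lc, Finset.mem_union]
        exact Or.inr hc'
      | cast a =>
        rw [mem_lift_cast] at ha
        rw [ext_cc]
        exact hf a ha c hc'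

/-- the new point in the middle layer -/
theorem lay3_mid {n : ℕ} {r : Fin n → Fin n → Prop} {A B C D U : Finset (Fin n)}
    (hc : ∀ x, x ∈ A ∨ x ∈ B ∨ x ∈ C) (hAB : Disjoint A B) (hBC : Disjoint B C)
    (hAC : Disjoint A C)
    (hrel : ∀ x y, r x y → (x ∈ A ∧ y ∈ B) ∨ (x ∈ B ∧ y ∈ C) ∨ (x ∈ A ∧ y ∈ C))
    (hf : ∀ a ∈ A, ∀ c ∈ C, r a c) (hD : D ⊆ A) (hU : U ⊆ C) : Lay3 (ext r D U) := by
  refine ⟨lift A False, lift B True, lift C False, ?_, disjoint_lift hAB (by simp),
    disjoint_lift hBC (by simp), disjoint_lift hAC (by simp), ?_, ?_⟩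
  · intro x
    induction x using Fin.lastCases with
    | last => right; left; rw [mem_lift_last]; trivial
    | cast a => simp only [mem_lift_cast]; exact hc a
  · intro x y hxy
    induction x using Fin.lastCases with
    | last =>
      induction y using Fin.lastCases with
      | last => exact absurd hxy (ext_ll _ _ _)
      | cast b =>
        rw [ext_lc] at hxy
        simp only [mem_lift_cast, mem_lift_last]
        exact Or.inr (Or.inl ⟨trivial, hU hxy⟩)
    | cast a =>
      induction y using Fin.lastCases with
      | last =>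
        rw [ext_cl] at hxy
        simp only [mem_lift_cast, mem_lift_last]
        exact Or.inl ⟨hD hxy, trivial⟩
      | cast b =>
        rw [ext_cc] at hxy
        simp only [mem_lift_cast]
        exact hrel a b hxy
  · intro a ha c hc'
    induction c using Fin.lastCases with
    | last => rw [mem_lift_last] at hc'; exact hc'.elim
    | cast c =>
      rw [mem_lift_cast] at hc'
      induction a using Fin.lastCases with
      | last => rw [mem_lift_last] at ha; exact ha.elim
      | cast a =>
        rw [mem_lift_cast] at ha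
        rw [ext_cc]
        exact hf a ha c hc'

open Classical in
/-- the number of extensions -/
theorem card_ext {n : ℕ} {r : Fin n → Fin n → Prop} (hr : SO r) (h : Lay3 r) :
    ∃ m : ℕ, n ≤ 2 * m ∧ 2 ^ m ≤ (Finset.univ.filter fun p : Finset (Fin n) × Finset (Fin n) =>
      SO (ext r p.1 p.2) ∧ Lay3 (ext r p.1 p.2)).card := by
  obtain ⟨A, B, C, hc, hAB, hBC, hAC, hrel, hf⟩ := h
  have hsum : n = A.card + B.card + C.card := by
    have h1 : A ∪ B ∪ C = Finset.univ := by
      ext x
      simp only [Finset.mem_union, Finset.mem_univ, iff_true]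
      rcases hc x with h | h | h
      · exact Or.inl (Or.inl h)
      · exact Or.inl (Or.inr h)
      · exact Or.inr h
    rw [← Finset.card_union_of_disjoint hAB, ← Finset.card_union_of_disjoint, h1,
      Finset.card_univ, Fintype.card_fin]
    rw [Finset.disjoint_union_left]
    exact ⟨hAC, hBC⟩
  have hAB' := Finset.disjoint_left.mp hAB
  have hBC' := Finset.disjoint_left.mp hBC
  have hAC' := Finset.disjoint_left.mp hAC
  by_cases hn : n ≤ 2 * B.card
  · refine ⟨B.card, hn, ?_⟩
    rw [← Finset.card_powerset]
    refine Finset.card_le_card_of_injOn (fun T => (∅, T ∪ C)) ?_ ?_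
    · intro T hT
      have hT' : T ⊆ B := by simpa using hT
      simp only [Finset.coe_filter, Finset.mem_univ, true_and, Set.mem_ofPred_eq]
      refine ⟨so_ext hr (by simp) (by simp) ?_, lay3_low hc hAB hBC hAC hrel hf hT'⟩
      intro c hc1 y hcy
      rw [Finset.mem_union] at hc1 ⊢
      right
      rcases hc1 with h | h
      · rcases hrel c y hcy with h1 | h1 | h1
        · exact absurd (hT' h) (hAB' h1.1)
        · exact h1.2
        · exact h1.2
      · rcases hrel c y hcy with h1 | h1 | h1
        · exact absurd h (hAC' h1.1)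
        · exact h1.2
        · exact h1.2
    · intro T hT T' hT' hTT'
      have hT1 : T ⊆ B := by simpa using hT
      have hT1' : T' ⊆ B := by simpa using hT'
      have h2 : T ∪ C = T' ∪ C := (Prod.mk.inj hTT').2
      ext x
      constructor
      · intro hx
        have h3 : x ∈ T' ∪ C := by rw [← h2]; exact Finset.mem_union_left _ hx
        rcases Finset.mem_union.mp h3 with h4 | h4
        · exact h4
        · exact absurd h4 (hBC' (hT1 hx))
      · intro hx
        have h3 : x ∈ T ∪ C := by rw [h2]; exact Finset.mem_union_left _ hx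
        rcases Finset.mem_union.mp h3 with h4 | h4
        · exact h4
        · exact absurd h4 (hBC' (hT1' hx))
  · refine ⟨A.card + C.card, by omega, ?_⟩
    rw [pow_add, ← Finset.card_powerset, ← Finset.card_powerset, ← Finset.card_product]
    apply Finset.card_le_card
    intro p hp
    rw [Finset.mem_product, Finset.mem_powerset, Finset.mem_powerset] at hp
    rw [Finset.mem_filter]
    refine ⟨Finset.mem_univ _, so_ext hr ?_ ?_ ?_, lay3_mid hc hAB hBC hAC hrel hf hp.1 hp.2⟩
    · intro a ha c hc1
      exact hf a (hp.1 ha) c (hp.2 hc1)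
    · intro a ha x hxa
      exfalso
      rcases hrel x a hxa with h1 | h1 | h1
      · exact hAB' (hp.1 ha) h1.2
      · exact hAC' (hp.1 ha) h1.2
      · exact hAC' (hp.1 ha) h1.2
    · intro c hc1 y hcy
      exfalso
      rcases hrel c y hcy with h1 | h1 | h1
      · exact hAC' h1.1 (hp.2 hc1)
      · exact hBC' h1.1 (hp.2 hc1)
      · exact hAC' h1.1 (hp.2 hc1)

/-- K11b: the ratio. -/
theorem ratio : Ratio := by
  classical
  intro n
  set S := Finset.univ.filter fun r : Fin n → Fin n → Prop => SO r ∧ Lay3 r with hS
  set E : (Fin n → Fin n → Prop) → Finset (Finset (Fin n) × Finset (Fin n)) := fun r =>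
    Finset.univ.filter fun p : Finset (Fin n) × Finset (Fin n) =>
      SO (ext r p.1 p.2) ∧ Lay3 (ext r p.1 p.2) with hE
  have h1 : (S.sigma E).card ≤ num (n + 1) Lay3 := by
    unfold num
    refine Finset.card_le_card_of_injOn (fun q => ext q.1 q.2.1 q.2.2) ?_ ?_
    · intro q hq
      have hq' : q ∈ S.sigma E := by simpa using hq
      rw [Finset.mem_sigma] at hq'
      have h2 := hq'.2
      rw [hE] at h2
      simp only [Finset.mem_filter, Finset.mem_univ, true_and] at h2
      simp only [Finset.coe_filter, Finset.mem_univ, true_and, Set.mem_ofPred_eq]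
      exact h2
    · rintro ⟨r, D, U⟩ - ⟨r', D', U'⟩ - h
      obtain ⟨h3, h4, h5⟩ := ext_inj h
      subst h3 h4 h5
      rfl
  have h2 : (2 : ℝ) ^ ((n : ℝ) / 2) * (num n Lay3 : ℝ) ≤ ((S.sigma E).card : ℝ) := by
    rw [Finset.card_sigma, Nat.cast_sum]
    have h3 : (num n Lay3 : ℝ) = ∑ r ∈ S, (1 : ℝ) := by
      rw [Finset.sum_const, nsmul_eq_mul, mul_one, hS]
      unfold num
      rfl
    rw [h3, Finset.mul_sum]
    apply Finset.sum_le_sum
    intro r hr
    rw [hS, Finset.mem_filter] at hr
    obtain ⟨m, hm1, hm2⟩ := card_ext hr.2.1 hr.2.2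
    have h4 : (2 : ℝ) ^ ((n : ℝ) / 2) ≤ (2 : ℝ) ^ (m : ℝ) := by
      apply Real.rpow_le_rpow_of_exponent_le (by norm_num)
      have : (n : ℝ) ≤ 2 * m := by exact_mod_cast hm1
      linarith
    rw [Real.rpow_natCast] at h4
    rw [mul_one]
    refine h4.trans ?_
    have h5 : ((2 ^ m : ℕ) : ℝ) ≤ ((E r).card : ℝ) := by
      exact_mod_cast hm2
    push_cast at h5
    exact h5
  exact h2.trans (by exact_mod_cast h1)

end Pool.Agent.Lib.MP_5bc52d_co.KR
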