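import Mathlib
import Pool.Agent.Lib.MP_5bc52d_co.KR.Assembly
import Pool.Agent.Lib.MP_5bc52d_co.KR.R0
import Pool.Agent.Lib.MP_5bc52d_co.KR.R1
import Pool.Agent.Lib.MP_5bc52d_co.KR.R2
import Pool.Agent.Lib.MP_5bc52d_co.KR.R3
import Pool.Agent.Lib.MP_5bc52d_co.KR.R4
import Pool.Agent.Lib.MP_5bc52d_co.KR.Pre
import Pool.Agent.Lib.MP_5bc52d_co.KR.Facts
import Pool.Agent.Lib.MP_5bc52d_co.KR.FromFacts
import Pool.Agent.Lib.MP_5bc52d_co.KR.FromSides
import Pool.Agent.Lib.MP_5bc52d_co.KR.CountC1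
import Pool.Agent.Lib.MP_5bc52d_co.KR.CountC2
import Pool.Agent.Lib.MP_5bc52d_co.KR.CountD
import Pool.Agent.Lib.MP_5bc52d_co.KR.Lower
import Pool.Agent.Lib.MP_5bc52d_co.KR.Ratio

/-!
# Almost all partial orders have three layers
-/

namespace Pool.Agent.Lib.MP_5bc52d_co.KR

/-- The theorem of Kleitman and Rothschild. -/
theorem kleitmanRothschild : KleitmanRothschild :=
  kleitman_rothschild bR0 bR1 bR2 bR3 bR4 (structure_of (sides_of facts fromFacts) fromSides)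
    countC1 countC2 countD lower ratio

end Pool.Agent.Lib.MP_5bc52d_co.KR
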