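import Mathlib

/-!
# Two sides of a graph with nearly complementary sets (abstract form)
-/

namespace Pool.Agent.Lib.MP_5bc52d_co.KR

open Finset

variable {V : Type*} [Fintype V] [DecidableEq V]

/-- the size of the symmetric difference -/
def dd (S T : Finset V) : ℝ := ((symmDiff S T).card : ℝ)

theorem dd_comm (S T : Finset V) : dd S T = dd T S := by
  unfold dd; rw [symmDiff_comm]

theorem dd_triangle (S T U : Finset V) : dd S U ≤ dd S T + dd T U := by
  unfold dd
  have h : (symmDiff S U).card ≤ (symmDiff S T ∪ symmDiff T U).card :=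
    Finset.card_le_card (symmDiff_triangle S T U)
  have h2 := h.trans (Finset.card_union_le _ _)
  exact_mod_cast h2

theorem dd_compl (S T : Finset V) : dd Sᶜ Tᶜ = dd S T := by
  unfold dd; rw [compl_symmDiff_compl]

theorem dd_compl' (S T : Finset V) : dd S Tᶜ = dd Sᶜ T := by
  rw [← dd_compl S Tᶜ, compl_compl]

theorem dd_self_compl (S : Finset V) : dd S Sᶜ = Fintype.card V := by
  unfold dd
  rw [symmDiff_compl_self, Finset.top_eq_univ, Finset.card_univ]

theorem sides_abs (Adj : V → V → Prop) (hs : ∀ x y, Adj x y → Adj y x)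
    (F : V → Finset V) (n ρ ε δ : ℝ) (hn : n = Fintype.card V) (hpos : 0 < n)
    (hρ : 9 * ρ < 1) (hρ0 : 0 ≤ ρ) (hεδ : 2 * ε < δ)
    (hF : ∀ x y, Adj x y → dd (F x) (F y)ᶜ ≤ ρ * n)
    (hN : ∀ x, ∃ N : Finset V, (∀ y ∈ N, Adj x y) ∧ δ * n ≤ N.card)
    (hQ : ∀ x, ∃ Z : Finset V, (∀ z ∈ Z, ∃ q, Adj x q ∧ Adj q z) ∧ (1 / 2 - ε) * n < Z.card) :
    ∃ S : Finset V, (∀ x y, Adj x y → (x ∈ S ↔ y ∉ S)) ∧
      (∀ x y, (x ∈ S ↔ y ∈ S) → dd (F x) (F y) ≤ 8 * ρ * n) ∧
      δ * n ≤ S.card ∧ δ * n ≤ (Sᶜ).card := by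
  classical
  have hρn : 0 ≤ ρ * n := mul_nonneg hρ0 hpos.le
  have hV : Nonempty V := by
    rw [← Fintype.card_pos_iff]
    have : (0 : ℝ) < Fintype.card V := hn ▸ hpos
    exact_mod_cast this
  obtain ⟨x0⟩ := hV
  -- one step
  have step : ∀ (x y : V) (T : Finset V) (t : ℝ), Adj x y → dd (F x) T ≤ t →
      dd (F y) Tᶜ ≤ t + ρ * n := by
    intro x y T t h1 h2
    have h3 := hF y x (hs _ _ h1)
    have h4 := dd_triangle (F y) (F x)ᶜ Tᶜ
    rw [dd_compl] at h4
    linarith
  have step' : ∀ (x y : V) (T : Finset V) (t : ℝ), Adj x y → dd (F x) Tᶜ ≤ t →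
      dd (F y) T ≤ t + ρ * n := by
    intro x y T t h1 h2
    have := step x y Tᶜ t h1 h2
    rwa [compl_compl] at this
  set F0 := F x0 with hF0
  have h00 : dd (F x0) F0 ≤ 0 := by
    rw [← hF0]; unfold dd; simp
  -- Z0
  obtain ⟨Z0, hZ0, hZ0c⟩ := hQ x0
  have hZ0' : ∀ z ∈ Z0, dd (F z) F0 ≤ 2 * (ρ * n) := by
    intro z hz
    obtain ⟨q, h1, h2⟩ := hZ0 z hz
    have h3 := step x0 q F0 0 h1 h00
    have h4 := step' q z F0 _ h2 h3
    linarith
  -- y0
  obtain ⟨N0, hN0, hN0c⟩ := hN x0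
  have hδ : 0 < δ * n := by
    have hε2 : 0 < δ ∨ δ ≤ 0 := lt_or_ge _ _
    rcases hε2 with h | h
    · exact mul_pos h hpos
    · exfalso
      have h1 : (1 / 2 - ε) * n < Z0.card := hZ0c
      have h2 : (Z0.card : ℝ) ≤ n := by
        rw [hn]; exact_mod_cast Finset.card_le_univ Z0
      -- ε < 0 would give more than half; use the second set
      obtain ⟨Z1, hZ1, hZ1c⟩ := hQ x0
      have hne : (0 : ℝ) < Z0.card := by
        have : 0 ≤ (1 / 2 - ε) * n := mul_nonneg (by linarith) hpos.le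
        linarith
      have hne' : 0 < Z0.card := by exact_mod_cast hne
      obtain ⟨z, hz⟩ := Finset.card_pos.mp hne'
      obtain ⟨q, hq1, hq2⟩ := hZ0 z hz
      -- both sets for x0 and q
      obtain ⟨Z2, hZ2, hZ2c⟩ := hQ q
      have hZ2' : ∀ z ∈ Z2, dd (F z) F0ᶜ ≤ 3 * (ρ * n) := by
        intro z hz
        obtain ⟨p, h1, h2⟩ := hZ2 z hz
        have h3 := step x0 q F0 0 hq1 h00
        have h4 := step' q p F0 _ h1 h3
        have h5 := step p z F0 _ h2 h4
        linarith
      have hdis : Disjoint Z0 Z2 := by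
        rw [Finset.disjoint_left]
        intro z h1 h2
        have h3 := hZ0' z h1
        have h4 := hZ2' z h2
        have h5 := dd_triangle F0 (F z) F0ᶜ
        rw [dd_self_compl, dd_comm F0 (F z), ← hn] at h5
        nlinarith
      have hc : (Z0.card : ℝ) + Z2.card ≤ n := by
        rw [hn]
        have := Finset.card_le_univ (Z0 ∪ Z2)
        rw [Finset.card_union_of_disjoint hdis] at this
        exact_mod_cast this
      nlinarith
  have hN0ne : N0.Nonempty := by
    rw [← Finset.card_pos]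
    have : (0 : ℝ) < N0.card := by linarith
    exact_mod_cast this
  obtain ⟨y0, hy0⟩ := hN0ne
  have hxy := hN0 y0 hy0
  obtain ⟨Z1, hZ1, hZ1c⟩ := hQ y0
  have hZ1' : ∀ z ∈ Z1, dd (F z) F0ᶜ ≤ 3 * (ρ * n) := by
    intro z hz
    obtain ⟨p, h1, h2⟩ := hZ1 z hz
    have h3 := step x0 y0 F0 0 hxy h00
    have h4 := step' y0 p F0 _ h1 h3
    have h5 := step p z F0 _ h2 h4
    linarith
  have hdis : Disjoint Z0 Z1 := by
    rw [Finset.disjoint_left]
    intro z h1 h2
    have h3 := hZ0' z h1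
    have h4 := hZ1' z h2
    have h5 := dd_triangle F0 (F z) F0ᶜ
    rw [dd_self_compl, dd_comm F0 (F z), ← hn] at h5
    nlinarith
  have hcomp : (((Z0 ∪ Z1)ᶜ).card : ℝ) < 2 * ε * n := by
    have h1 : ((Z0 ∪ Z1)ᶜ).card + (Z0 ∪ Z1).card = Fintype.card V := by
      rw [Finset.card_compl]
      exact Nat.sub_add_cancel (Finset.card_le_univ _)
    rw [Finset.card_union_of_disjoint hdis] at h1
    have h2 : (((Z0 ∪ Z1)ᶜ).card : ℝ) + (Z0.card + Z1.card) = n := by
      rw [hn]; exact_mod_cast h1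
    nlinarith
  -- every vertex
  have key : ∀ w : V, dd (F w) F0 ≤ 4 * (ρ * n) ∨ dd (F w) F0ᶜ ≤ 4 * (ρ * n) := by
    intro w
    obtain ⟨N, hNa, hNc⟩ := hN w
    have h1 : ∃ z ∈ N, z ∈ Z0 ∪ Z1 := by
      by_contra hcon
      push Not at hcon
      have h2 : N ⊆ (Z0 ∪ Z1)ᶜ := by
        intro z hz
        rw [Finset.mem_compl]
        exact hcon z hz
      have h3 : (N.card : ℝ) ≤ ((Z0 ∪ Z1)ᶜ).card := by
        exact_mod_cast Finset.card_le_card h2
      nlinarith
    obtain ⟨z, hz1, hz2⟩ := h1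
    have h3 := hs _ _ (hNa z hz1)
    rcases Finset.mem_union.mp hz2 with h | h
    · right
      have := step z w F0 _ h3 (hZ0' z h)
      linarith
    · left
      have := step' z w F0 _ h3 (hZ1' z h)
      linarith
  refine ⟨Finset.univ.filter fun w => dd (F w) F0 ≤ 4 * (ρ * n), ?_, ?_, ?_, ?_⟩
  · intro x y hxy
    simp only [Finset.mem_filter, Finset.mem_univ, true_and]
    constructor
    · intro h1 h2
      have h3 := hF x y hxy
      have h4 := dd_triangle (F x) F0 (F y)
      have h5 := dd_triangle (F y) (F x) (F y)ᶜ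
      rw [dd_self_compl, ← hn, dd_comm (F y) (F x)] at h5
      rw [dd_comm F0 (F y)] at h4
      nlinarith
    · intro h1
      rcases key x with h2 | h2
      · exact h2
      · exfalso
        rcases key y with h3 | h3
        · exact h1 h3
        · have h4 := hF x y hxy
          have h5 := dd_triangle (F x) F0ᶜ (F y)
          have h6 := dd_triangle (F y) (F x) (F y)ᶜ
          rw [dd_self_compl, ← hn, dd_comm (F y) (F x)] at h6
          rw [dd_comm F0ᶜ (F y)] at h5
          nlinarith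
  · intro x y hxy
    simp only [Finset.mem_filter, Finset.mem_univ, true_and] at hxy
    by_cases h1 : dd (F x) F0 ≤ 4 * (ρ * n)
    · have h2 := hxy.mp h1
      have h3 := dd_triangle (F x) F0 (F y)
      rw [dd_comm F0 (F y)] at h3
      linarith
    · have h2 : ¬ dd (F y) F0 ≤ 4 * (ρ * n) := fun h => h1 (hxy.mpr h)
      have h3 := (key x).resolve_left h1
      have h4 := (key y).resolve_left h2
      have h5 := dd_triangle (F x) F0ᶜ (F y)
      rw [dd_comm F0ᶜ (F y)] at h5
      linarith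
  · -- N y0 is in the side
    obtain ⟨N, hNa, hNc⟩ := hN y0
    refine hNc.trans ?_
    have : N ⊆ Finset.univ.filter fun w => dd (F w) F0 ≤ 4 * (ρ * n) := by
      intro z hz
      simp only [Finset.mem_filter, Finset.mem_univ, true_and]
      have h3 := step x0 y0 F0 0 hxy h00
      have h4 := step' y0 z F0 _ (hNa z hz) h3
      linarith
    exact_mod_cast Finset.card_le_card this
  · refine hN0c.trans ?_
    have : N0 ⊆ (Finset.univ.filter fun w => dd (F w) F0 ≤ 4 * (ρ * n))ᶜ := by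
      intro z hz
      simp only [Finset.mem_compl, Finset.mem_filter, Finset.mem_univ, true_and]
      intro h1
      have h3 := step x0 z F0 0 (hN0 z hz) h00
      have h5 := dd_triangle F0 (F z) F0ᶜ
      rw [dd_self_compl, dd_comm F0 (F z), ← hn] at h5
      nlinarith
    exact_mod_cast Finset.card_le_card this

end Pool.Agent.Lib.MP_5bc52d_co.KR
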